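import Pool.Agent.U80.MQ.Kum2
import Pool.Agent.U80.MQ.Rk

/-!
# The rank over the subfields of a real multiquadratic field, for every curve with a point of order two
-/

set_option autoImplicit false

open NumberField IsDedekindDomain WeierstrassCurve

namespace Pool.Agent.U80.GT

open Pool.Agent.TH841.NF.D (rk)
open Pool.Agent.TH841.NF (Sc)
open Pool.Agent.Y682 (gc gc_isT fg_MP MP)
open Pool.Agent.U80.MQ (wt wt_sq insert_ad Om exists_gens)

section

variable {a b : ℤ}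

lemma g_ne (hb : b ≠ 0) (hc : a ^ 2 - 4 * b ≠ 0) {c : ℤ} (hc0 : c ≠ 0) :
    (b * c ^ 2 ≠ 0) ∧ (a * c) ^ 2 - 4 * (b * c ^ 2) ≠ 0 := by
  have h2 : c ^ 2 ≠ 0 := pow_ne_zero 2 hc0
  refine ⟨mul_ne_zero hb h2, ?_⟩
  have e1 : (a * c) ^ 2 - 4 * (b * c ^ 2) = (a ^ 2 - 4 * b) * c ^ 2 := by ring
  rw [e1]
  exact mul_ne_zero hc h2

/-- the rank over `F` of the twist by `c` -/
noncomputable def Rg (a b : ℤ) (F : Type) [Field F] [NumberField F] (c : ℤ) : ℕ :=
  rk (gc (a * c) (b * c ^ 2) F)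

lemma Rg_iso (hb : b ≠ 0) (hc : a ^ 2 - 4 * b ≠ 0) {K K' : Type} [Field K] [NumberField K]
    [Field K'] [NumberField K'] (e : K ≃+* K') {d : ℤ} (hd : d ≠ 0) : Rg a b K d = Rg a b K' d :=
  Pool.Agent.Y421.XD.s_rke K K' e _ _ (g_ne hb hc hd).1 (g_ne hb hc hd).2

lemma Rg_sq (hb : b ≠ 0) (hc : a ^ 2 - 4 * b ≠ 0) {K : Type} [Field K] [NumberField K] {c g : ℤ}
    (hc0 : c ≠ 0) (hg : g ≠ 0) : Rg a b K (c * g ^ 2) = Rg a b K c := by
  have h := Pool.Agent.Y153.XD.s_sq K (a * c) (b * c ^ 2) g (g_ne hb hc hc0).1 (g_ne hb hc hc0).2 hg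
  unfold Rg
  rw [← h]
  congr 2
  · ring
  · ring

/-- the quadratic formula -/
lemma Rg_quad (hb : b ≠ 0) (hc' : a ^ 2 - 4 * b ≠ 0) (F F' : IntermediateField ℚ ℂ) [NumberField F]
    [NumberField F'] {z : ℂ} {d : ℤ} (hd : d ≠ 0) (hz : z ∉ F) (hz2 : z ^ 2 = (d : ℂ))
    (hF' : F' = F ⊔ IntermediateField.adjoin ℚ {z}) {c : ℤ} (hc : c ≠ 0) :
    Rg a b F' c = Rg a b F c + Rg a b F (c * d) := by
  have hle : F ≤ F' := by rw [hF']; exact le_sup_left
  have hzF' : z ∈ F' := by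
    rw [hF']
    exact (le_sup_right : _ ≤ F ⊔ IntermediateField.adjoin ℚ {z})
      (IntermediateField.mem_adjoin_simple_self ℚ z)
  let _ : Algebra F F' := (IntermediateField.inclusion hle).toRingHom.toAlgebra
  have h3 := Pool.Agent.Y888.XD.s_qf F F' (a * c) (b * c ^ 2) d (⟨z, hzF'⟩ : F')
    (g_ne hb hc' hc).1 (g_ne hb hc' hc).2 hd (Subtype.ext (by
      show z ^ 2 = _
      rw [hz2]
      rfl)) (Pool.Agent.Y51.XD.s_deg2 F F' z d hz hz2 hle hF') (by
      intro x hx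
      apply hz
      have h4 := congrArg (fun y : F' => (y : ℂ)) hx
      have h5 : (x : ℂ) = z := h4
      rw [← h5]
      exact x.2)
  unfold Rg
  rw [h3]
  congr 2
  · congr 1
    · ring
    · ring

/-- the rank over a multiquadratic field -/
theorem Rg_G (hb : b ≠ 0) (hc' : a ^ 2 - 4 * b ≠ 0) {P : Finset ℕ} (hP : ∀ q ∈ P, q ≠ 0) (s : ℕ)
    (G : Finset (Finset ℕ)) : (∀ S ∈ G, S ⊆ P) →
    FiniteDimensional ℚ (IntermediateField.adjoin ℚ (wt '' (G : Set (Finset ℕ)))) ∧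
    ∀ (F₀ : IntermediateField ℚ ℂ) [NumberField F₀],
      F₀ = IntermediateField.adjoin ℚ (wt '' (G : Set (Finset ℕ))) → ∀ c : ℤ, c ≠ 0 →
      (∀ T, T ⊆ P → Rg a b ℚ (c * ((∏ q ∈ T, q : ℕ) : ℤ)) ≤ s) → Rg a b F₀ c ≤ 2 ^ G.card * s := by
  classical
  have hprod : ∀ S, S ⊆ P → ((∏ q ∈ S, q : ℕ) : ℤ) ≠ 0 := fun S hS => by
    exact_mod_cast Finset.prod_ne_zero_iff.2 fun q hq => hP q (hS hq)
  have hsym : ∀ {c : ℤ}, c ≠ 0 → ∀ {S : Finset ℕ}, S ⊆ P →
      (∀ T, T ⊆ P → Rg a b ℚ (c * ((∏ q ∈ T, q : ℕ) : ℤ)) ≤ s) →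
      ∀ T, T ⊆ P → Rg a b ℚ (c * ((∏ q ∈ S, q : ℕ) : ℤ) * ((∏ q ∈ T, q : ℕ) : ℤ)) ≤ s := by
    intro c hc S hS h T hT
    have hU : symmDiff S T ⊆ P := fun q hq => by
      rcases Finset.mem_symmDiff.1 hq with h1 | h1
      · exact hS h1.1
      · exact hT h1.1
    have hI : S ∩ T ⊆ P := Finset.inter_subset_left.trans hS
    have e : (∏ q ∈ S, q) * (∏ q ∈ T, q) = (∏ q ∈ symmDiff S T, q) * (∏ q ∈ S ∩ T, q) ^ 2 := by
      have h1 : symmDiff S T = (S \ T) ∪ (T \ S) := rfl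
      rw [h1, Finset.prod_union (Finset.disjoint_left.2 fun x hx hx' =>
        (Finset.mem_sdiff.1 hx').2 (Finset.mem_sdiff.1 hx).1)]
      have h2 : (∏ q ∈ S, q) = (∏ q ∈ S \ T, q) * ∏ q ∈ S ∩ T, q := by
        rw [← Finset.prod_union (Finset.disjoint_left.2 fun x hx hx' =>
          (Finset.mem_sdiff.1 hx).2 (Finset.mem_inter.1 hx').2), Finset.sdiff_union_inter]
      have h3 : (∏ q ∈ T, q) = (∏ q ∈ T \ S, q) * ∏ q ∈ S ∩ T, q := by
        rw [Finset.inter_comm, ← Finset.prod_union (Finset.disjoint_left.2 fun x hx hx' =>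
          (Finset.mem_sdiff.1 hx).2 (Finset.mem_inter.1 hx').2), Finset.sdiff_union_inter]
      rw [h2, h3]
      ring
    have e2 : c * ((∏ q ∈ S, q : ℕ) : ℤ) * ((∏ q ∈ T, q : ℕ) : ℤ) =
        c * ((∏ q ∈ symmDiff S T, q : ℕ) : ℤ) * ((∏ q ∈ S ∩ T, q : ℕ) : ℤ) ^ 2 := by
      have := congrArg (fun n : ℕ => (n : ℤ)) e
      push_cast at this ⊢
      linear_combination c * this
    rw [e2, Rg_sq hb hc' (mul_ne_zero hc (hprod _ hU)) (hprod _ hI)]
    exact h _ hU
  induction G using Finset.induction_on with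
  | empty =>
    intro _
    have e : IntermediateField.adjoin ℚ (wt '' ((∅ : Finset (Finset ℕ)) : Set (Finset ℕ))) = ⊥ := by
      rw [Finset.coe_empty, Set.image_empty, IntermediateField.adjoin_empty]
    rw [e]
    refine ⟨by infer_instance, ?_⟩
    intro F₀ _ hF₀ c hc h
    subst hF₀
    have hq : Rg a b ℚ c = Rg a b (⊥ : IntermediateField ℚ ℂ) c :=
      Rg_iso hb hc' (IntermediateField.botEquiv ℚ ℂ).symm.toRingEquiv hc
    rw [← hq]
    have := h ∅ (Finset.empty_subset _)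
    simpa using this
  | insert S G hSG ih =>
    intro hG
    obtain ⟨hfd, ih'⟩ := ih (fun e he => hG e (Finset.mem_insert_of_mem he))
    have hS : S ⊆ P := hG S (Finset.mem_insert_self _ _)
    have hdZ := hprod S hS
    have hins := insert_ad G S
    set F : IntermediateField ℚ ℂ := IntermediateField.adjoin ℚ (wt '' (G : Set (Finset ℕ))) with hF
    have hG₀ : NumberField F := { to_charZero := inferInstance, to_finiteDimensional := hfd }
    have hcard : (insert S G).card = G.card + 1 := Finset.card_insert_of_notMem hSG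
    by_cases hz0 : wt S ∈ F
    · have hins' : IntermediateField.adjoin ℚ (wt '' ((insert S G : Finset (Finset ℕ)) :
          Set (Finset ℕ))) = F := by
        rw [hins]
        exact sup_eq_left.2 ((IntermediateField.adjoin_simple_le_iff).2 hz0)
      rw [hins']
      refine ⟨hfd, fun F₀ _ hF₀ c hc h => (ih' F₀ hF₀ c hc h).trans ?_⟩
      exact Nat.mul_le_mul_right _ (Nat.pow_le_pow_right (by norm_num) (by omega))
    · refine ⟨?_, ?_⟩
      · rw [hins]
        have : FiniteDimensional ℚ (IntermediateField.adjoin ℚ {wt S} : IntermediateField ℚ ℂ) :=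
          IntermediateField.adjoin.finiteDimensional
            ⟨Polynomial.X ^ 2 - Polynomial.C ((∏ q ∈ S, q : ℕ) : ℚ),
            Polynomial.monic_X_pow_sub_C _ (by norm_num), by
              rw [Polynomial.eval₂_sub, Polynomial.eval₂_pow, Polynomial.eval₂_X,
                Polynomial.eval₂_C, wt_sq, map_natCast, sub_self]⟩
        exact IntermediateField.finiteDimensional_sup _ _
      · intro F₀ _ hF₀ c hc h
        rw [Rg_quad hb hc' F F₀ hdZ hz0 (by rw [wt_sq, Int.cast_natCast]) (hF₀.trans hins) hc]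
        have h1 := ih' F rfl c hc h
        have h2 := ih' F rfl _ (mul_ne_zero hc hdZ) (hsym hc hS h)
        rw [hcard, pow_succ]
        nlinarith

lemma gen_le (K F : IntermediateField ℚ ℂ) (inst : Algebra ℚ K) (s : Set K)
    (hgen : IntermediateField.adjoin ℚ s = ⊤) (hs : ∀ y ∈ s, (y : ℂ) ∈ F) : K ≤ F := by
  have key : ∀ y : K, y ∈ IntermediateField.adjoin ℚ s → (y : ℂ) ∈ F := by
    intro y hy
    induction hy using IntermediateField.adjoin_induction with
    | mem x hx => exact hs x hx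
    | algebraMap q =>
      rw [eq_ratCast]
      have e : (((q : ℚ) : K) : ℂ) = algebraMap ℚ ℂ q := by simp
      rw [e]
      exact IntermediateField.algebraMap_mem _ q
    | add x y _ _ hx hy => exact add_mem hx hy
    | inv x _ hx => exact inv_mem hx
    | mul x y _ _ hx hy => exact mul_mem hx hy
  intro x hx
  exact key ⟨x, hx⟩ (by rw [hgen]; exact IntermediateField.mem_top)

/-- **the rank over a number field inside a real multiquadratic field** -/
theorem Rg_K (hb : b ≠ 0) (hc' : a ^ 2 - 4 * b ≠ 0) {P : Finset ℕ} (hP : ∀ q ∈ P, q ≠ 0) {s : ℕ}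
    (K : IntermediateField ℚ ℂ) [NumberField K] (hK : K ≤ Om P) {c : ℤ} (hc : c ≠ 0)
    (h : ∀ T, T ⊆ P → Rg a b ℚ (c * ((∏ q ∈ T, q : ℕ) : ℤ)) ≤ s) :
    Rg a b K c ≤ Module.finrank ℚ K * s := by
  classical
  obtain ⟨n, S, r, hS, hr, -, hgen, hdeg⟩ := exists_gens K hK
  rw [hdeg]
  set G : Finset (Finset ℕ) := Finset.univ.image S with hG
  have hcard : G.card ≤ n := by
    refine Finset.card_image_le.trans ?_
    rw [Finset.card_univ, Fintype.card_fin]
  have hKG : K = IntermediateField.adjoin ℚ (wt '' (G : Set (Finset ℕ))) := by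
    apply le_antisymm
    · refine gen_le K _ _ (Set.range r) hgen ?_
      rintro _ ⟨i, rfl⟩
      rw [hr i]
      exact IntermediateField.subset_adjoin ℚ _
        ⟨S i, Finset.mem_coe.2 (Finset.mem_image_of_mem S (Finset.mem_univ i)), rfl⟩
    · rw [IntermediateField.adjoin_le_iff]
      rintro _ ⟨T, hT, rfl⟩
      obtain ⟨i, -, rfl⟩ := Finset.mem_image.1 (Finset.mem_coe.1 hT)
      rw [← hr i]
      exact (r i).2
  have h2 := (Rg_G hb hc' hP s G (fun T hT => by
    obtain ⟨i, -, rfl⟩ := Finset.mem_image.1 hT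
    exact hS i)).2 K hKG c hc h
  exact h2.trans (Nat.mul_le_mul_right _ (Nat.pow_le_pow_right (by norm_num) hcard))

/-- rank zero gives finitely many points -/
theorem fin_of_zero (hb : b ≠ 0) (hc' : a ^ 2 - 4 * b ≠ 0) {c : ℤ} (hc : c ≠ 0) (K : Type) [Field K]
    [NumberField K] (h : Rg a b K c = 0) : Finite (gc (a * c) (b * c ^ 2) K).toAffine.Point := by
  have h3 : Module.Finite ℤ (MP (gc (a * c) (b * c ^ 2) K)) :=
    fg_MP (gc_isT (g_ne hb hc' hc).1 (g_ne hb hc' hc).2 K)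
  have h4 : Module.finrank ℤ (MP (gc (a * c) (b * c ^ 2) K)) = 0 := h
  have h5 : Module.IsTorsion ℤ (MP (gc (a * c) (b * c ^ 2) K)) :=
    Module.finrank_eq_zero_iff_isTorsion.1 h4
  have h6 : Finite (MP (gc (a * c) (b * c ^ 2) K)) := Module.finite_of_fg_torsion _ h5
  exact h6

end

end Pool.Agent.U80.GT
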