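import Pool.Agent.U80.GT.TInv
import Pool.Agent.U80.GT.Rk
import Pool.Agent.U115.GE.Defs

/-!
# The tower of a twist: classes, rank and `Ш[2]` of all the twists in it
-/

set_option autoImplicit false

namespace Pool.Agent.U80.GT

open Finset
open Pool.Agent.Y695 (LocA)
open Pool.Agent.U80.NP
open Pool.Agent.Y682 (gc wc MP)
open Pool.Agent.TH841.NF.D (rk)

section

variable {a b : ℤ} {D : ℕ}

theorem tq_core (hb : b ≠ 0) (hc : a ^ 2 - 4 * b ≠ 0) (hsf : Squarefree D)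
    (hnd : ∀ p ∈ D.primeFactors, p ≠ 2 ∧ ¬ (p : ℤ) ∣ b * (a ^ 2 - 4 * b)) {q : ℕ} (hq : q.Prime)
    (h8 : q % 8 = 1) (hqD : ¬ q ∣ D) (h1 : ¬ IsSquare (b : ZMod q))
    (h2 : ¬ IsSquare ((a ^ 2 - 4 * b : ℤ) : ZMod q))
    (hbad : ∀ p : ℕ, p.Prime → p ≠ 2 → (p : ℤ) ∣ b * (a ^ 2 - 4 * b) →
      Neutral a b p ∨ IsSquare (q : ZMod p))
    (hP : ∀ p ∈ D.primeFactors, IsSquare (q : ZMod p) ∨ ¬ IsSquare ((a ^ 2 - 4 * b : ℤ) : ZMod p)) :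
    Tq (a * D) (b * (D : ℤ) ^ 2) q := by
  haveI : Fact q.Prime := ⟨hq⟩
  have hDz : ((D : ℤ) : ZMod q) ≠ 0 := by
    rw [Int.cast_natCast]
    intro h
    exact hqD ((ZMod.natCast_eq_zero_iff _ _).1 h)
  have hD2 : (((D : ℤ) : ZMod q) ^ 2) ≠ 0 := pow_ne_zero 2 hDz
  have e : (a * D) ^ 2 - 4 * (b * (D : ℤ) ^ 2) = (a ^ 2 - 4 * b) * (D : ℤ) ^ 2 := by ring
  have key : ∀ n : ℤ, ¬ IsSquare (n : ZMod q) → ¬ IsSquare ((n * (D : ℤ) ^ 2 : ℤ) : ZMod q) := by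
    intro n hn h
    apply hn
    rw [Int.cast_mul, Int.cast_pow, mul_comm, zsq_left hD2 ⟨((D : ℤ) : ZMod q), by ring⟩] at h
    exact h
  refine ⟨hq, h8, key b h1, by rw [e]; exact key _ h2, fun p hp hp2 hpd => ?_⟩
  have hpZ := Nat.prime_iff_prime_int.1 hp
  have e2 : b * (D : ℤ) ^ 2 * ((a * D) ^ 2 - 4 * (b * (D : ℤ) ^ 2)) =
      (b * (a ^ 2 - 4 * b)) * (D : ℤ) ^ 4 := by ring
  rw [e2] at hpd
  by_cases hpD : p ∣ D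
  · have hpf : p ∈ D.primeFactors := Nat.mem_primeFactors.2 ⟨hp, hpD, hsf.ne_zero⟩
    rcases hP p hpf with h3 | h3
    · exact Or.inr h3
    · left
      refine inert_inv hp2 (Int.natCast_dvd_natCast.2 hpD) ?_
        (fun h => (hnd p hpf).2 (dvd_mul_of_dvd_left h _)) h3
      intro h4
      have h5 : p * p ∣ D := by
        have : p ^ 2 ∣ D := by exact_mod_cast h4
        rwa [pow_two] at this
      exact hp.one_lt.ne' (Nat.isUnit_iff.1 (hsf p h5))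
  · have hpD' : ¬ (p : ℤ) ∣ (D : ℤ) := fun h => hpD (Int.natCast_dvd_natCast.1 h)
    have h3 : (p : ℤ) ∣ b * (a ^ 2 - 4 * b) :=
      (hpZ.dvd_mul.1 hpd).resolve_right fun h => hpD' (hpZ.dvd_of_dvd_pow h)
    rcases hbad p hp hp2 h3 with h4 | h4
    · exact Or.inl (linv_twist (neutral_inv hb hc hp2 h4 h3) hpD')
    · exact Or.inr h4

/-- the tower primes of the twist by `D` -/
def TP (a b : ℤ) (D q : ℕ) : Prop :=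
  q.Prime ∧ q % 8 = 1 ∧ ¬ q ∣ D ∧ ¬ IsSquare (b : ZMod q) ∧
    ¬ IsSquare ((a ^ 2 - 4 * b : ℤ) : ZMod q) ∧
    (∀ p : ℕ, p.Prime → p ≠ 2 → (p : ℤ) ∣ b * (a ^ 2 - 4 * b) →
      Neutral a b p ∨ IsSquare (q : ZMod p)) ∧
    ∀ p ∈ D.primeFactors, IsSquare (q : ZMod p) ∨
      (¬ IsSquare (b : ZMod p) ∧ ¬ IsSquare ((a ^ 2 - 4 * b : ℤ) : ZMod p))

/-- a number without bad prime factors -/
def Dn (a b : ℤ) (D : ℕ) : Prop :=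
  Squarefree D ∧ ∀ p ∈ D.primeFactors, p ≠ 2 ∧ ¬ (p : ℤ) ∣ b * (a ^ 2 - 4 * b)

lemma dual_dvd {p : ℕ} (hp : p.Prime) (hp2 : p ≠ 2)
    (h : (p : ℤ) ∣ (a ^ 2 - 4 * b) * ((-2 * a) ^ 2 - 4 * (a ^ 2 - 4 * b))) :
    (p : ℤ) ∣ b * (a ^ 2 - 4 * b) := by
  have e2 : (a ^ 2 - 4 * b) * ((-2 * a) ^ 2 - 4 * (a ^ 2 - 4 * b)) =
      2 ^ 4 * (b * (a ^ 2 - 4 * b)) := by ring
  rw [e2] at h
  have hlZ := Nat.prime_iff_prime_int.1 hp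
  rcases hlZ.dvd_mul.1 h with h3 | h3
  · exfalso
    have h4 := hlZ.dvd_of_dvd_pow h3
    have h5 : p ∣ 2 := by exact_mod_cast h4
    exact hp2 ((Nat.prime_dvd_prime_iff_eq hp Nat.prime_two).1 h5)
  · exact h3

theorem tp_tq (hb : b ≠ 0) (hc : a ^ 2 - 4 * b ≠ 0) (hD : Dn a b D) {q : ℕ} (h : TP a b D q) :
    Tq (a * D) (b * (D : ℤ) ^ 2) q :=
  tq_core hb hc hD.1 hD.2 h.1 h.2.1 h.2.2.1 h.2.2.2.1 h.2.2.2.2.1 h.2.2.2.2.2.1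
    fun p hp => (h.2.2.2.2.2.2 p hp).imp id fun h => h.2

theorem tp_tq_dual (hb : b ≠ 0) (hc : a ^ 2 - 4 * b ≠ 0) (hD : Dn a b D) {q : ℕ}
    (h : TP a b D q) :
    Tq (-2 * a * D) ((a ^ 2 - 4 * b) * (D : ℤ) ^ 2) q := by
  haveI : Fact q.Prime := ⟨h.1⟩
  have e : (-2 * a) ^ 2 - 4 * (a ^ 2 - 4 * b) = 16 * b := by ring
  have hq2 : q ≠ 2 := by
    rintro rfl
    have := h.2.1
    omega
  refine tq_core (a := -2 * a) (b := a ^ 2 - 4 * b) hc (by rw [e]; exact mul_ne_zero (by norm_num) hb)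
    hD.1 (fun p hp => ⟨(hD.2 p hp).1, fun h1 => (hD.2 p hp).2
      (dual_dvd (Nat.prime_of_mem_primeFactors hp) (hD.2 p hp).1 h1)⟩) h.1 h.2.1 h.2.2.1
    h.2.2.2.2.1 (by rw [e]; exact sq16 hq2 h.2.2.2.1) (fun p hp hp2 hpd => ?_) fun p hp => ?_
  · exact (h.2.2.2.2.2.1 p hp hp2 (dual_dvd hp hp2 hpd)).imp (neutral_dual hp hp2 hb hc) id
  · haveI : Fact p.Prime := ⟨Nat.prime_of_mem_primeFactors hp⟩
    refine (h.2.2.2.2.2.2 p hp).imp id fun h1 => ?_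
    rw [e]
    exact sq16 (hD.2 p hp).1 h1.1

/-- the product of the numbers of classes for the curve and its dual -/
noncomputable def NN (a b : ℤ) : ℕ := (Sel a b).ncard * (Sel (-2 * a) (a ^ 2 - 4 * b)).ncard

/-- **the numbers of classes do not change in the tower** -/
theorem nn_tow (hb : b ≠ 0) (hc : a ^ 2 - 4 * b ≠ 0) (hD : Dn a b D) {U : Finset ℕ}
    (hU : ∀ q ∈ U, TP a b D q) {k : ℕ} (hk : k ≠ 0) :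
    NN (a * D * (((∏ q ∈ U, q) * k ^ 2 : ℕ) : ℤ))
      (b * (D : ℤ) ^ 2 * (((∏ q ∈ U, q) * k ^ 2 : ℕ) : ℤ) ^ 2) = NN (a * D) (b * (D : ℤ) ^ 2) := by
  have hDz : (D : ℤ) ≠ 0 := by exact_mod_cast hD.1.ne_zero
  have hkz : (k : ℤ) ≠ 0 := by exact_mod_cast hk
  have h1 := inv' (a := a * D) (b := b * (D : ℤ) ^ 2) (mul_ne_zero hb (pow_ne_zero 2 hDz))
    fun q hq => tp_tq hb hc hD (hU q hq)
  have h2 := inv' (a := -2 * a * D) (b := (a ^ 2 - 4 * b) * (D : ℤ) ^ 2)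
    (mul_ne_zero hc (pow_ne_zero 2 hDz)) fun q hq => tp_tq_dual hb hc hD (hU q hq)
  have h3 := sel_scale (a := a * D * ((∏ q ∈ U, q : ℕ) : ℤ))
    (b := b * (D : ℤ) ^ 2 * ((∏ q ∈ U, q : ℕ) : ℤ) ^ 2) hkz
  have h4 := sel_scale (a := -2 * a * D * ((∏ q ∈ U, q : ℕ) : ℤ))
    (b := (a ^ 2 - 4 * b) * (D : ℤ) ^ 2 * ((∏ q ∈ U, q : ℕ) : ℤ) ^ 2) hkz
  unfold NN
  rw [show a * D * (((∏ q ∈ U, q) * k ^ 2 : ℕ) : ℤ) =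
      a * D * ((∏ q ∈ U, q : ℕ) : ℤ) * (k : ℤ) ^ 2 by push_cast; ring,
    show b * (D : ℤ) ^ 2 * (((∏ q ∈ U, q) * k ^ 2 : ℕ) : ℤ) ^ 2 =
      b * (D : ℤ) ^ 2 * ((∏ q ∈ U, q : ℕ) : ℤ) ^ 2 * (k : ℤ) ^ 4 by push_cast; ring,
    h3, h1]
  congr 2
  rw [show -2 * (a * D * ((∏ q ∈ U, q : ℕ) : ℤ) * (k : ℤ) ^ 2) =
      -2 * a * D * ((∏ q ∈ U, q : ℕ) : ℤ) * (k : ℤ) ^ 2 by ring,
    show (a * D * ((∏ q ∈ U, q : ℕ) : ℤ) * (k : ℤ) ^ 2) ^ 2 -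
      4 * (b * (D : ℤ) ^ 2 * ((∏ q ∈ U, q : ℕ) : ℤ) ^ 2 * (k : ℤ) ^ 4) =
      (a ^ 2 - 4 * b) * (D : ℤ) ^ 2 * ((∏ q ∈ U, q : ℕ) : ℤ) ^ 2 * (k : ℤ) ^ 4 by ring,
    h4, h2]
  congr 1
  · ring
  · ring

/-- rank and `Ш[2]` of all the twists in the tower -/
theorem tow_bound (hb : b ≠ 0) (hc : a ^ 2 - 4 * b ≠ 0) (hD : Dn a b D) {U : Finset ℕ}
    (hU : ∀ q ∈ U, TP a b D q) {k : ℕ} (hk : k ≠ 0) :
    Finite {x : Pool.Agent.TH841.NF.D.Sha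
      (gc (a * D * (((∏ q ∈ U, q) * k ^ 2 : ℕ) : ℤ))
        (b * (D : ℤ) ^ 2 * (((∏ q ∈ U, q) * k ^ 2 : ℕ) : ℤ) ^ 2) ℚ) // 2 • x = 0} ∧
    4 * 2 ^ Rg a b ℚ (D * (((∏ q ∈ U, q) * k ^ 2 : ℕ) : ℤ)) *
      Nat.card {x : Pool.Agent.TH841.NF.D.Sha
        (gc (a * D * (((∏ q ∈ U, q) * k ^ 2 : ℕ) : ℤ))
          (b * (D : ℤ) ^ 2 * (((∏ q ∈ U, q) * k ^ 2 : ℕ) : ℤ) ^ 2) ℚ) // 2 • x = 0} ≤
      NN (a * D) (b * (D : ℤ) ^ 2) := by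
  have hDz : (D : ℤ) ≠ 0 := by exact_mod_cast hD.1.ne_zero
  have hM : (((∏ q ∈ U, q) * k ^ 2 : ℕ) : ℤ) ≠ 0 := by
    have : (∏ q ∈ U, q) * k ^ 2 ≠ 0 :=
      mul_ne_zero (Finset.prod_ne_zero_iff.2 fun q hq => (hU q hq).1.ne_zero) (pow_ne_zero 2 hk)
    exact_mod_cast this
  have h1 := g_ne hb hc (mul_ne_zero hDz hM)
  set M : ℤ := (((∏ q ∈ U, q) * k ^ 2 : ℕ) : ℤ) with hMd
  have e1 : a * (D * M) = a * D * M := by ring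
  have e2 : b * (D * M) ^ 2 = b * (D : ℤ) ^ 2 * M ^ 2 := by ring
  rw [e1, e2] at h1
  have h2 := bound (a := a * D * M) (b := b * (D : ℤ) ^ 2 * M ^ 2) h1.1 h1.2
  have h3 := nn_tow hb hc hD hU hk
  rw [← hMd] at h3
  have e3 : Rg a b ℚ (D * M) = Module.finrank ℤ (MP (wc ((a * D * M : ℤ) : ℚ)
      ((b * (D : ℤ) ^ 2 * M ^ 2 : ℤ) : ℚ))) := by
    unfold Rg
    rw [e1, e2]
    rfl
  rw [← h3, e3]
  exact h2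

end

end Pool.Agent.U80.GT
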