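import Pool.Agent.U80.NP.Grp
import Pool.Agent.U80.NP.Loc2
import Pool.Agent.U80.GT.Tow

/-!
# An example: `y² = x³ + 7 x² + 7 x`
-/

set_option autoImplicit false

namespace Pool.Agent.U80.GT

open Pool.Agent.U80.NP
open Pool.Agent.Y695 (LocA)

local instance fact7 : Fact (Nat.Prime 7) := ⟨by norm_num⟩

lemma odd7 {u : ℤ} (hu : ¬ (7 : ℤ) ∣ u) : ¬ IsSquare (((7 * u : ℤ)) : ℚ_[7]) := by
  rintro ⟨r, hr⟩
  have hu' : ¬ ((7 : ℕ) : ℤ) ∣ u := hu
  obtain ⟨h1, h2⟩ := val_one_of (norm_int hu')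
  have h3 : (((7 * u : ℤ)) : ℚ_[7]) = ((7 : ℕ) : ℚ_[7]) * (u : ℚ_[7]) := by push_cast; rfl
  have h7 : ((7 : ℕ) : ℚ_[7]) ≠ 0 := by exact_mod_cast (by norm_num : (7 : ℕ) ≠ 0)
  have hr0 : r ≠ 0 := by
    rintro rfl
    rw [mul_zero, h3] at hr
    exact (mul_ne_zero h7 h1) hr
  have h4 := congrArg Padic.valuation hr
  rw [h3, Padic.valuation_mul h7 h1, h2, Padic.valuation_mul hr0 hr0, Padic.valuation_p] at h4
  omega

lemma nsq7 {u : ℤ} (hu : ¬ (7 : ℤ) ∣ u) (h : ¬ IsSquare (u : ZMod 7)) :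
    ¬ IsSquare ((u : ℤ) : ℚ_[7]) := by
  have hu' : ¬ ((7 : ℕ) : ℤ) ∣ u := hu
  rw [sq_int (by norm_num) hu']
  exact h

lemma nsq49 {u : ℤ} (hu : ¬ (7 : ℤ) ∣ u) (h : ¬ IsSquare (u : ZMod 7)) :
    ¬ IsSquare (((49 * u : ℤ)) : ℚ_[7]) := by
  rintro ⟨r, hr⟩
  apply nsq7 hu h
  refine ⟨r / 7, ?_⟩
  push_cast at hr
  field_simp
  linear_combination hr

lemma dvd7 {d : ℤ} (h : d ∣ 7) : d = 1 ∨ d = -1 ∨ d = 7 ∨ d = -7 := by
  have h1 := Int.le_of_dvd (by norm_num) h
  have h2 : -7 ≤ d := by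
    have := Int.le_of_dvd (by norm_num) ((neg_dvd).2 h)
    omega
  interval_cases d <;> revert h <;> decide

lemma dvd21 {d : ℤ} (h : d ∣ 21) : d = 1 ∨ d = 3 ∨ d = 7 ∨ d = 21 ∨ d < 0 := by
  have h1 := Int.le_of_dvd (by norm_num) h
  by_cases h0 : d < 0
  · exact Or.inr (Or.inr (Or.inr (Or.inr h0)))
  · have h2 : 0 ≤ d := not_lt.1 h0
    interval_cases d <;> revert h <;> decide

lemma sel77 : Sel 7 7 = {1, 7} := by
  ext d
  constructor
  · intro h
    have h1 := n1 (p := 7) (by norm_num) (a := 7) (b := 7) (by norm_num) (by norm_num)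
      (by norm_num) (by
        have := h.2.2 7
        push_cast at this ⊢
        exact this : LocA ℚ_[7] ((7 : ℤ) : ℚ_[7]) ((7 : ℤ) : ℚ_[7]) (d : ℚ_[7]))
    rw [← Int.cast_mul] at h1
    rcases dvd7 (sel_dvd h) with rfl | rfl | rfl | rfl
    · exact Or.inl rfl
    · exfalso
      rcases h1 with h1 | h1
      · exact nsq7 (by norm_num) (by decide) h1
      · exact odd7 (u := -1) (by norm_num) h1
    · exact Or.inr rfl
    · exfalso
      rcases h1 with h1 | h1
      · exact odd7 (u := -1) (by norm_num) (by norm_num at h1 ⊢; exact h1)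
      · exact nsq49 (u := -1) (by norm_num) (by decide) (by norm_num at h1 ⊢; exact h1)
  · rintro (rfl | rfl)
    · exact one_mem _ _
    · refine ⟨(by norm_num : Prime (7 : ℤ)).squarefree, ?_, fun p _ => ?_⟩
      · exact Or.inr (Or.inl ⟨7, by norm_num⟩)
      · exact Or.inr (Or.inl ⟨7, by push_cast; ring⟩)

lemma sel1421 : Sel (-14) 21 = {1, 21} := by
  ext d
  constructor
  · intro h
    have h1 := n1 (p := 7) (by norm_num) (a := -14) (b := 21) (by norm_num) (by norm_num)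
      (by norm_num) (by
        have := h.2.2 7
        push_cast at this ⊢
        exact this : LocA ℚ_[7] ((-14 : ℤ) : ℚ_[7]) ((21 : ℤ) : ℚ_[7]) (d : ℚ_[7]))
    rw [← Int.cast_mul] at h1
    rcases dvd21 (sel_dvd h) with rfl | rfl | rfl | rfl | hneg
    · exact Or.inl rfl
    · exfalso
      rcases h1 with h1 | h1
      · exact nsq7 (by norm_num) (by decide) h1
      · exact odd7 (u := 9) (by norm_num) (by norm_num at h1 ⊢; exact h1)
    · exfalso
      rcases h1 with h1 | h1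
      · exact odd7 (u := 1) (by norm_num) (by norm_num at h1 ⊢; exact h1)
      · exact nsq49 (u := 3) (by norm_num) (by decide) (by norm_num at h1 ⊢; exact h1)
    · exact Or.inr rfl
    · exfalso
      have hd : (d : ℝ) < 0 := by exact_mod_cast hneg
      rcases h.2.1 with ⟨r, hr⟩ | ⟨r, hr⟩ | ⟨X, Y, hX, hY, r, hr⟩
      · nlinarith [mul_self_nonneg r]
      · push_cast at hr
        nlinarith [mul_self_nonneg r]
      · have hXn : X < 0 := by
          have h3 : 0 ≤ X * d := by rw [hr]; exact mul_self_nonneg r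
          rcases lt_or_gt_of_ne hX with h4 | h4
          · exact h4
          · nlinarith
        push_cast at hY
        have h3 : 0 < X ^ 2 + -14 * X + 21 := by nlinarith
        nlinarith [sq_nonneg Y]
  · rintro (rfl | rfl)
    · exact one_mem _ _
    · refine ⟨?_, ?_, fun p _ => ?_⟩
      · have h3 : Squarefree (21 : ℕ) := by decide +kernel
        exact_mod_cast Int.squarefree_natCast.2 h3
      · exact Or.inr (Or.inl ⟨21, by norm_num⟩)
      · exact Or.inr (Or.inl ⟨21, by push_cast; ring⟩)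

/-- the Selmer groups of the example are minimal -/
theorem nn77 : NN 7 7 = 4 := by
  unfold NN
  have e : Sel (-2 * 7) (7 ^ 2 - 4 * 7) = Sel (-14) 21 := by norm_num
  rw [e, sel77, sel1421, Set.ncard_pair (by norm_num), Set.ncard_pair (by norm_num)]

end Pool.Agent.U80.GT
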