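import Pool.Agent.U80.MQ.ShaM
import Pool.Agent.Y682.KG

/-!
# The 2-primary part of `Ш` over the multiquadratic fields, for every curve with a point of order two
-/

set_option autoImplicit false

attribute [-instance] DivisionRing.toRatAlgebra

open WeierstrassCurve

open scoped Classical

namespace Pool.Agent.U80.GT

open Pool.Agent.TH841.NF (Sc thS thS_ker)
open Pool.Agent.Y682 (gc)
open Pool.Agent.U80.MQ (sh_of_nf no_two_pow prod_two)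

theorem sha_Kg {P : Finset ℕ} (hP : ∀ q ∈ P, q ≠ 0) (A B : ℤ)
    (h : ∀ T, T ⊆ P → ∀ k : ℕ, k ≠ 0 → ∀ x : Pool.Agent.TH841.NF.D.Sha
      (gc (A * (((∏ q ∈ T, q) * k ^ 2 : ℕ) : ℤ)) (B * (((∏ q ∈ T, q) * k ^ 2 : ℕ) : ℤ) ^ 2) ℚ),
      2 • x = 0 → x = 0)
    (n : ℕ) (S : Fin n → Finset ℕ) (hS : ∀ i, S i ⊆ P)
    (K : Type) [Field K] [NumberField K] [Algebra ℚ K] (r : Fin n → K)
    (hr : ∀ i, r i ^ 2 = ((∏ q ∈ S i, q : ℕ) : K))
    (hgen : IntermediateField.adjoin ℚ (Set.range r) = ⊤) (W : WeierstrassCurve K)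
    (hW : Sc (algebraMap ℚ K) 1 (gc A B ℚ) W) (k : ℕ)
    (x : Pool.Agent.TH841.NF.D.Sha W) (hx : (2 ^ k : ℕ) • x = 0) : (2 ^ n : ℕ) • x = 0 := by
  obtain ⟨e⟩ := Pool.Agent.Y682.exists_e K
  have hd : ∀ i, (((∏ q ∈ S i, q : ℕ) : ℕ) : ℚ) ≠ 0 := by
    intro i
    exact_mod_cast Finset.prod_ne_zero_iff.2 fun q hq => hP q (hS i hq)
  have hr' : ∀ i, r i ^ 2 = algebraMap ℚ K (((∏ q ∈ S i, q : ℕ) : ℕ) : ℚ) := by
    intro i
    rw [hr i, map_natCast]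
  refine thS_ker hW rfl rfl e hr' hd hgen x fun T => ?_
  obtain ⟨U, l, hU, hl, hUl⟩ := prod_two hP S hS T
  have h1 : ∀ x : Pool.Agent.TH841.NF.D.Sha (Pool.Agent.TH841.NF.tw
      (∏ i ∈ T, (((∏ q ∈ S i, q : ℕ) : ℕ) : ℚ)) (gc A B ℚ)), 2 • x = 0 → x = 0 := by
    have e1 : Pool.Agent.TH841.NF.tw (∏ i ∈ T, (((∏ q ∈ S i, q : ℕ) : ℕ) : ℚ)) (gc A B ℚ) =
        gc (A * (((∏ q ∈ U, q) * l ^ 2 : ℕ) : ℤ)) (B * (((∏ q ∈ U, q) * l ^ 2 : ℕ) : ℤ) ^ 2) ℚ := by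
      have e3 : (∏ i ∈ T, (((∏ q ∈ S i, q : ℕ) : ℕ) : ℚ)) = (((∏ q ∈ U, q) * l ^ 2 : ℕ) : ℚ) := by
        rw [← hUl, Nat.cast_prod]
      rw [e3]
      unfold Pool.Agent.TH841.NF.tw gc
      ext
      · rfl
      · simp only
        push_cast
        ring
      · rfl
      · simp only
        push_cast
        ring
      · simp only
        ring
    rw [e1]
    exact h U hU l hl
  exact no_two_pow (sh_of_nf h1) k _ (by rw [← map_nsmul, hx, map_zero])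

end Pool.Agent.U80.GT
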