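import Pool.Agent.U80.GT.ShaF
import Pool.Agent.U80.GT.Sha
import Pool.Agent.U80.GT.Tow
import Pool.Agent.U80.MQ.Inf
import Pool.Agent.U80.NP.Dir

/-!
# All the number fields in the tower
-/

set_option autoImplicit false

open NumberField

namespace Pool.Agent.U80.GT

open Pool.Agent.Y682 (gc wc MP)
open Pool.Agent.U80.NP
open Pool.Agent.U80.MQ (Om exists_gens sqrt_prop)

section

variable {a b : ℤ} {D : ℕ}

/-- the field generated by the square roots of the tower primes -/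
noncomputable def TF (a b : ℤ) (D : ℕ) : IntermediateField ℚ ℂ :=
  IntermediateField.adjoin ℚ {z : ℂ | ∃ q : ℕ, TP a b D q ∧ z ^ 2 = (q : ℂ)}

/-- a number field inside the tower -/
theorem sub_TF (K : IntermediateField ℚ ℂ) [FiniteDimensional ℚ K] (hK : K ≤ TF a b D) :
    ∃ P : Finset ℕ, (∀ q ∈ P, TP a b D q) ∧ K ≤ Om P := by
  classical
  obtain ⟨Z0, h1, h2⟩ := Pool.Agent.Y18.NF.finite_gen K _ hK
  have h3 : ∀ z : ℂ, ∃ q : ℕ, z ∈ Z0 → TP a b D q ∧ z ^ 2 = (q : ℂ) := by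
    intro z
    by_cases hz : z ∈ Z0
    · obtain ⟨q, hq⟩ := h1 hz
      exact ⟨q, fun _ => hq⟩
    · exact ⟨0, fun h => absurd h hz⟩
  choose q hq using h3
  refine ⟨Z0.image q, fun r hr => ?_, h2.trans ?_⟩
  · obtain ⟨z, hz, rfl⟩ := Finset.mem_image.1 hr
    exact (hq z hz).1
  · unfold Om
    refine IntermediateField.adjoin.mono ℚ _ _ fun z hz => ?_
    exact ⟨q z, Finset.mem_image_of_mem q hz, (hq z hz).2⟩

/-- the tower is infinite -/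
theorem TF_inf (hinf : {q : ℕ | TP a b D q}.Infinite) : ¬ FiniteDimensional ℚ (TF a b D) := by
  intro hfd
  let x : {q : ℕ // TP a b D q} → ℂ := fun q => ((Real.sqrt q.1 : ℝ) : ℂ)
  have hx : ∀ q, x q * x q = algebraMap ℚ ℂ (q.1 : ℚ) := by
    intro q
    show ((Real.sqrt q.1 : ℝ) : ℂ) * ((Real.sqrt q.1 : ℝ) : ℂ) = _
    rw [← Complex.ofReal_mul, Real.mul_self_sqrt (Nat.cast_nonneg _)]
    simp
  have hli : LinearIndependent ℚ x := by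
    refine Pool.Agent.N770.linearIndependent_sqrt two_ne_zero x (fun q => ⟨_, hx q⟩) (fun q h0 => ?_)
      (fun p q hpq a => sqrt_prop p.2.1 q.2.1 (fun h => hpq (Subtype.ext h)) a)
    have h1 := hx q
    rw [h0, zero_mul] at h1
    have h2 : (algebraMap ℚ ℂ (q.1 : ℚ)) = ((q.1 : ℕ) : ℂ) := by simp
    rw [h2] at h1
    exact q.2.1.ne_zero (by exact_mod_cast h1.symm)
  have hmem : ∀ q, x q ∈ TF a b D := by
    intro q
    refine IntermediateField.subset_adjoin ℚ _ ⟨q.1, q.2, ?_⟩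
    rw [sq, hx]
    simp
  let y : {q : ℕ // TP a b D q} → TF a b D := fun q => ⟨x q, hmem q⟩
  have hy : LinearIndependent ℚ y := by
    refine LinearIndependent.of_comp (TF a b D).val.toLinearMap ?_
    exact hli
  have hfin : Finite {q : ℕ // TP a b D q} := hy.finite
  exact hinf (Set.finite_coe_iff.1 hfin)

/-- the tower primes of the twisted curve -/
lemma tw_tp (hD : Dn a b D) {q : ℕ} (h : Tw (a * D) (b * (D : ℤ) ^ 2) q) : TP a b D q := by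
  obtain ⟨hq, h8, h1, h2, h3⟩ := h
  haveI : Fact q.Prime := ⟨hq⟩
  have e : (a * D) ^ 2 - 4 * (b * (D : ℤ) ^ 2) = (a ^ 2 - 4 * b) * (D : ℤ) ^ 2 := by ring
  rw [e] at h2 h3
  have key : ∀ n : ℤ, IsSquare (n : ZMod q) → IsSquare ((n * (D : ℤ) ^ 2 : ℤ) : ZMod q) := by
    rintro n ⟨r, hr⟩
    exact ⟨r * ((D : ℤ) : ZMod q), by push_cast; push_cast at hr; rw [hr]; ring⟩
  have hqD : ¬ q ∣ D := by
    intro h
    apply h1
    have h4 : ((D : ℤ) : ZMod q) = 0 := by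
      rw [Int.cast_natCast]
      exact (ZMod.natCast_eq_zero_iff _ _).2 h
    rw [Int.cast_mul, Int.cast_pow, h4]
    exact ⟨0, by ring⟩
  refine ⟨hq, h8, hqD, fun h => h1 (key b h), fun h => h2 (key _ h), fun p hp hp2 hpd => ?_,
    fun p hp => ?_⟩
  · have hpD : ¬ p ∣ D := fun h =>
      (hD.2 p (Nat.mem_primeFactors.2 ⟨hp, h, hD.1.ne_zero⟩)).2 hpd
    have hpD' : ¬ (p : ℤ) ∣ (D : ℤ) := fun h => hpD (Int.natCast_dvd_natCast.1 h)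
    have hpZ := Nat.prime_iff_prime_int.1 hp
    haveI : Fact p.Prime := ⟨hp⟩
    refine (h3 p hp hp2 (by
      have e2 : b * (D : ℤ) ^ 2 * ((a ^ 2 - 4 * b) * (D : ℤ) ^ 2) =
        (b * (a ^ 2 - 4 * b)) * (D : ℤ) ^ 4 := by ring
      rw [e2]
      exact dvd_mul_of_dvd_left hpd _)).imp ?_ id
    have ha : (p : ℤ) ∣ a * D ↔ (p : ℤ) ∣ a :=
      ⟨fun h => (hpZ.dvd_mul.1 h).resolve_right hpD', fun h => dvd_mul_of_dvd_left h _⟩
    rintro (⟨h4, h5, h6⟩ | ⟨h4, h5⟩)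
    · left
      refine ⟨ha.1 h4, (hpZ.dvd_mul.1 h5).resolve_right fun h => hpD' (hpZ.dvd_of_dvd_pow h),
        fun h => h6 (dvd_mul_of_dvd_left h _)⟩
    · right
      refine ⟨fun h => h4 (ha.2 h), ?_⟩
      rw [e] at h5
      have e2 : b * (D : ℤ) ^ 2 * ((a ^ 2 - 4 * b) * (D : ℤ) ^ 2) =
        (b * (a ^ 2 - 4 * b)) * ((D : ℤ) ^ 2 * (D : ℤ) ^ 2) := by ring
      rw [e2] at h5
      by_cases h0 : b * (a ^ 2 - 4 * b) = 0
      · rw [h0, zero_mul] at h5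
        rw [h0]
        exact h5
      · have hDz : (D : ℤ) ≠ 0 := by exact_mod_cast hD.1.ne_zero
        rw [padicValInt.mul h0 (mul_ne_zero (pow_ne_zero 2 hDz) (pow_ne_zero 2 hDz)),
          padicValInt.eq_zero_of_not_dvd (fun h => (hpZ.dvd_mul.1 h).elim
            (fun h => hpD' (hpZ.dvd_of_dvd_pow h)) fun h => hpD' (hpZ.dvd_of_dvd_pow h)),
          add_zero] at h5
        exact h5
  · left
    have hpp := Nat.prime_of_mem_primeFactors hp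
    have hpD := Nat.dvd_of_mem_primeFactors hp
    have hpZ := Nat.prime_iff_prime_int.1 hpp
    refine (h3 p hpp (hD.2 p hp).1 ?_).resolve_left ?_
    · refine dvd_mul_of_dvd_left (dvd_mul_of_dvd_right ?_ _) _
      exact dvd_pow (Int.natCast_dvd_natCast.2 hpD) two_ne_zero
    · rintro (⟨-, -, h6⟩ | ⟨h4, -⟩)
      · apply h6
        exact dvd_mul_of_dvd_right (pow_dvd_pow_of_dvd (Int.natCast_dvd_natCast.2 hpD) 2) _
      · exact h4 (dvd_mul_of_dvd_right (Int.natCast_dvd_natCast.2 hpD) _)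

/-- **the criterion**: infinitely many tower primes -/
theorem tp_inf (hb : b ≠ 0) (hc : a ^ 2 - 4 * b ≠ 0) (hD : Dn a b D)
    (h : (∃ p : ℕ, p.Prime ∧ p ≠ 2 ∧ (p : ℤ) ∣ a ∧ (p : ℤ) ∣ b ∧ ¬ (p : ℤ) ^ 2 ∣ b) ∨
      ((∃ p : ℕ, p.Prime ∧ p ≠ 2 ∧ ¬ (p : ℤ) ∣ a ∧ Odd (padicValInt p b)) ∧
        ∃ p : ℕ, p.Prime ∧ p ≠ 2 ∧ ¬ (p : ℤ) ∣ a ∧ Odd (padicValInt p (a ^ 2 - 4 * b)))) :
    {q : ℕ | TP a b D q}.Infinite := by
  have hDz : (D : ℤ) ≠ 0 := by exact_mod_cast hD.1.ne_zero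
  have h2 : (D : ℤ) ^ 2 ≠ 0 := pow_ne_zero 2 hDz
  have e : (a * D) ^ 2 - 4 * (b * (D : ℤ) ^ 2) = (a ^ 2 - 4 * b) * (D : ℤ) ^ 2 := by ring
  have hb' : b * (D : ℤ) ^ 2 ≠ 0 := mul_ne_zero hb h2
  have hc' : (a * D) ^ 2 - 4 * (b * (D : ℤ) ^ 2) ≠ 0 := by
    rw [e]
    exact mul_ne_zero hc h2
  have hnd : ∀ p : ℕ, p.Prime → (p : ℤ) ∣ b * (a ^ 2 - 4 * b) → ¬ (p : ℤ) ∣ (D : ℤ) := by
    intro p hp hpd h3
    exact (hD.2 p (Nat.mem_primeFactors.2 ⟨hp, Int.natCast_dvd_natCast.1 h3, hD.1.ne_zero⟩)).2 hpd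
  have hodd : ∀ {p : ℕ} {n : ℤ}, Odd (padicValInt p n) → (p : ℤ) ∣ n := by
    intro p n hpo
    by_contra hcon
    rw [padicValInt.eq_zero_of_not_dvd hcon] at hpo
    exact absurd hpo (by decide)
  have hval : ∀ {p : ℕ} {n : ℤ}, p.Prime → n ≠ 0 → ¬ (p : ℤ) ∣ (D : ℤ) →
      padicValInt p (n * (D : ℤ) ^ 2) = padicValInt p n := by
    intro p n hp hn h3
    haveI : Fact p.Prime := ⟨hp⟩
    have hpZ := Nat.prime_iff_prime_int.1 hp
    rw [padicValInt.mul hn h2, padicValInt.eq_zero_of_not_dvd (fun h => h3 (hpZ.dvd_of_dvd_pow h)),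
      add_zero]
  have hna : ∀ {p : ℕ}, p.Prime → ¬ (p : ℤ) ∣ (D : ℤ) → ¬ (p : ℤ) ∣ a → ¬ (p : ℤ) ∣ a * D := by
    intro p hp h3 h4 h5
    exact ((Nat.prime_iff_prime_int.1 hp).dvd_mul.1 h5).elim h4 h3
  have hmain : {q : ℕ | Tw (a * D) (b * (D : ℤ) ^ 2) q}.Infinite := by
    rcases h with ⟨p, hp, hp2, hpa, hpb, hpb2⟩ | ⟨⟨p, hp, hp2, hpa, hpo⟩, p', hp', hp2', hpa', hpo'⟩
    · have h3 := hnd p hp (dvd_mul_of_dvd_left hpb _)
      have hpZ := Nat.prime_iff_prime_int.1 hp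
      refine inf_one hb' hc' (p := p) ⟨hp, hp2, dvd_mul_of_dvd_left hpa _, dvd_mul_of_dvd_left hpb _,
        fun h4 => hpb2 ?_⟩
      exact IsCoprime.dvd_of_dvd_mul_right (IsCoprime.pow
        ((Prime.coprime_iff_not_dvd hpZ).2 h3)) h4
    · have h3 := hnd p hp (dvd_mul_of_dvd_left (hodd hpo) _)
      have h4 := hnd p' hp' (dvd_mul_of_dvd_right (hodd hpo') _)
      refine inf_two hb' hc' (p₁ := p) (p₂ := p') ⟨hp, hp2, hna hp h3 hpa, ?_⟩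
        ⟨hp', hp2', hna hp' h4 hpa', ?_⟩
      · rw [hval hp hb h3]
        exact hpo
      · rw [e, hval hp' hc h4]
        exact hpo'
  exact hmain.mono fun q hq => tw_tp hD hq

/-- **the rank over all the number fields in the tower** -/
theorem all_rank (hb : b ≠ 0) (hc : a ^ 2 - 4 * b ≠ 0) (hD : Dn a b D) {s : ℕ}
    (hs : NN (a * D) (b * (D : ℤ) ^ 2) = 4 * 2 ^ s) {P : Finset ℕ} (hP : ∀ q ∈ P, TP a b D q)
    (K : IntermediateField ℚ ℂ) [NumberField K] (hK : K ≤ Om P) :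
    Rg a b K D ≤ Module.finrank ℚ K * s := by
  refine Rg_K hb hc (fun q hq => (hP q hq).1.ne_zero) K hK (by exact_mod_cast hD.1.ne_zero)
    fun T hT => ?_
  obtain ⟨h1, h2⟩ := tow_bound hb hc hD (U := T) (fun q hq => hP q (hT hq)) (k := 1) one_ne_zero
  rw [hs] at h2
  have h3 : 1 ≤ Nat.card {x : Pool.Agent.TH841.NF.D.Sha
      (gc (a * D * (((∏ q ∈ T, q) * 1 ^ 2 : ℕ) : ℤ))
        (b * (D : ℤ) ^ 2 * (((∏ q ∈ T, q) * 1 ^ 2 : ℕ) : ℤ) ^ 2) ℚ) // 2 • x = 0} :=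
    Nat.card_pos_iff.2 ⟨⟨⟨0, smul_zero _⟩⟩, h1⟩
  have h4 : 4 * 2 ^ Rg a b ℚ (D * (((∏ q ∈ T, q) * 1 ^ 2 : ℕ) : ℤ)) ≤ 4 * 2 ^ s :=
    (Nat.le_mul_of_pos_right _ h3).trans h2
  rw [one_pow, mul_one] at h4
  exact (Nat.pow_le_pow_iff_right (by norm_num)).1 (Nat.le_of_mul_le_mul_left h4 (by norm_num))

/-- **the 2-primary part of `Ш` over all the number fields in the tower** -/
theorem all_sha (hb : b ≠ 0) (hc : a ^ 2 - 4 * b ≠ 0) (hD : Dn a b D)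
    (hs : NN (a * D) (b * (D : ℤ) ^ 2) = 4) {P : Finset ℕ} (hP : ∀ q ∈ P, TP a b D q)
    (K : IntermediateField ℚ ℂ) [hN : NumberField K] (hK : K ≤ Om P) :
    ∃ n : ℕ, Module.finrank ℚ K = 2 ^ n ∧
      ∀ (k : ℕ) (x : Pool.Agent.TH841.NF.D.Sha (gc (a * D) (b * (D : ℤ) ^ 2) K)),
        (2 ^ k : ℕ) • x = 0 → (2 ^ n : ℕ) • x = 0 := by
  obtain ⟨n, S, r, hS, -, hr, hgen, hdeg⟩ := exists_gens K hK
  refine ⟨n, hdeg, fun k x hx => ?_⟩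
  refine @sha_Kg P (fun q hq => (hP q hq).1.ne_zero) (a * D) (b * (D : ℤ) ^ 2)
    (fun T hT l hl y hy => ?_) n S hS K _ hN _ r hr hgen (gc (a * D) (b * (D : ℤ) ^ 2) K) (by
      refine ⟨one_ne_zero, ?_, ?_, ?_, ?_, ?_⟩ <;> simp [gc]) k x hx
  obtain ⟨h1, h2⟩ := tow_bound hb hc hD (U := T) (fun q hq => hP q (hT hq)) (k := l) hl
  rw [hs] at h2
  have h3 : 1 ≤ 2 ^ Rg a b ℚ (D * (((∏ q ∈ T, q) * l ^ 2 : ℕ) : ℤ)) := Nat.one_le_two_pow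
  have h4 : Nat.card {x : Pool.Agent.TH841.NF.D.Sha
      (gc (a * D * (((∏ q ∈ T, q) * l ^ 2 : ℕ) : ℤ))
        (b * (D : ℤ) ^ 2 * (((∏ q ∈ T, q) * l ^ 2 : ℕ) : ℤ) ^ 2) ℚ) // 2 • x = 0} ≤ 1 := by
    by_contra hne
    have h5 : 2 ≤ Nat.card {x : Pool.Agent.TH841.NF.D.Sha
      (gc (a * D * (((∏ q ∈ T, q) * l ^ 2 : ℕ) : ℤ))
        (b * (D : ℤ) ^ 2 * (((∏ q ∈ T, q) * l ^ 2 : ℕ) : ℤ) ^ 2) ℚ) // 2 • x = 0} := by omega
    have h6 := Nat.mul_le_mul (Nat.mul_le_mul_left 4 h3) h5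
    omega
  have h5 : Subsingleton {x : Pool.Agent.TH841.NF.D.Sha
      (gc (a * D * (((∏ q ∈ T, q) * l ^ 2 : ℕ) : ℤ))
        (b * (D : ℤ) ^ 2 * (((∏ q ∈ T, q) * l ^ 2 : ℕ) : ℤ) ^ 2) ℚ) // 2 • x = 0} :=
    Finite.card_le_one_iff_subsingleton.1 h4
  exact congrArg Subtype.val (h5.elim ⟨y, hy⟩ ⟨0, smul_zero _⟩)

end

end Pool.Agent.U80.GT
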