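import Pool.Agent.U80.GT.Cfg

/-!
# The Selmer groups of both isogenies for the twists of the class
-/

set_option autoImplicit false

namespace Pool.Agent.U80.GT

open Finset
open scoped NumberTheorySymbols
open Pool.Agent.Y695 (LocA)
open Pool.Agent.U80.NP
open Pool.Agent.Y703.CQ (nr)
open Pool.Agent.U115.GD (Cfg Hc Sol Gd cu Sp In Cl Ok)

section

variable {a b : ℤ} {S : Finset ℕ}

/-- a root modulo `p` -/
noncomputable def rt (a b : ℤ) (p : ℕ) : ZMod p := by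
  classical
  exact if h : ∃ z : ZMod p, z ^ 2 + (a : ZMod p) * z + (b : ZMod p) = 0 then h.choose else 0

lemma rt_spec {p : ℕ} (h : ∃ z : ZMod p, z ^ 2 + (a : ZMod p) * z + (b : ZMod p) = 0) :
    (rt a b p) ^ 2 + (a : ZMod p) * rt a b p + (b : ZMod p) = 0 := by
  unfold rt
  rw [dif_pos h]
  exact h.choose_spec

lemma two_ne {p : ℕ} [hp : Fact p.Prime] (h2 : p ≠ 2) : (2 : ZMod p) ≠ 0 := by
  intro h
  have h1 : ((2 : ℕ) : ZMod p) = 0 := by exact_mod_cast h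
  exact cast_ne Nat.prime_two h2.symm h1

lemma Hy.root {T : ℕ → Prop} (H : Hy a b T S) {p : ℕ} (hp : p ∈ S) (hT : T p) :
    (rt a b p) ^ 2 + (a : ZMod p) * rt a b p + (b : ZMod p) = 0 := by
  haveI : Fact p.Prime := ⟨H.pr p hp⟩
  apply rt_spec
  have h2 := (H.nd p hp).1
  have h20 := two_ne (p := p) h2
  obtain ⟨g, hg⟩ := H.sq p hp hT (a ^ 2 - 4 * b) H.hc fun q _ h =>
    Or.inr (dvd_mul_of_dvd_right h _)
  push_cast at hg
  refine ⟨(-a + g) / 2, ?_⟩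
  field_simp
  linear_combination -hg

lemma Hy.root_ne {T : ℕ → Prop} (H : Hy a b T S) {p : ℕ} (hp : p ∈ S) (hT : T p) : rt a b p ≠ 0 := by
  haveI : Fact p.Prime := ⟨H.pr p hp⟩
  intro h
  have h1 := H.root hp hT
  rw [h] at h1
  have h3 : (b : ZMod p) = 0 := by linear_combination h1
  exact (H.nd p hp).2 (dvd_mul_of_dvd_left ((ZMod.intCast_zmod_eq_zero_iff_dvd _ _).1 h3) _)

/-- the diagonal of the matrix -/
noncomputable def fd (a b : ℤ) (p : ℕ) : ZMod 2 := nz (rt a b p)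

/-- the split primes in the support of `x` -/
noncomputable def supp (T : ℕ → Prop) (S : Finset ℕ) (x : ℕ → ZMod 2) : Finset ℕ := by
  classical
  exact S.filter fun p => T p ∧ x p ≠ 0

lemma mem_supp {T : ℕ → Prop} {x : ℕ → ZMod 2} {p : ℕ} :
    p ∈ supp T S x ↔ p ∈ S ∧ T p ∧ x p ≠ 0 := by
  classical
  unfold supp
  rw [Finset.mem_filter]

lemma z2 : ∀ z : ZMod 2, z ≠ 0 → z = 1 := by decide

/-- solutions and sets in the kernel -/
theorem sol_iff {G : Cfg} (H : Hy a b (Hc G) S) {f : ℕ → ZMod 2} {ρ : ∀ p : ℕ, ZMod p}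
    (hρ : ∀ p ∈ S, Hc G p → ρ p ≠ 0) (hf : ∀ p ∈ S, Hc G p → f p = nz (ρ p)) (x : ℕ → ZMod 2) :
    Sol G f S x ↔ Kr (Hc G) S ρ (supp (Hc G) S x) := by
  classical
  have hsub : supp (Hc G) S x ⊆ S := fun p hp => (mem_supp.1 hp).1
  have key : ∀ p ∈ S, Hc G p → (KC S (supp (Hc G) S x) p (ρ p) ↔
      ∑ q ∈ S, nr p q * (cu G x q + x p) + f p * x p = 0) := by
    intro p hp hT
    haveI : Fact p.Prime := ⟨H.pr p hp⟩
    rw [hf p hp hT]
    refine kc_iff H.pr hsub (hρ p hp hT) (cu G x) (fun q hq => ?_) ?_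
    · unfold cu
      by_cases h1 : Hc G q
      · rw [if_pos h1]
        by_cases h2 : x q = 0
        · rw [if_neg (fun h => (mem_supp.1 h).2.2 h2), h2]
        · rw [if_pos (mem_supp.2 ⟨hq, h1, h2⟩), z2 _ h2]
      · rw [if_neg h1, if_neg (fun h => h1 (mem_supp.1 h).2.1)]
    · by_cases h2 : x p = 0
      · rw [if_neg (fun h => (mem_supp.1 h).2.2 h2), h2]
      · rw [if_pos (mem_supp.2 ⟨hp, hT, h2⟩), z2 _ h2]
  unfold Sol Kr
  constructor
  · intro h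
    exact ⟨hsub, fun q hq => (mem_supp.1 hq).2.1, fun p hp hT => (key p hp hT).2 (h p hp hT)⟩
  · rintro ⟨-, -, h⟩ p hp hT
    exact (key p hp hT).1 (h p hp hT)

lemma kr_empty {T : ℕ → Prop} {ρ : ∀ p : ℕ, ZMod p} : Kr T S ρ ∅ := by
  refine ⟨Finset.empty_subset _, by simp, fun p _ _ => ⟨fun _ => ⟨1, by simp⟩, fun h => ?_⟩⟩
  simp at h

lemma kr_finite {T : ℕ → Prop} {ρ : ∀ p : ℕ, ZMod p} : {J | Kr T S ρ J}.Finite :=
  (Finset.finite_toSet S.powerset).subset fun J hJ => by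
    simpa using hJ.1

/-- the indicator function of a set in the kernel -/
lemma supp_ind {T : ℕ → Prop} {J : Finset ℕ} (hJ : J ⊆ S) (hT : ∀ q ∈ J, T q) :
    supp T S (fun q => if q ∈ J then 1 else 0) = J := by
  ext p
  rw [mem_supp]
  constructor
  · rintro ⟨-, -, h⟩
    by_contra hcon
    exact h (if_neg hcon)
  · intro h
    exact ⟨hJ h, hT p h, by rw [if_pos h]; exact one_ne_zero⟩

/-- the matrix is nonsingular exactly when the kernel has one element -/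
theorem gd_iff {G : Cfg} (H : Hy a b (Hc G) S) {f : ℕ → ZMod 2} {ρ : ∀ p : ℕ, ZMod p}
    (hρ : ∀ p ∈ S, Hc G p → ρ p ≠ 0) (hf : ∀ p ∈ S, Hc G p → f p = nz (ρ p)) :
    Gd G f S ↔ {J | Kr (Hc G) S ρ J}.ncard = 1 := by
  constructor
  · intro h
    rw [Set.ncard_eq_one]
    refine ⟨∅, Set.eq_singleton_iff_unique_mem.2 ⟨kr_empty, fun J hJ => ?_⟩⟩
    by_contra hne
    obtain ⟨p, hp⟩ := Finset.nonempty_iff_ne_empty.2 hne
    have h1 := h (fun q => if q ∈ J then 1 else 0)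
      ((sol_iff H hρ hf _).2 (by rw [supp_ind hJ.1 hJ.2.1]; exact hJ)) p (hJ.1 hp) (hJ.2.1 p hp)
    rw [if_pos hp] at h1
    exact one_ne_zero h1
  · intro h x hx p hp hT
    obtain ⟨J₀, hJ₀⟩ := Set.ncard_eq_one.1 h
    have h1 : supp (Hc G) S x ∈ {J | Kr (Hc G) S ρ J} := (sol_iff H hρ hf x).1 hx
    have h2 : (∅ : Finset ℕ) ∈ {J | Kr (Hc G) S ρ J} := kr_empty
    rw [hJ₀] at h1 h2
    rw [Set.mem_singleton_iff] at h1 h2
    by_contra hcon
    have h3 : p ∈ supp (Hc G) S x := mem_supp.2 ⟨hp, hT, hcon⟩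
    rw [h1, ← h2] at h3
    simp at h3

/-- the kernel depends on the classes of the roots only -/
theorem kr_congr {T : ℕ → Prop} (hS : ∀ q ∈ S, q.Prime) {ρ ρ' : ∀ p : ℕ, ZMod p}
    (hρ : ∀ p ∈ S, T p → ρ p ≠ 0) (hρ' : ∀ p ∈ S, T p → ρ' p ≠ 0)
    (h : ∀ p ∈ S, T p → (IsSquare (ρ p) ↔ IsSquare (ρ' p))) :
    {J | Kr T S ρ J} = {J | Kr T S ρ' J} := by
  classical
  ext J
  simp only [Set.mem_setOf_eq]
  unfold Kr
  refine and_congr_right fun hJ => and_congr_right fun hJT => ?_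
  refine forall_congr' fun p => forall_congr' fun hp => forall_congr' fun hT => ?_
  haveI : Fact p.Prime := ⟨hS p hp⟩
  rw [kc_iff hS hJ (hρ p hp hT) (fun q => if q ∈ J then 1 else 0) (x := fun q => if q ∈ J then 1 else 0)
      (fun q _ => rfl) rfl,
    kc_iff hS hJ (hρ' p hp hT) (fun q => if q ∈ J then 1 else 0) (x := fun q => if q ∈ J then 1 else 0)
      (fun q _ => rfl) rfl, nz_congr (h p hp hT)]

/-- the dual curve satisfies the hypotheses of the descent -/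
theorem Hy.dual {T : ℕ → Prop} (H : Hy a b T S) : Hy (-2 * a) (a ^ 2 - 4 * b) T S := by
  have e : (-2 * a) ^ 2 - 4 * (a ^ 2 - 4 * b) = 16 * b := by ring
  have e2 : (a ^ 2 - 4 * b) * ((-2 * a) ^ 2 - 4 * (a ^ 2 - 4 * b)) =
      2 ^ 4 * (b * (a ^ 2 - 4 * b)) := by ring
  have hdv : ∀ l : ℕ, l.Prime → l ≠ 2 →
      (l : ℤ) ∣ (a ^ 2 - 4 * b) * ((-2 * a) ^ 2 - 4 * (a ^ 2 - 4 * b)) →
      (l : ℤ) ∣ b * (a ^ 2 - 4 * b) := by
    intro l hl h2 h
    rw [e2] at h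
    have hlZ := Nat.prime_iff_prime_int.1 hl
    rcases hlZ.dvd_mul.1 h with h3 | h3
    · exfalso
      have h4 := hlZ.dvd_of_dvd_pow h3
      have h5 : l ∣ 2 := by exact_mod_cast h4
      exact h2 ((Nat.prime_dvd_prime_iff_eq hl Nat.prime_two).1 h5)
    · exact h3
  exact
    { hb := H.hc
      hc := by rw [e]; exact mul_ne_zero (by norm_num) H.hb
      pr := H.pr
      nd := fun p hp => ⟨(H.nd p hp).1, fun h => (H.nd p hp).2 (hdv p (H.pr p hp) (H.nd p hp).1 h)⟩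
      d8 := H.d8
      dl := fun l h1 h2 h3 => H.dl l h1 h2 (hdv l h1 h2 h3)
      s8 := H.s8
      sl := fun p hp hT l h1 h2 h3 => H.sl p hp hT l h1 h2 (hdv l h1 h2 h3)
      sq := fun p hp hT f hf hq => H.sq p hp hT f hf fun q hq' hd => by
        by_cases h2 : q = 2
        · exact Or.inl h2
        · exact Or.inr (hdv q hq' h2 ((hq q hq' hd).resolve_left h2))
      inr := fun p hp hT => by
        haveI : Fact p.Prime := ⟨H.pr p hp⟩
        obtain ⟨h1, h3⟩ := H.inr p hp hT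
        refine ⟨h3, ?_⟩
        rw [e]
        exact sq16 (H.nd p hp).1 h1 }

/-- the classes of the roots for the curve and its dual -/
theorem Hy.root_dual {T : ℕ → Prop} (H : Hy a b T S) {p : ℕ} (hp : p ∈ S) (hT : T p) :
    IsSquare (rt a b p) ↔ IsSquare (rt (-2 * a) (a ^ 2 - 4 * b) p) := by
  haveI : Fact p.Prime := ⟨H.pr p hp⟩
  have h2 := (H.nd p hp).1
  have h20 := two_ne (p := p) h2
  obtain ⟨i, hi⟩ := H.sq p hp hT (-1) (by norm_num) fun q hq h => by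
    exfalso
    have h1 : (q : ℤ) ∣ 1 := (dvd_neg).1 h
    have h3 := Int.le_of_dvd one_pos h1
    have := hq.one_lt
    omega
  have hi' : i * i = -1 := by rw [← hi]; push_cast; ring
  obtain ⟨β, hβ⟩ := H.sq p hp hT b H.hb fun q _ h => Or.inr (dvd_mul_of_dvd_left h _)
  obtain ⟨γ, hγ⟩ := H.sq p hp hT (a ^ 2 - 4 * b) H.hc fun q _ h =>
    Or.inr (dvd_mul_of_dvd_right h _)
  have hbz : (b : ZMod p) ≠ 0 := fun h => (H.nd p hp).2
    (dvd_mul_of_dvd_left ((ZMod.intCast_zmod_eq_zero_iff_dvd _ _).1 h) _)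
  have hcz : ((a ^ 2 - 4 * b : ℤ) : ZMod p) ≠ 0 := fun h => (H.nd p hp).2
    (dvd_mul_of_dvd_right ((ZMod.intCast_zmod_eq_zero_iff_dvd _ _).1 h) _)
  have hr := H.root hp hT
  have hr' := H.dual.root hp hT
  constructor
  · intro h
    refine root_cls (a := (a : ZMod p)) h20 hi' hβ hbz hr ?_ h
    push_cast at hr'
    linear_combination hr'
  · intro h
    have h4 : IsSquare (4 * rt a b p) := by
      refine root_cls (a := ((-2 * a : ℤ) : ZMod p)) h20 hi' hγ hcz hr' ?_ h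
      push_cast
      linear_combination 16 * hr
    obtain ⟨s, hs⟩ := h4
    refine ⟨s / 2, ?_⟩
    field_simp
    linear_combination hs

/-- **the classes of the twist and of its dual** -/
theorem main (hb : b ≠ 0) (hc : a ^ 2 - 4 * b ≠ 0) (hS : Cl (cfg a b) S) :
    ∃ κ : ℕ, 0 < κ ∧
      (Sel (a * ((∏ q ∈ S, q : ℕ) : ℤ)) (b * ((∏ q ∈ S, q : ℕ) : ℤ) ^ 2)).ncard =
        (Sel a b).ncard * κ ∧
      (Sel (-2 * a * ((∏ q ∈ S, q : ℕ) : ℤ)) ((a ^ 2 - 4 * b) * ((∏ q ∈ S, q : ℕ) : ℤ) ^ 2)).ncard =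
        (Sel (-2 * a) (a ^ 2 - 4 * b)).ncard * κ ∧
      κ = {J | Kr (Hc (cfg a b)) S (rt a b) J}.ncard ∧
      (Gd (cfg a b) (fd a b) S ↔ κ = 1) := by
  have H := hy_of hb hc hS
  have H' := H.dual
  have h1 := H.ncard (ρ := rt a b) fun p hp hT => H.root hp hT
  have h2 := H'.ncard (ρ := rt (-2 * a) (a ^ 2 - 4 * b)) fun p hp hT => H'.root hp hT
  refine ⟨_, ?_, h1, ?_, rfl, gd_iff H (fun p hp hT => H.root_ne hp hT) fun p _ _ => rfl⟩
  · exact (Set.ncard_pos kr_finite).2 ⟨∅, kr_empty⟩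
  · rw [h2, kr_congr H.pr (fun p hp hT => H.root_ne hp hT) (fun p hp hT => H'.root_ne hp hT)
      fun p hp hT => H.root_dual hp hT]

end

end Pool.Agent.U80.GT
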