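import Pool.Agent.U80.GT.Fin
import Pool.Agent.U80.GT.Main
import Pool.Agent.U80.NP.Grp
import Pool.Agent.U115.GD.Fin
import Pool.Agent.U643.GD.CFG

/-!
# The Selmer rank of the twists in the class
-/

set_option autoImplicit false

namespace Pool.Agent.U80.GT

open Finset
open Pool.Agent.U80.NP
open Pool.Agent.U115.GD (Hc Cl Gd)
open Pool.Agent.U115.GE (Class cfg)

section

variable {a b : ℤ} {D : ℕ}

/-- the Selmer rank of the descent by the isogeny of degree two -/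
noncomputable def SR (a b : ℤ) : ℤ :=
  (Nat.log 2 (Sel a b).ncard : ℤ) + (Nat.log 2 (Sel (-2 * a) (a ^ 2 - 4 * b)).ncard : ℤ) - 2

lemma nn_pow (hb : b ≠ 0) (hc : a ^ 2 - 4 * b ≠ 0) : NN a b =
    2 ^ (Nat.log 2 (Sel a b).ncard + Nat.log 2 (Sel (-2 * a) (a ^ 2 - 4 * b)).ncard) := by
  unfold NN
  rw [pow_add, ← ncard_pow hb, ← ncard_pow hc]

lemma sr_nat (hb : b ≠ 0) (hc : a ^ 2 - 4 * b ≠ 0) :
    ∃ s : ℕ, SR a b = s ∧ NN a b = 4 * 2 ^ s := by
  have h1 := nn_pow hb hc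
  obtain ⟨h2, h3⟩ := bound hb hc
  have h4 : 1 ≤ Nat.card {x : Pool.Agent.TH841.NF.D.Sha
      (Pool.Agent.Y682.wc (a : ℚ) (b : ℚ)) // 2 • x = 0} :=
    Nat.card_pos_iff.2 ⟨⟨⟨0, smul_zero _⟩⟩, h2⟩
  have h5 : 1 ≤ 2 ^ (Module.finrank ℤ (Pool.Agent.Y682.MP
      (Pool.Agent.Y682.wc (a : ℚ) (b : ℚ)))) := Nat.one_le_two_pow
  have h6 : 4 ≤ NN a b := by
    have h7 := Nat.mul_le_mul (Nat.mul_le_mul_left 4 h5) h4
    exact (le_of_eq (by norm_num)).trans (h7.trans h3)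
  have h7 : 2 ≤ Nat.log 2 (Sel a b).ncard + Nat.log 2 (Sel (-2 * a) (a ^ 2 - 4 * b)).ncard := by
    by_contra hne
    have h8 : 2 ^ (Nat.log 2 (Sel a b).ncard + Nat.log 2 (Sel (-2 * a) (a ^ 2 - 4 * b)).ncard) ≤
        2 ^ 1 := Nat.pow_le_pow_right (by norm_num) (by omega)
    omega
  obtain ⟨s, hs⟩ := Nat.exists_eq_add_of_le h7
  refine ⟨s, ?_, ?_⟩
  · unfold SR
    have : ((Nat.log 2 (Sel a b).ncard + Nat.log 2 (Sel (-2 * a) (a ^ 2 - 4 * b)).ncard : ℕ) : ℤ) =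
        ((2 + s : ℕ) : ℤ) := by rw [hs]
    push_cast at this
    linarith
  · rw [h1, hs, pow_add]
    norm_num

/-- the Selmer rank of the twists in the class -/
theorem sr_class (hb : b ≠ 0) (hc : a ^ 2 - 4 * b ≠ 0) (hsf : Squarefree D)
    (hS : Cl (cfg a b) D.primeFactors) :
    ∃ k : ℕ, SR (a * D) (b * (D : ℤ) ^ 2) = SR a b + 2 * k ∧
      (Gd (cfg a b) (fd a b) D.primeFactors ↔ k = 0) := by
  obtain ⟨κ, h0, h1, h2, -, h3⟩ := main hb hc hS
  have hDp : ∏ q ∈ D.primeFactors, q = D := Nat.prod_primeFactors_of_squarefree hsf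
  rw [hDp] at h1 h2
  have hDz : (D : ℤ) ≠ 0 := by exact_mod_cast hsf.ne_zero
  have e : (a * D) ^ 2 - 4 * (b * (D : ℤ) ^ 2) = (a ^ 2 - 4 * b) * (D : ℤ) ^ 2 := by ring
  have e2 : -2 * (a * (D : ℤ)) = -2 * a * D := by ring
  have p1 := ncard_pow (a := a) hb
  have p2 := ncard_pow (a := -2 * a) hc
  have p3 := ncard_pow (a := a * D) (mul_ne_zero hb (pow_ne_zero 2 hDz))
  have p4 := ncard_pow (a := -2 * a * D) (mul_ne_zero hc (pow_ne_zero 2 hDz))
  set f1 := Nat.log 2 (Sel a b).ncard with hf1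
  set f2 := Nat.log 2 (Sel (-2 * a) (a ^ 2 - 4 * b)).ncard with hf2
  set f3 := Nat.log 2 (Sel (a * D) (b * (D : ℤ) ^ 2)).ncard with hf3
  set f4 := Nat.log 2 (Sel (-2 * a * D) ((a ^ 2 - 4 * b) * (D : ℤ) ^ 2)).ncard with hf4
  rw [p1, p3] at h1
  rw [p2, p4] at h2
  have h13 : f1 ≤ f3 := by
    refine (Nat.pow_le_pow_iff_right (by norm_num : 1 < 2)).1 ?_
    rw [h1]
    exact Nat.le_mul_of_pos_right _ h0
  obtain ⟨k, hk⟩ := Nat.exists_eq_add_of_le h13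
  have hκ : κ = 2 ^ k := by
    rw [hk, pow_add] at h1
    exact (Nat.eq_of_mul_eq_mul_left (by positivity) h1).symm
  have h24 : f4 = f2 + k := by
    rw [hκ, ← pow_add] at h2
    exact Nat.pow_right_injective (le_refl 2) h2
  refine ⟨k, ?_, h3.trans ?_⟩
  · unfold SR
    rw [e, e2, ← hf1, ← hf2, ← hf3, ← hf4, hk, h24]
    push_cast
    ring
  · rw [hκ]
    constructor
    · intro h
      by_contra hne
      have := Nat.one_lt_two_pow hne
      omega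
    · rintro rfl
      rfl

/-- the class -/
lemma class_cl (hb : ¬ IsSquare b) (hc : ¬ IsSquare (a ^ 2 - 4 * b)) (D : ℕ) :
    Class a b D ↔ Squarefree D ∧ Cl (cfg a b) D.primeFactors := by
  have hb0 : b ≠ 0 := by
    rintro rfl
    exact hb ⟨0, by norm_num⟩
  have hc0 : a ^ 2 - 4 * b ≠ 0 := by
    intro h
    exact hc ⟨0, by rw [h]; norm_num⟩
  exact (Pool.Agent.U643.GE.t_CFG a b hb0 hc0 hb hc).2.2.2 D

open scoped Classical in
/-- **the exact proportion** -/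
theorem den (hb : ¬ IsSquare b) (hc : ¬ IsSquare (a ^ 2 - 4 * b)) : Filter.Tendsto
    (fun X : ℕ => (((Icc 1 X).filter fun D => Class a b D ∧
      SR (a * D) (b * (D : ℤ) ^ 2) = SR a b).card : ℝ) /
      (((Icc 1 X).filter fun D => Class a b D).card : ℝ)) Filter.atTop
    (nhds Pool.Agent.Y703.CQ.c2) := by
  have hb0 : b ≠ 0 := by
    rintro rfl
    exact hb ⟨0, by norm_num⟩
  have hc0 : a ^ 2 - 4 * b ≠ 0 := by
    intro h
    exact hc ⟨0, by rw [h]; norm_num⟩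
  have h := Pool.Agent.U115.GD.t_DEN (cfg a b) (fd a b)
    (Pool.Agent.U643.GE.t_CFG a b hb0 hc0 hb hc).1
  refine h.congr fun X => congrArg₂ (fun a b : ℕ => (a : ℝ) / (b : ℝ)) ?_ ?_
  · refine congrArg Finset.card (Finset.filter_congr fun D _ => ?_)
    rw [class_cl hb hc]
    constructor
    · rintro ⟨h1, h2, h3⟩
      refine ⟨⟨h1, h2⟩, ?_⟩
      obtain ⟨k, hk, hk'⟩ := sr_class hb0 hc0 h1 h2
      rw [hk, hk'.1 h3]
      push_cast
      ring
    · rintro ⟨⟨h1, h2⟩, h3⟩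
      obtain ⟨k, hk, hk'⟩ := sr_class hb0 hc0 h1 h2
      refine ⟨h1, h2, hk'.2 ?_⟩
      rw [hk] at h3
      have : (2 * (k : ℤ)) = 0 := by linarith
      have h4 : (k : ℤ) = 0 := by linarith
      exact_mod_cast h4
  · refine congrArg Finset.card (Finset.filter_congr fun D _ => ?_)
    rw [class_cl hb hc]

/-- the primes of a number of the class do not divide the discriminant -/
lemma dn_of_class (hb : b ≠ 0) (hc : a ^ 2 - 4 * b ≠ 0) (hsf : Squarefree D)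
    (hS : Cl (cfg a b) D.primeFactors) : Dn a b D :=
  ⟨hsf, (hy_of hb hc hS).nd⟩

end

end Pool.Agent.U80.GT
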