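import Mathlib
import Pool.Agent.U80.MQ.ShaF

/-!
# The corank of a group with a homomorphism of bounded kernel to a product
-/

set_option autoImplicit false

namespace Pool.Agent.U80.GT

lemma card_tors (m n : ℕ) (h : n ≤ m) :
    Nat.card {x : ZMod (2 ^ m) // (2 ^ n : ℕ) • x = 0} ≤ 2 ^ n := by
  haveI : NeZero (2 ^ m) := ⟨by positivity⟩
  have key : ∀ x : ZMod (2 ^ m), (2 ^ n : ℕ) • x = 0 → 2 ^ (m - n) ∣ x.val := by
    intro x hx
    have h1 : ((2 ^ n * x.val : ℕ) : ZMod (2 ^ m)) = 0 := by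
      rw [Nat.cast_mul, ZMod.natCast_zmod_val, ← nsmul_eq_mul]
      exact hx
    have h2 := (ZMod.natCast_eq_zero_iff _ _).1 h1
    have e : 2 ^ m = 2 ^ n * 2 ^ (m - n) := by rw [← pow_add]; congr 1; omega
    exact Nat.dvd_of_mul_dvd_mul_left (by positivity) ((dvd_of_eq e.symm).trans h2)
  let f : {x : ZMod (2 ^ m) // (2 ^ n : ℕ) • x = 0} → Fin (2 ^ n) := fun x =>
    ⟨x.1.val / 2 ^ (m - n), by
      rw [Nat.div_lt_iff_lt_mul (by positivity), ← pow_add]
      have e : n + (m - n) = m := by omega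
      rw [e]
      exact ZMod.val_lt _⟩
  have hf : Function.Injective f := by
    intro x y hxy
    have h1 : x.1.val / 2 ^ (m - n) = y.1.val / 2 ^ (m - n) := congrArg Fin.val hxy
    have h2 : x.1.val = y.1.val := by
      rw [← Nat.div_mul_cancel (key x.1 x.2), ← Nat.div_mul_cancel (key y.1 y.2), h1]
    exact Subtype.ext (ZMod.val_injective _ h2)
  refine (Nat.card_le_card_of_injective f hf).trans (le_of_eq ?_)
  rw [Nat.card_eq_fintype_card, Fintype.card_fin]

/-- the elements killed by a number in a product -/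
def piEquiv {ι : Type} (B : ι → Type) [∀ i, AddCommGroup (B i)] (k : ℕ) :
    {y : ∀ i, B i // k • y = 0} ≃ ∀ i, {x : B i // k • x = 0} where
  toFun y i := ⟨y.1 i, congrFun y.2 i⟩
  invFun z := ⟨fun i => (z i).1, funext fun i => (z i).2⟩
  left_inv _ := rfl
  right_inv _ := rfl

/-- **the corank** -/
theorem cork {A : Type} [AddCommGroup A] {ι : Type} [Fintype ι] {B : ι → Type}
    [∀ i, AddCommGroup (B i)] (g : ∀ i, A →+ B i) (n : ℕ)
    (hker : ∀ x, (∀ i, g i x = 0) → (2 ^ n : ℕ) • x = 0)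
    (hfin : ∀ i, Finite {x : B i // 2 • x = 0}) {q β : ℕ}
    (hβ : ∏ i, Nat.card {x : B i // 2 • x = 0} ≤ 2 ^ β)
    (hq : ∀ m : ℕ, ∃ f : (Fin q → ZMod (2 ^ m)) →+ A, Function.Injective f) : q ≤ β := by
  by_contra hlt
  have hlt' : β + 1 ≤ q := by omega
  have hq1 : 1 ≤ q := by omega
  set m : ℕ := n * q + 1 with hm
  have hnm : n ≤ m := by
    have := Nat.le_mul_of_pos_right n hq1
    omega
  haveI : NeZero (2 ^ m) := ⟨by positivity⟩
  obtain ⟨f, hf⟩ := hq m
  let h : (Fin q → ZMod (2 ^ m)) →+ ∀ i, B i := AddMonoidHom.mk' (fun x i => g i (f x))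
    (fun x y => by
      funext i
      rw [map_add, map_add]
      rfl)
  have hh : ∀ x i, h x i = g i (f x) := fun _ _ => rfl
  -- the kernel
  have hk1 : Nat.card h.ker ≤ (2 ^ n) ^ q := by
    have e1 : Nat.card {y : Fin q → ZMod (2 ^ m) // (2 ^ n : ℕ) • y = 0} ≤ (2 ^ n) ^ q := by
      rw [Nat.card_congr (piEquiv (fun _ : Fin q => ZMod (2 ^ m)) (2 ^ n)), Nat.card_pi,
        Finset.prod_const, Finset.card_univ, Fintype.card_fin]
      exact Nat.pow_le_pow_left (card_tors m n hnm) q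
    refine le_trans ?_ e1
    refine Nat.card_le_card_of_injective (fun x : h.ker =>
      (⟨x.1, hf ?_⟩ : {y : Fin q → ZMod (2 ^ m) // (2 ^ n : ℕ) • y = 0})) fun x y hxy => ?_
    · rw [map_nsmul, map_zero]
      refine hker _ fun i => ?_
      have h2 : h x.1 = 0 := x.2
      rw [← hh, h2]
      rfl
    · have h2 := congrArg Subtype.val hxy
      exact Subtype.ext h2
  -- the image
  have hfi : ∀ i, Finite {x : B i // (2 ^ m : ℕ) • x = 0} ∧
      Nat.card {x : B i // (2 ^ m : ℕ) • x = 0} ≤ Nat.card {x : B i // 2 • x = 0} ^ m := fun i =>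
    Pool.Agent.U80.MQ.card_pow (hfin i) m
  haveI : ∀ i, Finite {x : B i // (2 ^ m : ℕ) • x = 0} := fun i => (hfi i).1
  have hr1 : Nat.card h.range ≤ (2 ^ β) ^ m := by
    have e1 : Nat.card {y : ∀ i, B i // (2 ^ m : ℕ) • y = 0} ≤ (2 ^ β) ^ m := by
      rw [Nat.card_congr (piEquiv B (2 ^ m)), Nat.card_pi]
      calc ∏ i, Nat.card {x : B i // (2 ^ m : ℕ) • x = 0}
          ≤ ∏ i, Nat.card {x : B i // 2 • x = 0} ^ m := Finset.prod_le_prod' fun i _ => (hfi i).2
        _ = (∏ i, Nat.card {x : B i // 2 • x = 0}) ^ m := Finset.prod_pow _ _ _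
        _ ≤ _ := Nat.pow_le_pow_left hβ m
    haveI : Finite {y : ∀ i, B i // (2 ^ m : ℕ) • y = 0} :=
      Finite.of_equiv _ (piEquiv B (2 ^ m)).symm
    refine le_trans ?_ e1
    refine Nat.card_le_card_of_injective (fun x : h.range =>
      (⟨x.1, ?_⟩ : {y : ∀ i, B i // (2 ^ m : ℕ) • y = 0})) fun x y hxy => ?_
    · obtain ⟨z, hz⟩ := x.2
      rw [← hz, ← map_nsmul]
      have h2 : (2 ^ m : ℕ) • z = 0 := by
        funext j
        show (2 ^ m : ℕ) • z j = 0
        rw [nsmul_eq_mul, Nat.cast_pow]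
        have h3 : ((2 : ℕ) : ZMod (2 ^ m)) ^ m = 0 := by
          rw [← Nat.cast_pow]
          exact ZMod.natCast_self _
        rw [h3, zero_mul]
      rw [h2, map_zero]
    · have h2 := congrArg Subtype.val hxy
      exact Subtype.ext h2
  have hcard : Nat.card (Fin q → ZMod (2 ^ m)) = Nat.card h.ker * Nat.card h.range := by
    rw [← AddSubgroup.index_ker, AddSubgroup.card_mul_index]
  have hP : Nat.card (Fin q → ZMod (2 ^ m)) = 2 ^ (m * q) := by
    rw [Nat.card_fun, Nat.card_zmod, Nat.card_eq_fintype_card, Fintype.card_fin, ← pow_mul]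
  have h1 : 2 ^ (m * q) ≤ 2 ^ (n * q + β * m) := by
    calc 2 ^ (m * q) = Nat.card (Fin q → ZMod (2 ^ m)) := hP.symm
      _ = Nat.card h.ker * Nat.card h.range := hcard
      _ ≤ (2 ^ n) ^ q * (2 ^ β) ^ m := Nat.mul_le_mul hk1 hr1
      _ = 2 ^ (n * q + β * m) := by rw [← pow_mul, ← pow_mul, ← pow_add]
  have h2 : m * q ≤ n * q + β * m := (Nat.pow_le_pow_iff_right (by norm_num)).1 h1
  have h3 : m * (β + 1) ≤ m * q := Nat.mul_le_mul_left m hlt'
  have h4 : n * q = m - 1 := by omega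
  have h5 : m * q = m * (q - β) + m * β := by
    rw [← Nat.mul_add]
    congr 1
    omega
  have h6 : m ≤ m * (q - β) := Nat.le_mul_of_pos_right m (by omega)
  nlinarith

end Pool.Agent.U80.GT
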