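import Pool.Agent.U80.MQ.ShaM
import Pool.Agent.Y682.KG
import Pool.Agent.U80.GT.Crk

/-!
# The corank of `Ш` over the multiquadratic fields
-/

set_option autoImplicit false

attribute [-instance] DivisionRing.toRatAlgebra

open WeierstrassCurve

open scoped Classical

namespace Pool.Agent.U80.GT

open Pool.Agent.TH841.NF (Sc thS thS_ker)
open Pool.Agent.Y682 (gc)

/-- the two definitions of `Ш` over `ℚ` -/
theorem nf_card {E : WeierstrassCurve ℚ}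
    (h : Finite {x : Pool.Agent.TH841.NF.D.Sha E // 2 • x = 0}) :
    Finite {x : Pool.Agent.TH841.SH.D.Sha E // 2 • x = 0} ∧
      Nat.card {x : Pool.Agent.TH841.SH.D.Sha E // 2 • x = 0} ≤
        Nat.card {x : Pool.Agent.TH841.NF.D.Sha E // 2 • x = 0} := by
  let _ : Algebra ℚ ℚ := Algebra.id ℚ
  have hW : Sc (algebraMap ℚ ℚ) 1 E E := by
    refine ⟨one_ne_zero, ?_, ?_, ?_, ?_, ?_⟩ <;> simp
  obtain ⟨e⟩ := Pool.Agent.Y682.exists_e ℚ
  let f : {x : Pool.Agent.TH841.SH.D.Sha E // 2 • x = 0} →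
      {x : Pool.Agent.TH841.NF.D.Sha E // 2 • x = 0} := fun x =>
    ⟨Pool.Agent.Y682.rsS hW e x.1, by rw [← map_nsmul, x.2, map_zero]⟩
  have hf : Function.Injective f := by
    intro x y hxy
    have h1 : Pool.Agent.Y682.rsS hW e x.1 = Pool.Agent.Y682.rsS hW e y.1 :=
      congrArg Subtype.val hxy
    have h2 := Pool.Agent.Y682.coS_rsS hW e x.1
    have h3 := Pool.Agent.Y682.coS_rsS hW e y.1
    rw [Module.finrank_self, one_smul] at h2 h3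
    apply Subtype.ext
    rw [← h2, ← h3, h1]
  exact ⟨Finite.of_injective f hf, Nat.card_le_card_of_injective f hf⟩

theorem cork_Kg (A B : ℤ) (n : ℕ) (d : Fin n → ℕ) (hd0 : ∀ i, d i ≠ 0)
    (K : Type) [Field K] [NumberField K] [Algebra ℚ K] (r : Fin n → K)
    (hr : ∀ i, r i ^ 2 = ((d i : ℕ) : K))
    (hgen : IntermediateField.adjoin ℚ (Set.range r) = ⊤) (W : WeierstrassCurve K)
    (hW : Sc (algebraMap ℚ K) 1 (gc A B ℚ) W)
    (hfin : ∀ T : Finset (Fin n), Finite {x : Pool.Agent.TH841.NF.D.Sha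
      (gc (A * ((∏ i ∈ T, d i : ℕ) : ℤ)) (B * ((∏ i ∈ T, d i : ℕ) : ℤ) ^ 2) ℚ) // 2 • x = 0})
    {β : ℕ} (hβ : ∏ T : Finset (Fin n), Nat.card {x : Pool.Agent.TH841.NF.D.Sha
      (gc (A * ((∏ i ∈ T, d i : ℕ) : ℤ)) (B * ((∏ i ∈ T, d i : ℕ) : ℤ) ^ 2) ℚ) // 2 • x = 0} ≤ 2 ^ β)
    {q : ℕ} (hq : ∀ m : ℕ, ∃ f : (Fin q → ZMod (2 ^ m)) →+ Pool.Agent.TH841.NF.D.Sha W,
      Function.Injective f) : q ≤ β := by
  obtain ⟨e⟩ := Pool.Agent.Y682.exists_e K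
  have hd : ∀ i, ((d i : ℕ) : ℚ) ≠ 0 := fun i => by exact_mod_cast hd0 i
  have hr' : ∀ i, r i ^ 2 = algebraMap ℚ K ((d i : ℕ) : ℚ) := by
    intro i
    rw [hr i, map_natCast]
  have e1 : ∀ T : Finset (Fin n), Pool.Agent.TH841.NF.tw (∏ i ∈ T, ((d i : ℕ) : ℚ)) (gc A B ℚ) =
      gc (A * ((∏ i ∈ T, d i : ℕ) : ℤ)) (B * ((∏ i ∈ T, d i : ℕ) : ℤ) ^ 2) ℚ := by
    intro T
    rw [← Nat.cast_prod]
    unfold Pool.Agent.TH841.NF.tw gc
    ext
    · rfl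
    · simp only
      push_cast
      ring
    · rfl
    · simp only
      push_cast
      ring
    · simp only
      ring
  have hc : ∀ T : Finset (Fin n), Finite {x : Pool.Agent.TH841.SH.D.Sha
      (Pool.Agent.TH841.NF.tw (∏ i ∈ T, ((d i : ℕ) : ℚ)) (gc A B ℚ)) // 2 • x = 0} ∧
      Nat.card {x : Pool.Agent.TH841.SH.D.Sha
        (Pool.Agent.TH841.NF.tw (∏ i ∈ T, ((d i : ℕ) : ℚ)) (gc A B ℚ)) // 2 • x = 0} ≤
      Nat.card {x : Pool.Agent.TH841.NF.D.Sha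
      (gc (A * ((∏ i ∈ T, d i : ℕ) : ℤ)) (B * ((∏ i ∈ T, d i : ℕ) : ℤ) ^ 2) ℚ) // 2 • x = 0} := by
    intro T
    rw [e1 T]
    exact nf_card (hfin T)
  exact cork (ι := Finset (Fin n)) (fun T => thS hW rfl rfl e hr' hd hgen T) n
    (fun x hx => thS_ker hW rfl rfl e hr' hd hgen x hx) (fun T => (hc T).1)
    ((Finset.prod_le_prod' fun T _ => (hc T).2).trans hβ) hq

end Pool.Agent.U80.GT
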