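import Pool.Agent.U80.GT.Rk
import Pool.Agent.U80.GT.Fin
import Pool.Agent.U80.GT.CrkK

/-!
# Rank and corank over the number fields in the tower
-/

set_option autoImplicit false

open NumberField IsDedekindDomain WeierstrassCurve

namespace Pool.Agent.U80.GT

open Pool.Agent.U80.MQ (wt wt_sq insert_ad Om exists_gens)

section

variable {a b : ℤ}

/-- the rank over a multiquadratic field is at most the sum of the ranks of the twists -/
theorem Rg_sum (hb : b ≠ 0) (hc' : a ^ 2 - 4 * b ≠ 0) {n : ℕ} (S : Fin n → Finset ℕ)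
    (hS : ∀ i, ∏ q ∈ S i, q ≠ 0) (J : Finset (Fin n)) :
    FiniteDimensional ℚ (IntermediateField.adjoin ℚ
      (wt '' ((J.image S : Finset (Finset ℕ)) : Set (Finset ℕ)))) ∧
    ∀ (F₀ : IntermediateField ℚ ℂ) [NumberField F₀],
      F₀ = IntermediateField.adjoin ℚ (wt '' ((J.image S : Finset (Finset ℕ)) : Set (Finset ℕ))) →
      ∀ c : ℤ, c ≠ 0 → Rg a b F₀ c ≤
        ∑ T ∈ J.powerset, Rg a b ℚ (c * ((∏ i ∈ T, ∏ q ∈ S i, q : ℕ) : ℤ)) := by
  classical
  induction J using Finset.induction_on with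
  | empty =>
    have e : IntermediateField.adjoin ℚ (wt '' (((∅ : Finset (Fin n)).image S :
        Finset (Finset ℕ)) : Set (Finset ℕ))) = ⊥ := by
      rw [Finset.image_empty, Finset.coe_empty, Set.image_empty, IntermediateField.adjoin_empty]
    rw [e]
    refine ⟨by infer_instance, ?_⟩
    intro F₀ _ hF₀ c hc
    subst hF₀
    have hq : Rg a b ℚ c = Rg a b (⊥ : IntermediateField ℚ ℂ) c :=
      Rg_iso hb hc' (IntermediateField.botEquiv ℚ ℂ).symm.toRingEquiv hc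
    rw [← hq, Finset.powerset_empty, Finset.sum_singleton, Finset.prod_empty]
    simp
  | insert i J hiJ ih =>
    obtain ⟨hfd, ih'⟩ := ih
    have hdZ : ((∏ q ∈ S i, q : ℕ) : ℤ) ≠ 0 := by exact_mod_cast hS i
    have him : (insert i J).image S = insert (S i) (J.image S) := Finset.image_insert _ _ _
    have hins := insert_ad (J.image S) (S i)
    rw [him]
    set F : IntermediateField ℚ ℂ := IntermediateField.adjoin ℚ
      (wt '' ((J.image S : Finset (Finset ℕ)) : Set (Finset ℕ))) with hF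
    have hG₀ : NumberField F := { to_charZero := inferInstance, to_finiteDimensional := hfd }
    have hsum : ∀ c : ℤ, ∑ T ∈ (insert i J).powerset,
        Rg a b ℚ (c * ((∏ i ∈ T, ∏ q ∈ S i, q : ℕ) : ℤ)) =
        ∑ T ∈ J.powerset, Rg a b ℚ (c * ((∏ i ∈ T, ∏ q ∈ S i, q : ℕ) : ℤ)) +
        ∑ T ∈ J.powerset, Rg a b ℚ (c * ((∏ q ∈ S i, q : ℕ) : ℤ) *
          ((∏ i ∈ T, ∏ q ∈ S i, q : ℕ) : ℤ)) := by
      intro c
      rw [Finset.sum_powerset_insert hiJ]
      congr 1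
      refine Finset.sum_congr rfl fun T hT => ?_
      have hiT : i ∉ T := fun h => hiJ (Finset.mem_powerset.1 hT h)
      rw [Finset.prod_insert hiT]
      congr 1
      push_cast
      ring
    by_cases hz0 : wt (S i) ∈ F
    · have hins' : IntermediateField.adjoin ℚ (wt '' ((insert (S i) (J.image S) :
          Finset (Finset ℕ)) : Set (Finset ℕ))) = F := by
        rw [hins]
        exact sup_eq_left.2 ((IntermediateField.adjoin_simple_le_iff).2 hz0)
      rw [hins']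
      refine ⟨hfd, fun F₀ _ hF₀ c hc => ?_⟩
      rw [hsum]
      exact (ih' F₀ hF₀ c hc).trans (Nat.le_add_right _ _)
    · refine ⟨?_, ?_⟩
      · rw [hins]
        have : FiniteDimensional ℚ (IntermediateField.adjoin ℚ {wt (S i)} :
            IntermediateField ℚ ℂ) :=
          IntermediateField.adjoin.finiteDimensional
            ⟨Polynomial.X ^ 2 - Polynomial.C ((∏ q ∈ S i, q : ℕ) : ℚ),
            Polynomial.monic_X_pow_sub_C _ (by norm_num), by
              rw [Polynomial.eval₂_sub, Polynomial.eval₂_pow, Polynomial.eval₂_X,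
                Polynomial.eval₂_C, wt_sq, map_natCast, sub_self]⟩
        exact IntermediateField.finiteDimensional_sup _ _
      · intro F₀ _ hF₀ c hc
        rw [hsum, Rg_quad hb hc' F F₀ hdZ hz0 (by rw [wt_sq, Int.cast_natCast]) (hF₀.trans hins) hc]
        exact Nat.add_le_add (ih' F rfl c hc) (ih' F rfl _ (mul_ne_zero hc hdZ))

/-- **rank and corank over the number fields in the tower** -/
theorem all_cork (hb : b ≠ 0) (hc : a ^ 2 - 4 * b ≠ 0) {D : ℕ} (hD : Dn a b D) {s : ℕ}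
    (hs : NN (a * D) (b * (D : ℤ) ^ 2) = 4 * 2 ^ s) {P : Finset ℕ} (hP : ∀ q ∈ P, TP a b D q)
    (K : IntermediateField ℚ ℂ) [hN : NumberField K] (hK : K ≤ Om P) {q : ℕ}
    (hq : ∀ m : ℕ, ∃ f : (Fin q → ZMod (2 ^ m)) →+
      Pool.Agent.TH841.NF.D.Sha (Pool.Agent.Y682.gc (a * D) (b * (D : ℤ) ^ 2) K),
        Function.Injective f) :
    Rg a b K D + q ≤ Module.finrank ℚ K * s := by
  classical
  obtain ⟨n, S, r, hS, hrw, hr, hgen, hdeg⟩ := exists_gens K hK
  have hP0 : ∀ q ∈ P, q ≠ 0 := fun q hq => (hP q hq).1.ne_zero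
  have hS0 : ∀ i, ∏ q ∈ S i, q ≠ 0 := fun i =>
    Finset.prod_ne_zero_iff.2 fun q hq => hP0 q (hS i hq)
  have hDz : (D : ℤ) ≠ 0 := by exact_mod_cast hD.1.ne_zero
  -- the twists
  set C : Finset (Fin n) → ℕ := fun T => Nat.card {x : Pool.Agent.TH841.NF.D.Sha
      (Pool.Agent.Y682.gc (a * D * ((∏ i ∈ T, ∏ q ∈ S i, q : ℕ) : ℤ))
        (b * (D : ℤ) ^ 2 * ((∏ i ∈ T, ∏ q ∈ S i, q : ℕ) : ℤ) ^ 2) ℚ) // 2 • x = 0} with hC
  set R : Finset (Fin n) → ℕ := fun T =>
    Rg a b ℚ (D * ((∏ i ∈ T, ∏ q ∈ S i, q : ℕ) : ℤ)) with hR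
  have htw : ∀ T : Finset (Fin n), Finite {x : Pool.Agent.TH841.NF.D.Sha
      (Pool.Agent.Y682.gc (a * D * ((∏ i ∈ T, ∏ q ∈ S i, q : ℕ) : ℤ))
        (b * (D : ℤ) ^ 2 * ((∏ i ∈ T, ∏ q ∈ S i, q : ℕ) : ℤ) ^ 2) ℚ) // 2 • x = 0} ∧
      2 ^ R T * C T ≤ 2 ^ s := by
    intro T
    obtain ⟨U, l, hU, hl, hUl⟩ := Pool.Agent.U80.MQ.prod_two hP0 S hS T
    obtain ⟨h1, h2⟩ := tow_bound hb hc hD (U := U) (fun q hq => hP q (hU hq)) (k := l) hl
    rw [← hUl] at h1 h2
    refine ⟨h1, ?_⟩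
    rw [hs, mul_assoc] at h2
    exact Nat.le_of_mul_le_mul_left h2 (by norm_num)
  have hCpos : ∀ T, 1 ≤ C T := fun T =>
    Nat.card_pos_iff.2 ⟨⟨⟨0, smul_zero _⟩⟩, (htw T).1⟩
  have hprod : 2 ^ (∑ T : Finset (Fin n), R T) * ∏ T : Finset (Fin n), C T ≤
      2 ^ (2 ^ n * s) := by
    rw [← Finset.prod_pow_eq_pow_sum, ← Finset.prod_mul_distrib]
    refine (Finset.prod_le_prod' fun T _ => (htw T).2).trans (le_of_eq ?_)
    rw [Finset.prod_const, Finset.card_univ, Fintype.card_finset, Fintype.card_fin, ← pow_mul,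
      mul_comm]
  have hsum : ∑ T : Finset (Fin n), R T ≤ 2 ^ n * s := by
    refine (Nat.pow_le_pow_iff_right (by norm_num : 1 < 2)).1 (le_trans ?_ hprod)
    exact Nat.le_mul_of_pos_right _ (Finset.prod_pos fun T _ => hCpos T)
  obtain ⟨β, hβ⟩ := Nat.exists_eq_add_of_le hsum
  have hCβ : ∏ T : Finset (Fin n), C T ≤ 2 ^ β := by
    rw [hβ, pow_add] at hprod
    exact Nat.le_of_mul_le_mul_left hprod (by positivity)
  -- the corank
  have hqβ : q ≤ β := by
    refine @cork_Kg (a * D) (b * (D : ℤ) ^ 2) n (fun i => ∏ q ∈ S i, q) hS0 K _ hN _ r hr hgen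
      (Pool.Agent.Y682.gc (a * D) (b * (D : ℤ) ^ 2) K) (by
        refine ⟨one_ne_zero, ?_, ?_, ?_, ?_, ?_⟩ <;> simp [Pool.Agent.Y682.gc])
      (fun T => (htw T).1) β hCβ q hq
  -- the rank
  have hKG : K = IntermediateField.adjoin ℚ (wt '' (((Finset.univ : Finset (Fin n)).image S :
      Finset (Finset ℕ)) : Set (Finset ℕ))) := by
    apply le_antisymm
    · refine gen_le K _ _ (Set.range r) hgen ?_
      rintro _ ⟨i, rfl⟩
      rw [hrw i]
      exact IntermediateField.subset_adjoin ℚ _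
        ⟨S i, Finset.mem_coe.2 (Finset.mem_image_of_mem S (Finset.mem_univ i)), rfl⟩
    · rw [IntermediateField.adjoin_le_iff]
      rintro _ ⟨T, hT, rfl⟩
      obtain ⟨i, -, rfl⟩ := Finset.mem_image.1 (Finset.mem_coe.1 hT)
      rw [← hrw i]
      exact (r i).2
  have hrk := (Rg_sum hb hc S hS0 Finset.univ).2 K hKG D hDz
  rw [Finset.powerset_univ] at hrk
  rw [hdeg, hβ]
  exact Nat.add_le_add hrk hqβ

end

end Pool.Agent.U80.GT
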