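import Pool.Agent.U80.GT.Mat

/-!
# The configuration of a curve `y² = x³ + a x² + b x`
-/

set_option autoImplicit false

namespace Pool.Agent.U80.GT

open Finset
open scoped NumberTheorySymbols
open Pool.Agent.Y695 (LocA)
open Pool.Agent.U80.NP
open Pool.Agent.Y703.CQ (nr)
open Pool.Agent.U115.GD (Cfg Hc Sol Gd cu Sp In Cl Ok)

lemma two_sq : ∀ z : ZMod 2, IsSquare z := by decide

/-- the product of the bad primes (with multiplicities) -/
def bd (a b : ℤ) : ℕ := (b * (a ^ 2 - 4 * b)).natAbs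

/-- the configuration -/
def cfg (a b : ℤ) : Cfg where
  L := (bd a b).primeFactors.erase 2
  Q := 8 * bd a b
  B := (Finset.range (8 * bd a b)).filter fun r =>
    Nat.Coprime r (8 * bd a b) ∧ J(b | r) = -1 ∧ J(a ^ 2 - 4 * b | r) = -1

section

variable {a b : ℤ}

lemma bd_ne (hb : b ≠ 0) (hc : a ^ 2 - 4 * b ≠ 0) : bd a b ≠ 0 :=
  Int.natAbs_ne_zero.2 (mul_ne_zero hb hc)

lemma mem_L (hb : b ≠ 0) (hc : a ^ 2 - 4 * b ≠ 0) {l : ℕ} :
    l ∈ (cfg a b).L ↔ l.Prime ∧ l ≠ 2 ∧ (l : ℤ) ∣ b * (a ^ 2 - 4 * b) := by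
  unfold cfg
  simp only [Finset.mem_erase, Nat.mem_primeFactors]
  constructor
  · rintro ⟨h1, h2, h3, -⟩
    exact ⟨h2, h1, Int.natCast_dvd.2 h3⟩
  · rintro ⟨h1, h2, h3⟩
    exact ⟨h2, h1, Int.natCast_dvd.1 h3, bd_ne hb hc⟩

/-- the symbols of the numbers composed of bad primes -/
lemma jac_nat {n : ℕ} (hb : b ≠ 0) (hc : a ^ 2 - 4 * b ≠ 0) (h : Hc (cfg a b) n) :
    ∀ e : ℕ, e ≠ 0 →
    (∀ q : ℕ, q.Prime → q ∣ e → q = 2 ∨ (q : ℤ) ∣ b * (a ^ 2 - 4 * b)) → J((e : ℤ) | n) = 1 := by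
  obtain ⟨h8, hL⟩ := h
  have hodd : Odd n := Nat.odd_iff.2 (by omega)
  intro e
  induction e using induction_on_primes with
  | zero => intro h; exact absurd rfl h
  | one => intro _ _; simp
  | prime_mul p e hp ih =>
    intro h0 hq
    have he : e ≠ 0 := right_ne_zero_of_mul h0
    rw [Nat.cast_mul, jacobiSym.mul_left, ih he (fun q hq' hd => hq q hq' (hd.mul_left p)), mul_one]
    by_cases hp2 : p = 2
    · subst hp2
      rw [Nat.cast_ofNat, jacobiSym.at_two hodd, ZMod.χ₈_nat_eq_if_mod_eight]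
      simp [h8, Nat.odd_iff.1 hodd]
    · have h1 := hL p ((mem_L hb hc).2 ⟨hp, hp2, (hq p hp (dvd_mul_right _ _)).resolve_left hp2⟩)
      rw [← jacobiSym.quadratic_reciprocity_one_mod_four (by omega) (hp.odd_of_ne_two hp2)]
      exact h1

lemma jac_int {n : ℕ} (hb : b ≠ 0) (hc : a ^ 2 - 4 * b ≠ 0) (h : Hc (cfg a b) n) {e : ℤ}
    (he : e ≠ 0) (hq : ∀ q : ℕ, q.Prime → (q : ℤ) ∣ e → q = 2 ∨ (q : ℤ) ∣ b * (a ^ 2 - 4 * b)) :
    J(e | n) = 1 := by
  have h1 := jac_nat hb hc h e.natAbs (Int.natAbs_ne_zero.2 he)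
    (fun q hq' hd => hq q hq' (Int.natCast_dvd.2 hd))
  have h8 := h.1
  have hodd : Odd n := Nat.odd_iff.2 (by omega)
  rcases Int.natAbs_eq e with h2 | h2
  · rw [h2]
    exact h1
  · rw [h2, jacobiSym.neg _ hodd, ZMod.χ₄_nat_one_mod_four (by omega), one_mul]
    exact h1

lemma sq_of_jac {p : ℕ} [hp : Fact p.Prime] {e : ℤ} (h : J(e | p) = 1) : IsSquare (e : ZMod p) := by
  rw [← jacobiSym.legendreSym.to_jacobiSym] at h
  have h0 : (e : ZMod p) ≠ 0 := by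
    intro h1
    rw [(legendreSym.eq_zero_iff p e).2 h1] at h
    exact zero_ne_one h
  exact (legendreSym.eq_one_iff p h0).1 h

lemma jac_neg_iff {p : ℕ} [hp : Fact p.Prime] {e : ℤ} : J(e | p) = -1 ↔ ¬ IsSquare (e : ZMod p) := by
  rw [← jacobiSym.legendreSym.to_jacobiSym]
  exact legendreSym.eq_neg_one_iff p

lemma four_dvd {n : ℤ} (hn : n ≠ 0) {m : ℕ} (hm : n.natAbs ∣ m) : 4 * n.natAbs ∣ 8 * m := by
  obtain ⟨k, rfl⟩ := hm
  exact ⟨2 * k, by ring⟩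

lemma b_dvd : b.natAbs ∣ bd a b := Int.natAbs_dvd_natAbs.2 (dvd_mul_right _ _)

lemma c_dvd : (a ^ 2 - 4 * b).natAbs ∣ bd a b := Int.natAbs_dvd_natAbs.2 (dvd_mul_left _ _)

/-- the symbol depends on the residue modulo the modulus only -/
lemma jac_per {n : ℤ} (hn : n ≠ 0) (hd : n.natAbs ∣ bd a b) {r : ℕ} (hr : Odd r) :
    J(n | r) = J(n | r % (8 * bd a b)) := by
  have h2 : Odd (r % (8 * bd a b)) := by
    rw [Nat.odd_iff] at hr ⊢
    rw [Nat.mod_mod_of_dvd _ (dvd_mul_of_dvd_left (by norm_num : 2 ∣ 8) _)]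
    exact hr
  rw [jacobiSym.mod_right n hr, jacobiSym.mod_right n h2, Nat.mod_mod_of_dvd _ (four_dvd hn hd)]

lemma odd_of_cop {r m : ℕ} (h : Nat.Coprime r (8 * m)) : Odd r := by
  by_contra hcon
  rw [Nat.not_odd_iff_even] at hcon
  have h1 : 2 ∣ Nat.gcd r (8 * m) := Nat.dvd_gcd hcon.two_dvd (dvd_mul_of_dvd_left (by norm_num) _)
  rw [h] at h1
  norm_num at h1

/-- **the inert primes in words** -/
theorem in_iff (hb : b ≠ 0) (hc : a ^ 2 - 4 * b ≠ 0) {r : ℕ} :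
    In (cfg a b) r ↔ r.Prime ∧ ¬ IsSquare (b : ZMod r) ∧ ¬ IsSquare ((a ^ 2 - 4 * b : ℤ) : ZMod r) := by
  unfold In
  refine and_congr_right fun hr => ?_
  haveI : Fact r.Prime := ⟨hr⟩
  have hmem : r % (cfg a b).Q ∈ (cfg a b).B ↔ Nat.Coprime (r % (8 * bd a b)) (8 * bd a b) ∧
      J(b | r % (8 * bd a b)) = -1 ∧ J(a ^ 2 - 4 * b | r % (8 * bd a b)) = -1 := by
    unfold cfg
    simp only [Finset.mem_filter, Finset.mem_range]
    refine ⟨fun h => h.2, fun h => ⟨Nat.mod_lt _ ?_, h⟩⟩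
    have := bd_ne hb hc
    omega
  rw [hmem]
  constructor
  · rintro ⟨h1, h2, h3⟩
    have hro : Odd r := by
      have h4 : Nat.Coprime r (8 * bd a b) := by
        rw [Nat.coprime_iff_gcd_eq_one, ← Nat.gcd_rec, Nat.gcd_comm] at h1
        exact h1
      exact odd_of_cop h4
    rw [← jac_per hb b_dvd hro] at h2
    rw [← jac_per hc c_dvd hro] at h3
    exact ⟨jac_neg_iff.1 h2, jac_neg_iff.1 h3⟩
  · rintro ⟨h2, h3⟩
    have hr2 : r ≠ 2 := by
      rintro rfl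
      apply h2
      exact two_sq _
    have hro := hr.odd_of_ne_two hr2
    refine ⟨?_, by rw [← jac_per hb b_dvd hro]; exact jac_neg_iff.2 h2,
      by rw [← jac_per hc c_dvd hro]; exact jac_neg_iff.2 h3⟩
    rw [Nat.coprime_iff_gcd_eq_one, ← Nat.gcd_rec, Nat.gcd_comm]
    rw [← Nat.coprime_iff_gcd_eq_one, Nat.Prime.coprime_iff_not_dvd hr]
    intro h4
    have h5 : ¬ (r : ℤ) ∣ b := not_dvd_of_nsq h2
    have h6 : ¬ (r : ℤ) ∣ a ^ 2 - 4 * b := not_dvd_of_nsq h3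
    rcases (Nat.Prime.dvd_mul hr).1 h4 with h7 | h7
    · have h8 : r ∣ 2 ^ 3 := by norm_num; exact h7
      exact hr2 ((Nat.prime_dvd_prime_iff_eq hr Nat.prime_two).1 (hr.dvd_of_dvd_pow h8))
    · exact not_dvd_mul hr h5 h6 (Int.natCast_dvd.2 h7)

/-- the condition on residues in words -/
theorem hc_iff (hb : b ≠ 0) (hc : a ^ 2 - 4 * b ≠ 0) {n : ℕ} :
    Hc (cfg a b) n ↔ n % 8 = 1 ∧ ∀ l : ℕ, l.Prime → l ≠ 2 → (l : ℤ) ∣ b * (a ^ 2 - 4 * b) →
      ¬ l ∣ n ∧ IsSquare (n : ZMod l) := by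
  unfold Hc
  refine and_congr_right fun _ => ?_
  constructor
  · intro h l h1 h2 h3
    haveI : Fact l.Prime := ⟨h1⟩
    have h4 := h l ((mem_L hb hc).2 ⟨h1, h2, h3⟩)
    refine ⟨fun h5 => ?_, by exact_mod_cast sq_of_jac h4⟩
    rw [← jacobiSym.legendreSym.to_jacobiSym, (legendreSym.eq_zero_iff l _).2 (by
      rw [Int.cast_natCast]
      exact (ZMod.natCast_eq_zero_iff _ _).2 h5)] at h4
    exact zero_ne_one h4
  · intro h l hl
    obtain ⟨h1, h2, h3⟩ := (mem_L hb hc).1 hl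
    haveI : Fact l.Prime := ⟨h1⟩
    obtain ⟨h4, h5⟩ := h l h1 h2 h3
    rw [← jacobiSym.legendreSym.to_jacobiSym]
    refine (legendreSym.eq_one_iff l ?_).2 (by exact_mod_cast h5)
    rw [Int.cast_natCast]
    intro h6
    exact h4 ((ZMod.natCast_eq_zero_iff _ _).1 h6)

/-- the configuration satisfies the conditions -/
theorem ok (hb : b ≠ 0) (hc : a ^ 2 - 4 * b ≠ 0) (hne : (cfg a b).B.Nonempty) : Ok (cfg a b) where
  q0 := by
    have := bd_ne hb hc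
    show 0 < 8 * bd a b
    omega
  q8 := dvd_mul_right _ _
  hL := fun l hl => by
    obtain ⟨h1, h2, h3⟩ := (mem_L hb hc).1 hl
    exact ⟨h1, h2, dvd_mul_of_dvd_right (Int.natCast_dvd.1 h3) _⟩
  hQ := fun p hp h => by
    by_cases h2 : p = 2
    · exact Or.inl h2
    · right
      refine (mem_L hb hc).2 ⟨hp, h2, ?_⟩
      rcases (Nat.Prime.dvd_mul hp).1 h with h7 | h7
      · exfalso
        have h8 : p ∣ 2 ^ 3 := by norm_num; exact h7
        exact h2 ((Nat.prime_dvd_prime_iff_eq hp Nat.prime_two).1 (hp.dvd_of_dvd_pow h8))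
      · exact Int.natCast_dvd.2 h7
  hB := fun r hr => by
    unfold cfg at hr
    simp only [Finset.mem_filter, Finset.mem_range] at hr
    obtain ⟨h1, h2, h3, h4⟩ := hr
    refine ⟨h1, h2, fun h => ?_⟩
    rw [jac_int hb hc h hb fun q _ h => Or.inr (dvd_mul_of_dvd_left h _)] at h3
    revert h3
    decide
  hBn := hne

/-- the hypotheses of the descent -/
theorem hy_of (hb : b ≠ 0) (hc : a ^ 2 - 4 * b ≠ 0) {S : Finset ℕ} (hS : Cl (cfg a b) S) :
    Hy a b (Hc (cfg a b)) S where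
  hb := hb
  hc := hc
  pr := fun p hp => Pool.Agent.U115.GD.pr_of (hS.1 p hp)
  nd := fun p hp => by
    have hpp := Pool.Agent.U115.GD.pr_of (hS.1 p hp)
    rcases hS.1 p hp with h | h
    · have h2 : p ≠ 2 := by
        rintro rfl
        have := h.2.1
        omega
      exact ⟨h2, fun h3 => (((hc_iff hb hc).1 h.2).2 p hpp h2 h3).1 dvd_rfl⟩
    · obtain ⟨h1, h3, h4⟩ := (in_iff hb hc).1 h
      refine ⟨?_, not_dvd_mul hpp (not_dvd_of_nsq h3) (not_dvd_of_nsq h4)⟩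
      rintro rfl
      apply h3
      exact two_sq _
  d8 := hS.2.1
  dl := fun l h1 h2 h3 => (((hc_iff hb hc).1 hS.2).2 l h1 h2 h3).2
  s8 := fun p _ h => h.1
  sl := fun p _ h l h1 h2 h3 => (((hc_iff hb hc).1 h).2 l h1 h2 h3).2
  sq := fun p hp h e he hq => by
    haveI : Fact p.Prime := ⟨Pool.Agent.U115.GD.pr_of (hS.1 p hp)⟩
    exact sq_of_jac (jac_int hb hc h he hq)
  inr := fun p hp h => by
    rcases hS.1 p hp with h1 | h1
    · exact absurd h1.2 h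
    · exact ((in_iff hb hc).1 h1).2

end

end Pool.Agent.U80.GT
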