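import Pool.Agent.U80.GT.Dec
import Pool.Agent.U80.NP.Bd

/-!
# The number of the classes of the twist
-/

set_option autoImplicit false

namespace Pool.Agent.U80.GT

open Finset
open Pool.Agent.Y695 (LocA)
open Pool.Agent.U80.NP

section

variable {a b : ℤ} {T : ℕ → Prop} {S : Finset ℕ}

/-- a set of split primes in the kernel -/
def Kr (T : ℕ → Prop) (S : Finset ℕ) (ρ : ∀ p : ℕ, ZMod p) (J : Finset ℕ) : Prop :=
  J ⊆ S ∧ (∀ q ∈ J, T q) ∧ ∀ p ∈ S, T p → KC S J p (ρ p)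

lemma sel_primes {d : ℤ} (h : d ∈ Sel a b) {q : ℕ} (hq : q.Prime) (hqd : (q : ℤ) ∣ d) :
    (q : ℤ) ∣ b := by
  haveI : Fact q.Prime := ⟨hq⟩
  by_contra hb
  have h1 := h.2.2 q
  exact dvd_one (a := a) (b := b) (U := ∅) (fun q hq => by simp at hq) h.1 q hb (by
    simpa using h1) hqd

/-- the class is a class of the twist -/
theorem Hy.mem (H : Hy a b T S) {ρ : ∀ p : ℕ, ZMod p}
    (hρ : ∀ p ∈ S, T p → (ρ p) ^ 2 + (a : ZMod p) * ρ p + (b : ZMod p) = 0)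
    {J : Finset ℕ} (hJ : J ⊆ S) (hJT : ∀ q ∈ J, T q) {d : ℤ} (hd : Squarefree d)
    (hdp : ∀ q : ℕ, q.Prime → (q : ℤ) ∣ d → (q : ℤ) ∣ b) :
    d * ((∏ q ∈ J, q : ℕ) : ℤ) ∈ Sel (a * ((∏ q ∈ S, q : ℕ) : ℤ)) (b * ((∏ q ∈ S, q : ℕ) : ℤ) ^ 2) ↔
      d ∈ Sel a b ∧ ∀ p ∈ S, T p → KC S J p (ρ p) := by
  classical
  have hJp : ∀ q ∈ J, q.Prime := fun q hq => H.pr q (hJ hq)
  have hdp' : ∀ q : ℕ, q.Prime → (q : ℤ) ∣ d → q = 2 ∨ (q : ℤ) ∣ b * (a ^ 2 - 4 * b) :=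
    fun q hq h => Or.inr (dvd_mul_of_dvd_left (hdp q hq h) _)
  have hd0 := hd.ne_zero
  have hsf : Squarefree (d * ((∏ q ∈ J, q : ℕ) : ℤ)) := by
    have h1 : Squarefree ((∏ q ∈ J, q : ℕ) : ℤ) := by
      rw [Int.squarefree_natCast]
      exact Finset.squarefree_prod_of_pairwise_isCoprime
        (fun p hp q hq hpq => by
          show IsRelPrime p q
          rw [← Nat.coprime_iff_isRelPrime]
          exact (Nat.coprime_primes (hJp p hp) (hJp q hq)).2 hpq)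
        (fun p hp => (hJp p hp).squarefree)
    rw [squarefree_mul_iff]
    refine ⟨IsCoprime.isRelPrime ?_, hd, h1⟩
    push_cast
    refine IsCoprime.prod_right fun q hq => ?_
    have hqZ := Nat.prime_iff_prime_int.1 (hJp q hq)
    refine IsCoprime.symm ((Prime.coprime_iff_not_dvd hqZ).2 fun h => ?_)
    exact (H.nd q (hJ hq)).2 (dvd_mul_of_dvd_left (hdp q (hJp q hq) h) _)
  -- the real place
  have hR : LocA ℝ ((a * ((∏ q ∈ S, q : ℕ) : ℤ) : ℤ) : ℝ) ((b * ((∏ q ∈ S, q : ℕ) : ℤ) ^ 2 : ℤ) : ℝ)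
      ((d * ((∏ q ∈ J, q : ℕ) : ℤ) : ℤ) : ℝ) ↔ LocA ℝ (a : ℝ) (b : ℝ) (d : ℝ) := by
    have h1 : (0 : ℝ) < ((∏ q ∈ S, q : ℕ) : ℝ) := by
      exact_mod_cast Finset.prod_pos fun q hq => (H.pr q hq).pos
    have h2 : (0 : ℝ) < ((∏ q ∈ J, q : ℕ) : ℝ) := by
      exact_mod_cast Finset.prod_pos fun q hq => (hJp q hq).pos
    have h3 := locA_mul_sq (a := (a : ℝ)) (b := (b : ℝ)) (d := (d : ℝ)) h1.ne'
      ⟨Real.sqrt _, (Real.mul_self_sqrt h1.le).symm⟩ h2.ne'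
      ⟨Real.sqrt _, (Real.mul_self_sqrt h2.le).symm⟩
    rw [← h3]
    simp only [Int.cast_mul, Int.cast_pow, Int.cast_natCast]
  -- the finite places
  have hout := fun (p : ℕ) (hp : Fact p.Prime) (hpS : ¬ (p ∈ S ∧ T p)) =>
    H.out hJ hJT hd0 hdp' p (fun h h1 => h (hdp p hp.out h1)) hpS
  have hroot : ∀ p ∈ S, T p → ∃ r : ℤ, (r : ZMod p) = ρ p ∧ (p : ℤ) ∣ r ^ 2 + a * r + b := by
    intro p hp hT
    haveI : Fact p.Prime := ⟨H.pr p hp⟩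
    obtain ⟨r, hr⟩ := ZMod.intCast_surjective (ρ p)
    refine ⟨r, hr, ?_⟩
    rw [← ZMod.intCast_zmod_eq_zero_iff_dvd]
    push_cast
    rw [hr]
    exact hρ p hp hT
  have hspl := fun (p : ℕ) (hp : Fact p.Prime) (hpS : p ∈ S) (hT : T p) (r : ℤ)
    (hr : (p : ℤ) ∣ r ^ 2 + a * r + b) => H.spl hJ hd0 hdp' p hpS hT hr
  unfold Sel
  simp only [Set.mem_setOf_eq]
  constructor
  · rintro ⟨-, h2, h3⟩
    refine ⟨⟨hd, hR.1 h2, fun p hp => ?_⟩, fun p hpS hT => ?_⟩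
    · by_cases hpS : p ∈ S ∧ T p
      · have hnd := (H.nd p hpS.1).2
        have hb : ¬ (p : ℤ) ∣ b := fun h => hnd (dvd_mul_of_dvd_left h _)
        exact good (H.nd p hpS.1).1 hb (fun h => hnd (dvd_mul_of_dvd_right h _))
          fun h => hb (hdp p hp.out h)
      · have h4 := h3 p
        refine (hout p hp hpS).1 ?_
        simp only [Int.cast_mul, Int.cast_pow] at h4 ⊢
        exact h4
    · haveI : Fact p.Prime := ⟨H.pr p hpS⟩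
      obtain ⟨r, hr, hr2⟩ := hroot p hpS hT
      rw [← hr]
      refine (hspl p inferInstance hpS hT r hr2).1 ?_
      have h4 := h3 p
      simp only [Int.cast_mul, Int.cast_pow] at h4 ⊢
      exact h4
  · rintro ⟨⟨-, h2, h3⟩, h4⟩
    refine ⟨hsf, hR.2 h2, fun p hp => ?_⟩
    by_cases hpS : p ∈ S ∧ T p
    · obtain ⟨r, hr, hr2⟩ := hroot p hpS.1 hpS.2
      have h5 := h4 p hpS.1 hpS.2
      rw [← hr] at h5
      have h6 := (hspl p hp hpS.1 hpS.2 r hr2).2 h5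
      simp only [Int.cast_mul, Int.cast_pow] at h6 ⊢
      exact h6
    · have h6 := (hout p hp hpS).2 (h3 p)
      simp only [Int.cast_mul, Int.cast_pow] at h6 ⊢
      exact h6

/-- every class of the twist is of this form -/
theorem Hy.exists_form (H : Hy a b T S) {d : ℤ}
    (hd : d ∈ Sel (a * ((∏ q ∈ S, q : ℕ) : ℤ)) (b * ((∏ q ∈ S, q : ℕ) : ℤ) ^ 2)) :
    ∃ (d₀ : ℤ) (J : Finset ℕ), J ⊆ S ∧ (∀ q ∈ J, T q) ∧ Squarefree d₀ ∧
      (∀ q : ℕ, q.Prime → (q : ℤ) ∣ d₀ → (q : ℤ) ∣ b) ∧ d = d₀ * ((∏ q ∈ J, q : ℕ) : ℤ) := by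
  classical
  set J : Finset ℕ := S.filter fun q => T q ∧ (q : ℤ) ∣ d with hJ
  have hJp : ∀ q ∈ J, q.Prime := fun q hq => H.pr q (Finset.mem_filter.1 hq).1
  have hdiv : ((∏ q ∈ J, q : ℕ) : ℤ) ∣ d := by
    push_cast
    refine Finset.prod_dvd_of_coprime ?_ ?_
    · intro p hp q hq hpq
      have : Nat.Coprime p q := (Nat.coprime_primes (hJp p hp) (hJp q hq)).2 hpq
      exact_mod_cast Nat.isCoprime_iff_coprime.2 this
    · intro q hq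
      exact (Finset.mem_filter.1 hq).2.2
  obtain ⟨d₀, hd₀⟩ := hdiv
  rw [mul_comm] at hd₀
  have hsf := hd.1
  rw [hd₀] at hsf
  have hsf0 : Squarefree d₀ := hsf.squarefree_of_dvd (dvd_mul_right _ _)
  refine ⟨d₀, J, Finset.filter_subset _ _, fun q hq => (Finset.mem_filter.1 hq).2.1, hsf0, ?_, hd₀⟩
  intro q hq hqd
  haveI : Fact q.Prime := ⟨hq⟩
  by_contra hb
  have hqd' : (q : ℤ) ∣ d := hd₀ ▸ dvd_mul_of_dvd_left hqd _
  have h3 := hd.2.2 q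
  simp only [Int.cast_mul, Int.cast_pow] at h3
  refine Pool.Agent.Y695.locA_dvd a b ((∏ q ∈ S, q : ℕ) : ℤ) d (prod_ne H.pr) hd.1 hb
    (fun h1 => ?_) h3 hqd'
  have hqS : q ∈ S := by
    by_contra hcon
    exact prod_not_dvd H.pr hq hcon h1
  by_cases hT : T q
  · exfalso
    have hqJ : q ∈ J := Finset.mem_filter.2 ⟨hqS, hT, hqd'⟩
    have h4 : (q : ℤ) ∣ ((∏ q ∈ J, q : ℕ) : ℤ) := by
      exact_mod_cast Finset.dvd_prod_of_mem (fun q => q) hqJ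
    have h5 : (q : ℤ) * q ∣ d₀ * ((∏ q ∈ J, q : ℕ) : ℤ) := mul_dvd_mul hqd h4
    have h6 := hsf _ h5
    exact (Nat.prime_iff_prime_int.1 hq).not_unit h6
  · exact no_root (H.nd q hqS).1 (H.inr q hqS hT).2

/-- **the classes of the twist** -/
theorem Hy.sel_eq (H : Hy a b T S) {ρ : ∀ p : ℕ, ZMod p}
    (hρ : ∀ p ∈ S, T p → (ρ p) ^ 2 + (a : ZMod p) * ρ p + (b : ZMod p) = 0) :
    Sel (a * ((∏ q ∈ S, q : ℕ) : ℤ)) (b * ((∏ q ∈ S, q : ℕ) : ℤ) ^ 2) =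
      (fun e : ℤ × Finset ℕ => e.1 * ((∏ q ∈ e.2, q : ℕ) : ℤ)) '' (Sel a b ×ˢ {J | Kr T S ρ J}) := by
  ext d
  constructor
  · intro hd
    obtain ⟨d₀, J, h1, h2, h3, h4, rfl⟩ := H.exists_form hd
    obtain ⟨h5, h6⟩ := (H.mem hρ h1 h2 h3 h4).1 hd
    exact ⟨(d₀, J), ⟨h5, h1, h2, h6⟩, rfl⟩
  · rintro ⟨⟨d₀, J⟩, ⟨h5, h1, h2, h6⟩, rfl⟩
    exact (H.mem hρ h1 h2 h5.1 fun q hq h => sel_primes h5 hq h).2 ⟨h5, h6⟩

/-- **the number of the classes of the twist** -/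
theorem Hy.ncard (H : Hy a b T S) {ρ : ∀ p : ℕ, ZMod p}
    (hρ : ∀ p ∈ S, T p → (ρ p) ^ 2 + (a : ZMod p) * ρ p + (b : ZMod p) = 0) :
    (Sel (a * ((∏ q ∈ S, q : ℕ) : ℤ)) (b * ((∏ q ∈ S, q : ℕ) : ℤ) ^ 2)).ncard =
      (Sel a b).ncard * {J | Kr T S ρ J}.ncard := by
  classical
  rw [H.sel_eq hρ, Set.InjOn.ncard_image, Set.ncard_prod]
  rintro ⟨d, J⟩ ⟨h1, h2, h3, h4⟩ ⟨d', J'⟩ ⟨h1', h2', h3', h4'⟩ he
  simp only at he h1 h2 h3 h1' h2' h3'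
  have key : ∀ {d d' : ℤ} {J J' : Finset ℕ}, d ∈ Sel a b → d' ∈ Sel a b → J ⊆ S → J' ⊆ S →
      d * ((∏ q ∈ J, q : ℕ) : ℤ) = d' * ((∏ q ∈ J', q : ℕ) : ℤ) → J ⊆ J' := by
    intro d d' J J' h1 h1' h2 h2' he q hq
    by_contra hcon
    have hqp := H.pr q (h2 hq)
    have h5 : (q : ℤ) ∣ d' * ((∏ q ∈ J', q : ℕ) : ℤ) := by
      rw [← he]
      refine dvd_mul_of_dvd_right ?_ _
      exact_mod_cast Finset.dvd_prod_of_mem (fun q => q) hq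
    rcases (Nat.prime_iff_prime_int.1 hqp).dvd_mul.1 h5 with h6 | h6
    · exact (H.nd q (h2 hq)).2 (dvd_mul_of_dvd_left (sel_primes h1' hqp h6) _)
    · exact prod_not_dvd (fun r hr => H.pr r (h2' hr)) hqp hcon h6
  have hJJ : J = J' := Finset.Subset.antisymm (key h1 h1' h2 h2' he) (key h1' h1 h2' h2 he.symm)
  subst hJJ
  have h5 := mul_right_cancel₀ (prod_ne fun q hq => H.pr q (h2 hq)) he
  rw [h5]

end

end Pool.Agent.U80.GT
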