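import Pool.Agent.U80.GT.Loc

/-!
# The Selmer groups of the twists by products of split and inert primes
-/

set_option autoImplicit false

namespace Pool.Agent.U80.GT

open Finset
open Pool.Agent.Y695 (LocA)
open Pool.Agent.U80.NP

/-- The conditions on the set `S` of the prime factors of the twist; `T` is the property of the split
primes. -/
structure Hy (a b : ℤ) (T : ℕ → Prop) (S : Finset ℕ) : Prop where
  hb : b ≠ 0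
  hc : a ^ 2 - 4 * b ≠ 0
  pr : ∀ p ∈ S, p.Prime
  nd : ∀ p ∈ S, p ≠ 2 ∧ ¬ (p : ℤ) ∣ b * (a ^ 2 - 4 * b)
  d8 : (∏ p ∈ S, p) % 8 = 1
  dl : ∀ l : ℕ, l.Prime → l ≠ 2 → (l : ℤ) ∣ b * (a ^ 2 - 4 * b) →
    IsSquare ((∏ p ∈ S, p : ℕ) : ZMod l)
  s8 : ∀ p ∈ S, T p → p % 8 = 1
  sl : ∀ p ∈ S, T p → ∀ l : ℕ, l.Prime → l ≠ 2 → (l : ℤ) ∣ b * (a ^ 2 - 4 * b) →
    IsSquare (p : ZMod l)
  sq : ∀ p ∈ S, T p → ∀ e : ℤ, e ≠ 0 →
    (∀ q : ℕ, q.Prime → (q : ℤ) ∣ e → q = 2 ∨ (q : ℤ) ∣ b * (a ^ 2 - 4 * b)) →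
    IsSquare (e : ZMod p)
  inr : ∀ p ∈ S, ¬ T p → ¬ IsSquare (b : ZMod p) ∧ ¬ IsSquare ((a ^ 2 - 4 * b : ℤ) : ZMod p)

section general

variable {K : Type} [Field K]

lemma locA_sq {a b d s : K} (hs : s ≠ 0) : LocA K a b (d * (s * s)) ↔ LocA K a b d := by
  have hss : s * s ≠ 0 := mul_ne_zero hs hs
  have key : ∀ x : K, IsSquare (x * (d * (s * s))) ↔ IsSquare (x * d) := by
    intro x
    constructor
    · intro h
      have e : x * (d * (s * s)) = (s * s) * (x * d) := by ring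
      rw [e] at h
      exact sq_of_mul hss ⟨s, rfl⟩ h
    · rintro ⟨r, hr⟩
      exact ⟨r * s, by linear_combination s * s * hr⟩
  have key1 : IsSquare (d * (s * s)) ↔ IsSquare d := by
    have := key 1
    rwa [one_mul, one_mul] at this
  unfold LocA
  rw [key1, key]
  refine or_congr_right (or_congr_right ?_)
  constructor
  · rintro ⟨X, Y, h1, h2, h3⟩
    exact ⟨X, Y, h1, h2, (key X).1 h3⟩
  · rintro ⟨X, Y, h1, h2, h3⟩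
    exact ⟨X, Y, h1, h2, (key X).2 h3⟩

lemma locA_mul_sq {a b d M u : K} (hM : M ≠ 0) (hMs : IsSquare M) (hu : u ≠ 0) (hus : IsSquare u) :
    LocA K (a * M) (b * M ^ 2) (d * u) ↔ LocA K a b d := by
  obtain ⟨s, rfl⟩ := hus
  rw [scaleM hM hMs, locA_sq (left_ne_zero_of_mul hu)]

end general

section

variable {a b : ℤ} {T : ℕ → Prop} {S : Finset ℕ}

/-- the product of the primes of `S` is a square at the bad places -/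
lemma sq_bad {U : Finset ℕ} {p : ℕ} [hp : Fact p.Prime] (h2 : p ≠ 2)
    (hU : ∀ q ∈ U, q.Prime) (hpU : p ∉ U) (h : IsSquare ((∏ q ∈ U, q : ℕ) : ZMod p)) :
    IsSquare (((∏ q ∈ U, q : ℕ) : ℤ) : ℚ_[p]) := by
  rw [sq_int h2 (prod_not_dvd hU hp.out hpU)]
  exact_mod_cast h

lemma prod_ne {U : Finset ℕ} (hU : ∀ q ∈ U, q.Prime) : ((∏ q ∈ U, q : ℕ) : ℤ) ≠ 0 := by
  have : 0 < ∏ q ∈ U, q := Finset.prod_pos fun q hq => (hU q hq).pos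
  exact_mod_cast this.ne'

/-- the places outside of the split primes of the twist -/
lemma Hy.out (H : Hy a b T S) {J : Finset ℕ} (hJ : J ⊆ S) (hJT : ∀ q ∈ J, T q) {d : ℤ} (hd : d ≠ 0)
    (hdp : ∀ q : ℕ, q.Prime → (q : ℤ) ∣ d → q = 2 ∨ (q : ℤ) ∣ b * (a ^ 2 - 4 * b))
    (p : ℕ) [hp : Fact p.Prime] (hpd : ¬ (p : ℤ) ∣ b → ¬ (p : ℤ) ∣ d) (hpS : ¬ (p ∈ S ∧ T p)) :
    LocA ℚ_[p] ((a : ℚ_[p]) * (((∏ q ∈ S, q : ℕ) : ℤ) : ℚ_[p]))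
      ((b : ℚ_[p]) * (((∏ q ∈ S, q : ℕ) : ℤ) : ℚ_[p]) ^ 2)
      ((d * ((∏ q ∈ J, q : ℕ) : ℤ) : ℤ) : ℚ_[p]) ↔
    LocA ℚ_[p] (a : ℚ_[p]) (b : ℚ_[p]) (d : ℚ_[p]) := by
  have hJp : ∀ q ∈ J, q.Prime := fun q hq => H.pr q (hJ hq)
  have hS0 := prod_ne H.pr
  have hJ0 := prod_ne hJp
  have hS0' : (((∏ q ∈ S, q : ℕ) : ℤ) : ℚ_[p]) ≠ 0 := by exact_mod_cast hS0
  have hJ0' : (((∏ q ∈ J, q : ℕ) : ℤ) : ℚ_[p]) ≠ 0 := by exact_mod_cast hJ0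
  have hpZ := Nat.prime_iff_prime_int.1 hp.out
  by_cases h2 : p = 2
  · subst h2
    rw [Int.cast_mul]
    refine locA_mul_sq hS0' (sq_two H.d8) hJ0' (sq_two (prod_mod8 fun q hq => ?_))
    exact H.s8 q (hJ hq) (hJT q hq)
  by_cases hbad : (p : ℤ) ∣ b * (a ^ 2 - 4 * b)
  · have hpS' : p ∉ S := fun h => (H.nd p h).2 hbad
    rw [Int.cast_mul]
    refine locA_mul_sq hS0' (sq_bad h2 H.pr hpS' (H.dl p hp.out h2 hbad)) hJ0'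
      (sq_bad h2 hJp (fun h => hpS' (hJ h)) (sq_prod fun q hq => ?_))
    exact H.sl q (hJ hq) (hJT q hq) p hp.out h2 hbad
  have h3 : ¬ (p : ℤ) ∣ b := fun h => hbad (dvd_mul_of_dvd_left h _)
  have h4 : ¬ (p : ℤ) ∣ a ^ 2 - 4 * b := fun h => hbad (dvd_mul_of_dvd_right h _)
  have hpJ : p ∉ J := fun h => hpS ⟨hJ h, hJT p h⟩
  have hdJ : ¬ (p : ℤ) ∣ d * ((∏ q ∈ J, q : ℕ) : ℤ) := fun h =>
    (hpZ.dvd_mul.1 h).elim (hpd h3) (prod_not_dvd hJp hp.out hpJ)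
  by_cases hpS' : p ∈ S
  · have hT : ¬ T p := fun h => hpS ⟨hpS', h⟩
    obtain ⟨h5, h6⟩ := H.inr p hpS' hT
    have h7 : LocA ℚ_[p] (a : ℚ_[p]) (b : ℚ_[p]) (d : ℚ_[p]) := by
      rcases sq_or h2 h5 (hpd h3) with h | h
      · exact Or.inl h
      · exact Or.inr (Or.inl h)
    have h8 : LocA ℚ_[p] ((a : ℚ_[p]) * (((∏ q ∈ S, q : ℕ) : ℤ) : ℚ_[p]))
      ((b : ℚ_[p]) * (((∏ q ∈ S, q : ℕ) : ℤ) : ℚ_[p]) ^ 2)
      ((d * ((∏ q ∈ J, q : ℕ) : ℤ) : ℤ) : ℚ_[p]) := by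
      rcases sq_or h2 h5 hdJ with h | h
      · exact Or.inl h
      · refine Or.inr (Or.inl ?_)
        obtain ⟨s, hs⟩ := h
        exact ⟨(((∏ q ∈ S, q : ℕ) : ℤ) : ℚ_[p]) * s, by
          linear_combination (((∏ q ∈ S, q : ℕ) : ℤ) : ℚ_[p]) ^ 2 * hs⟩
    exact ⟨fun _ => h7, fun _ => h8⟩
  · set M : ℤ := ((∏ q ∈ S, q : ℕ) : ℤ) with hM
    have hpM : ¬ (p : ℤ) ∣ M := prod_not_dvd H.pr hp.out hpS'
    have hpM2 : ¬ (p : ℤ) ∣ M ^ 2 := fun h => hpM (hpZ.dvd_of_dvd_pow h)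
    have h5 : ¬ (p : ℤ) ∣ b * M ^ 2 := fun h => (hpZ.dvd_mul.1 h).elim h3 hpM2
    have h6 : ¬ (p : ℤ) ∣ (a * M) ^ 2 - 4 * (b * M ^ 2) := by
      have e : (a * M) ^ 2 - 4 * (b * M ^ 2) = (a ^ 2 - 4 * b) * M ^ 2 := by ring
      rw [e]
      exact fun h => (hpZ.dvd_mul.1 h).elim h4 hpM2
    have h7 := good h2 h3 h4 (hpd h3)
    have h8 := good (a := a * M) h2 h5 h6 hdJ
    have h9 : LocA ℚ_[p] ((a : ℚ_[p]) * (M : ℚ_[p])) ((b : ℚ_[p]) * (M : ℚ_[p]) ^ 2)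
        ((d * ((∏ q ∈ J, q : ℕ) : ℤ) : ℤ) : ℚ_[p]) := by
      rw [Int.cast_mul a M, Int.cast_mul b (M ^ 2), Int.cast_pow] at h8
      exact h8
    exact ⟨fun _ => h7, fun _ => h9⟩

/-- the kernel condition at the split prime `p`, with the root `ρ` modulo `p` -/
def KC (S J : Finset ℕ) (p : ℕ) (ρ : ZMod p) : Prop :=
  (p ∉ J → IsSquare ((∏ q ∈ J, q : ℕ) : ZMod p)) ∧
    (p ∈ J → IsSquare (ρ * ((∏ q ∈ J.erase p, q : ℕ) : ZMod p) * ((∏ q ∈ S.erase p, q : ℕ) : ZMod p)))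

lemma not_dvd_mul {p : ℕ} (hp : p.Prime) {x y : ℤ} (hx : ¬ (p : ℤ) ∣ x) (hy : ¬ (p : ℤ) ∣ y) :
    ¬ (p : ℤ) ∣ x * y := fun h => ((Nat.prime_iff_prime_int.1 hp).dvd_mul.1 h).elim hx hy

lemma zsq_left {p : ℕ} [hp : Fact p.Prime] {x y : ZMod p} (hx : x ≠ 0) (h : IsSquare x) :
    IsSquare (x * y) ↔ IsSquare y :=
  ⟨fun h1 => sq_of_mul hx h h1, fun h1 => h.mul h1⟩

/-- the split primes of the twist -/
lemma Hy.spl (H : Hy a b T S) {J : Finset ℕ} (hJ : J ⊆ S) {d : ℤ} (hd : d ≠ 0)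
    (hdp : ∀ q : ℕ, q.Prime → (q : ℤ) ∣ d → q = 2 ∨ (q : ℤ) ∣ b * (a ^ 2 - 4 * b))
    (p : ℕ) [hp : Fact p.Prime] (hpS : p ∈ S) (hT : T p) {ρ : ℤ}
    (hρ : (p : ℤ) ∣ ρ ^ 2 + a * ρ + b) :
    LocA ℚ_[p] ((a : ℚ_[p]) * (((∏ q ∈ S, q : ℕ) : ℤ) : ℚ_[p]))
      ((b : ℚ_[p]) * (((∏ q ∈ S, q : ℕ) : ℤ) : ℚ_[p]) ^ 2)
      ((d * ((∏ q ∈ J, q : ℕ) : ℤ) : ℤ) : ℚ_[p]) ↔ KC S J p (ρ : ZMod p) := by
  classical
  have hJp : ∀ q ∈ J, q.Prime := fun q hq => H.pr q (hJ hq)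
  have hpZ := Nat.prime_iff_prime_int.1 hp.out
  have hnd := (H.nd p hpS).2
  have h2 := (H.nd p hpS).1
  have hb : ¬ (p : ℤ) ∣ b := fun h => hnd (dvd_mul_of_dvd_left h _)
  have hc : ¬ (p : ℤ) ∣ a ^ 2 - 4 * b := fun h => hnd (dvd_mul_of_dvd_right h _)
  have hdn : ¬ (p : ℤ) ∣ d := fun h => (hdp p hp.out h).elim h2 hnd
  have hbs : IsSquare (b : ZMod p) := H.sq p hpS hT b H.hb fun q _ h =>
    Or.inr (dvd_mul_of_dvd_left h _)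
  have hds : IsSquare (d : ZMod p) := H.sq p hpS hT d hd hdp
  have hdz : (d : ZMod p) ≠ 0 := fun h => hdn ((ZMod.intCast_zmod_eq_zero_iff_dvd _ _).1 h)
  have hρp : ¬ (p : ℤ) ∣ ρ := by
    intro h
    apply hb
    have h3 : (p : ℤ) ∣ ρ ^ 2 + a * ρ := by
      have e : ρ ^ 2 + a * ρ = ρ * (ρ + a) := by ring
      rw [e]
      exact dvd_mul_of_dvd_left h _
    have h4 := dvd_sub hρ h3
    rwa [add_sub_cancel_left] at h4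
  have hS1 : ((∏ q ∈ S, q : ℕ) : ℤ) = (p : ℤ) * ((∏ q ∈ S.erase p, q : ℕ) : ℤ) := by
    rw [← Finset.mul_prod_erase S (fun q => q) hpS]
    push_cast
    rfl
  have hSe : ¬ (p : ℤ) ∣ ((∏ q ∈ S.erase p, q : ℕ) : ℤ) :=
    prod_not_dvd (fun q hq => H.pr q (Finset.mem_of_mem_erase hq)) hp.out
      (Finset.notMem_erase p S)
  have hpD : (p : ℤ) ∣ ((∏ q ∈ S, q : ℕ) : ℤ) := by rw [hS1]; exact dvd_mul_right _ _
  have hp0 : (p : ℤ) ≠ 0 := by exact_mod_cast hp.out.ne_zero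
  have hpD2 : ¬ (p : ℤ) ^ 2 ∣ ((∏ q ∈ S, q : ℕ) : ℤ) := by
    rw [hS1, pow_two]
    intro h
    exact hSe ((mul_dvd_mul_iff_left hp0).1 h)
  have hdJ0 : ((d * ((∏ q ∈ J, q : ℕ) : ℤ) : ℤ) : ℚ_[p]) ≠ 0 := by
    exact_mod_cast mul_ne_zero hd (prod_ne hJp)
  rw [loc_split h2 hpD hpD2 hρ hb hc hbs hdJ0]
  by_cases hpJ : p ∈ J
  · -- the second alternative
    have hJ1 : ((∏ q ∈ J, q : ℕ) : ℤ) = (p : ℤ) * ((∏ q ∈ J.erase p, q : ℕ) : ℤ) := by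
      rw [← Finset.mul_prod_erase J (fun q => q) hpJ]
      push_cast
      rfl
    have hJe : ¬ (p : ℤ) ∣ ((∏ q ∈ J.erase p, q : ℕ) : ℤ) :=
      prod_not_dvd (fun q hq => hJp q (Finset.mem_of_mem_erase hq)) hp.out
        (Finset.notMem_erase p J)
    have hno : ¬ IsSquare ((d * ((∏ q ∈ J, q : ℕ) : ℤ) : ℤ) : ℚ_[p]) := by
      intro h
      have h3 := Pool.Agent.Y695.even_of_sq hdJ0 h
      have hu := (val_one_of (norm_int (not_dvd_mul hp.out hdn hJe))).2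
      have hu0 := (val_one_of (norm_int (not_dvd_mul hp.out hdn hJe))).1
      have hpp : ((p : ℤ) : ℚ_[p]) ≠ 0 := by exact_mod_cast hp.out.ne_zero
      have e : ((d * ((∏ q ∈ J, q : ℕ) : ℤ) : ℤ) : ℚ_[p]) =
          ((p : ℤ) : ℚ_[p]) * ((d * ((∏ q ∈ J.erase p, q : ℕ) : ℤ) : ℤ) : ℚ_[p]) := by
        rw [← Int.cast_mul]
        congr 1
        rw [hJ1]
        ring
      rw [e, Padic.valuation_mul hpp hu0, hu, Int.cast_natCast, Padic.valuation_p] at h3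
      revert h3
      decide
    have e : (ρ : ℚ_[p]) * (((∏ q ∈ S, q : ℕ) : ℤ) : ℚ_[p]) *
        ((d * ((∏ q ∈ J, q : ℕ) : ℤ) : ℤ) : ℚ_[p]) =
        (((p : ℤ) : ℚ_[p]) * ((p : ℤ) : ℚ_[p])) *
        (((ρ * ((∏ q ∈ J.erase p, q : ℕ) : ℤ) * ((∏ q ∈ S.erase p, q : ℕ) : ℤ)) * d : ℤ) : ℚ_[p]) := by
      rw [← Int.cast_mul, ← Int.cast_mul, ← Int.cast_mul, ← Int.cast_mul]
      congr 1
      rw [hJ1, hS1]
      ring
    have hpp : ((p : ℤ) : ℚ_[p]) ≠ 0 := by exact_mod_cast hp.out.ne_zero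
    have hun : ¬ (p : ℤ) ∣ (ρ * ((∏ q ∈ J.erase p, q : ℕ) : ℤ) * ((∏ q ∈ S.erase p, q : ℕ) : ℤ)) * d :=
      not_dvd_mul hp.out (not_dvd_mul hp.out (not_dvd_mul hp.out hρp hJe) hSe) hdn
    have h5 : IsSquare ((ρ : ℚ_[p]) * (((∏ q ∈ S, q : ℕ) : ℤ) : ℚ_[p]) *
        ((d * ((∏ q ∈ J, q : ℕ) : ℤ) : ℤ) : ℚ_[p])) ↔
        IsSquare ((ρ : ZMod p) * ((∏ q ∈ J.erase p, q : ℕ) : ZMod p) *
          ((∏ q ∈ S.erase p, q : ℕ) : ZMod p)) := by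
      rw [e]
      constructor
      · intro h
        have h6 := (sq_int h2 hun).1 (sq_of_mul (mul_ne_zero hpp hpp) ⟨_, rfl⟩ h)
        rw [Int.cast_mul, mul_comm, zsq_left hdz hds] at h6
        rw [Int.cast_mul, Int.cast_mul, Int.cast_natCast, Int.cast_natCast] at h6
        exact h6
      · intro h
        have h6 : IsSquare (((ρ * ((∏ q ∈ J.erase p, q : ℕ) : ℤ) *
            ((∏ q ∈ S.erase p, q : ℕ) : ℤ)) * d : ℤ) : ZMod p) := by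
          rw [Int.cast_mul, mul_comm, zsq_left hdz hds]
          rw [Int.cast_mul, Int.cast_mul, Int.cast_natCast, Int.cast_natCast]
          exact h
        exact (IsSquare.mul ⟨_, rfl⟩ ((sq_int h2 hun).2 h6))
    rw [h5]
    unfold KC
    constructor
    · rintro (h | h)
      · exact absurd h hno
      · exact ⟨fun h6 => absurd hpJ h6, fun _ => h⟩
    · rintro ⟨-, h⟩
      exact Or.inr (h hpJ)
  · -- the first alternative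
    have hJe : ¬ (p : ℤ) ∣ ((∏ q ∈ J, q : ℕ) : ℤ) := prod_not_dvd hJp hp.out hpJ
    have hdJ := not_dvd_mul hp.out hdn hJe
    have hno : ¬ IsSquare ((ρ : ℚ_[p]) * (((∏ q ∈ S, q : ℕ) : ℤ) : ℚ_[p]) *
        ((d * ((∏ q ∈ J, q : ℕ) : ℤ) : ℤ) : ℚ_[p])) := by
      intro h
      have hun : ¬ (p : ℤ) ∣ ρ * ((∏ q ∈ S.erase p, q : ℕ) : ℤ) * (d * ((∏ q ∈ J, q : ℕ) : ℤ)) :=
        not_dvd_mul hp.out (not_dvd_mul hp.out hρp hSe) hdJ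
      have hu := (val_one_of (norm_int hun)).2
      have hu0 := (val_one_of (norm_int hun)).1
      have hpp : ((p : ℤ) : ℚ_[p]) ≠ 0 := by exact_mod_cast hp.out.ne_zero
      have e : (ρ : ℚ_[p]) * (((∏ q ∈ S, q : ℕ) : ℤ) : ℚ_[p]) *
          ((d * ((∏ q ∈ J, q : ℕ) : ℤ) : ℤ) : ℚ_[p]) = ((p : ℤ) : ℚ_[p]) *
          ((ρ * ((∏ q ∈ S.erase p, q : ℕ) : ℤ) * (d * ((∏ q ∈ J, q : ℕ) : ℤ)) : ℤ) : ℚ_[p]) := by
        rw [← Int.cast_mul, ← Int.cast_mul, ← Int.cast_mul]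
        congr 1
        rw [hS1]
        ring
      rw [e] at h
      have h3 := Pool.Agent.Y695.even_of_sq (mul_ne_zero hpp hu0) h
      rw [Padic.valuation_mul hpp hu0, hu, Int.cast_natCast, Padic.valuation_p] at h3
      revert h3
      decide
    have h5 : IsSquare ((d * ((∏ q ∈ J, q : ℕ) : ℤ) : ℤ) : ℚ_[p]) ↔
        IsSquare ((∏ q ∈ J, q : ℕ) : ZMod p) := by
      rw [sq_int h2 hdJ, Int.cast_mul, zsq_left hdz hds, Int.cast_natCast]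
    rw [h5]
    unfold KC
    constructor
    · rintro (h | h)
      · exact ⟨fun _ => h, fun h6 => absurd h6 hpJ⟩
      · exact absurd h hno
    · rintro ⟨h, -⟩
      exact Or.inl (h hpJ)

end

end Pool.Agent.U80.GT
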