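import Pool.Agent.U80.GT.Cnt

/-!
# Places at which the local image does not change under unit twists
-/

set_option autoImplicit false

namespace Pool.Agent.U80.GT

open Finset
open Pool.Agent.Y695 (LocA)
open Pool.Agent.U80.NP

/-- the local image at `p` is the same for all the twists by integers prime to `p` -/
def LInv (a b : ℤ) (p : ℕ) : Prop := ∀ [Fact p.Prime] (M d : ℤ), ¬ (p : ℤ) ∣ M → d ≠ 0 →
  (LocA ℚ_[p] ((a : ℚ_[p]) * M) ((b : ℚ_[p]) * (M : ℚ_[p]) ^ 2) (d : ℚ_[p]) ↔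
    LocA ℚ_[p] (a : ℚ_[p]) (b : ℚ_[p]) (d : ℚ_[p]))

section

variable {a b : ℤ}

/-- the neutral primes -/
theorem neutral_inv (hb : b ≠ 0) (hc : a ^ 2 - 4 * b ≠ 0) {p : ℕ} (h2 : p ≠ 2)
    (hN : Neutral a b p) (hbad : (p : ℤ) ∣ b * (a ^ 2 - 4 * b)) : LInv a b p := by
  intro hp M d hpM hd
  have hM0 : M ≠ 0 := by
    rintro rfl
    exact hpM (dvd_zero _)
  have hpM2 : ¬ (p : ℤ) ∣ M ^ 2 := fun h => hpM ((Nat.prime_iff_prime_int.1 hp.out).dvd_of_dvd_pow h)
  have hMp : (M : ℚ_[p]) ≠ 0 := by exact_mod_cast hM0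
  have hdp : (d : ℚ_[p]) ≠ 0 := by exact_mod_cast hd
  have hbp : (b : ℚ_[p]) ≠ 0 := by exact_mod_cast hb
  have hcp : ((a ^ 2 - 4 * b : ℤ) : ℚ_[p]) ≠ 0 := by exact_mod_cast hc
  have hMn := norm_int hpM
  have hpZ := Nat.prime_iff_prime_int.1 hp.out
  -- the square alternatives
  have alt : (IsSquare (d : ℚ_[p]) ∨ IsSquare ((b : ℚ_[p]) * d)) →
      LocA ℚ_[p] ((a : ℚ_[p]) * (M : ℚ_[p])) ((b : ℚ_[p]) * (M : ℚ_[p]) ^ 2) (d : ℚ_[p]) ∧
      LocA ℚ_[p] (a : ℚ_[p]) (b : ℚ_[p]) (d : ℚ_[p]) := by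
    rintro (h | h)
    · exact ⟨Or.inl h, Or.inl h⟩
    · refine ⟨Or.inr (Or.inl ?_), Or.inr (Or.inl h)⟩
      obtain ⟨s, hs⟩ := h
      exact ⟨(M : ℚ_[p]) * s, by linear_combination (M : ℚ_[p]) ^ 2 * hs⟩
  rcases hN with ⟨h3, h4, h5⟩ | ⟨h3, h4⟩
  · constructor
    · intro h
      have h6 : (p : ℤ) ∣ a * M := dvd_mul_of_dvd_left h3 _
      have h7 : (p : ℤ) ∣ b * M ^ 2 := dvd_mul_of_dvd_left h4 _
      have h8 : ¬ (p : ℤ) ^ 2 ∣ b * M ^ 2 := by
        intro h9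
        apply h5
        have hco : IsCoprime ((p : ℤ) ^ 2) (M ^ 2) :=
          ((Prime.coprime_iff_not_dvd hpZ).2 hpM).pow
        exact hco.dvd_of_dvd_mul_right h9
      have h9 := n1 h2 h6 h7 h8 (d := (d : ℚ_[p])) (by push_cast; exact h)
      refine (alt ?_).2
      rcases h9 with h9 | h9
      · exact Or.inl h9
      · right
        push_cast at h9
        have e : (b : ℚ_[p]) * (M : ℚ_[p]) ^ 2 * d = ((M : ℚ_[p]) * M) * (b * d) := by ring
        rw [e] at h9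
        exact sq_of_mul (mul_ne_zero hMp hMp) ⟨_, rfl⟩ h9
    · intro h
      exact (alt (n1 h2 h3 h4 h5 h)).1
  · -- multiplicative
    have hMv : (M : ℚ_[p]).valuation = 0 := (val_one_of hMn).2
    have hbc0 : b * (a ^ 2 - 4 * b) ≠ 0 := mul_ne_zero hb hc
    have hval : padicValInt p (b * (a ^ 2 - 4 * b)) = padicValInt p b +
        padicValInt p (a ^ 2 - 4 * b) := padicValInt.mul hb hc
    rcases hpZ.dvd_mul.1 hbad with h5 | h5
    · -- the full image
      have h6 : ¬ (p : ℤ) ∣ a ^ 2 - 4 * b := by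
        intro h
        apply h3
        have h7 : (p : ℤ) ∣ a ^ 2 := by
          have := dvd_add h (dvd_mul_of_dvd_right h5 4)
          rwa [sub_add_cancel] at this
        exact hpZ.dvd_of_dvd_pow h7
      rw [hval, padicValInt.eq_zero_of_not_dvd h6, add_zero] at h4
      have h7 : Odd (b : ℚ_[p]).valuation := by
        rw [Padic.valuation_intCast]
        exact_mod_cast h4
      have h8 : ‖(b : ℚ_[p])‖ < 1 := Padic.norm_intCast_lt_one_iff.2 h5
      have h9 := n2' h2 h3 hbp h8 h7 hdp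
      have h10 : ¬ (p : ℤ) ∣ a * M := fun h => (hpZ.dvd_mul.1 h).elim h3 hpM
      have h11 := n2' (b := (b : ℚ_[p]) * (M : ℚ_[p]) ^ 2) h2 h10
        (mul_ne_zero hbp (pow_ne_zero 2 hMp))
        (by rw [norm_mul, norm_pow, hMn, one_pow, mul_one]; exact h8)
        (by
          rw [Padic.valuation_mul hbp (pow_ne_zero 2 hMp), Padic.valuation_pow, hMv]
          simpa using h7) hdp
      push_cast at h11
      exact ⟨fun _ => h9, fun _ => h11⟩
    · -- the trivial image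
      have h6 : ¬ (p : ℤ) ∣ b := by
        intro h
        apply h3
        have h7 : (p : ℤ) ∣ a ^ 2 := by
          have := dvd_add h5 (dvd_mul_of_dvd_right h 4)
          rwa [sub_add_cancel] at this
        exact hpZ.dvd_of_dvd_pow h7
      rw [hval, padicValInt.eq_zero_of_not_dvd h6, zero_add] at h4
      have h7 : Odd ((a ^ 2 - 4 * b : ℤ) : ℚ_[p]).valuation := by
        rw [Padic.valuation_intCast]
        exact_mod_cast h4
      have h8 : ‖((a ^ 2 - 4 * b : ℤ) : ℚ_[p])‖ < 1 := Padic.norm_intCast_lt_one_iff.2 h5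
      constructor
      · intro h
        have h9 := n2 (a := (a : ℚ_[p]) * M) (b := (b : ℚ_[p]) * (M : ℚ_[p]) ^ 2)
          (c := ((a ^ 2 - 4 * b : ℤ) : ℚ_[p]) * (M : ℚ_[p]) ^ 2) h2
          (by rw [norm_mul, norm_int h3, hMn, one_mul]) (by push_cast; ring)
          (mul_ne_zero hcp (pow_ne_zero 2 hMp))
          (by rw [norm_mul, norm_pow, hMn, one_pow, mul_one]; exact h8)
          (by
            rw [Padic.valuation_mul hcp (pow_ne_zero 2 hMp), Padic.valuation_pow, hMv]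
            simpa using h7) h
        exact Or.inl h9
      · intro h
        have h9 := n2 (a := (a : ℚ_[p])) (b := (b : ℚ_[p]))
          (c := ((a ^ 2 - 4 * b : ℤ) : ℚ_[p])) h2 (norm_int h3) (by push_cast; ring) hcp h8 h7 h
        exact Or.inl h9

/-- **the local image at an inert prime that divides the twist exactly once** -/
lemma loc_inert {p : ℕ} [hp : Fact p.Prime] (h2 : p ≠ 2) {a b D : ℤ} (hpD : (p : ℤ) ∣ D)
    (hpD2 : ¬ (p : ℤ) ^ 2 ∣ D) (hb : ¬ (p : ℤ) ∣ b)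
    (hc : ¬ IsSquare ((a ^ 2 - 4 * b : ℤ) : ZMod p)) {d : ℚ_[p]} :
    LocA ℚ_[p] ((a : ℚ_[p]) * D) ((b : ℚ_[p]) * (D : ℚ_[p]) ^ 2) d ↔
      IsSquare d ∨ IsSquare ((b : ℚ_[p]) * d) := by
  have hpZ := Nat.prime_iff_prime_int.1 hp.out
  have hD0 : D ≠ 0 := by
    rintro rfl
    exact hpD2 (dvd_zero _)
  have hDp : (D : ℚ_[p]) ≠ 0 := by exact_mod_cast hD0
  have hbp : (b : ℚ_[p]) ≠ 0 := (val_one_of (norm_int hb)).1
  have hDv : (D : ℚ_[p]).valuation = 1 := by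
    rw [Padic.valuation_intCast]
    have h3 : padicValInt p D = 1 := by
      have h4 : 1 ≤ padicValInt p D :=
        ((padicValInt_dvd_iff 1 D).1 (by simpa using hpD)).resolve_left hD0
      have h5 : ¬ 2 ≤ padicValInt p D := fun h => hpD2 ((padicValInt_dvd_iff 2 D).2 (Or.inr h))
      omega
    rw [h3]
    rfl
  have hbD : ∀ s : ℚ_[p], (b : ℚ_[p]) * (D : ℚ_[p]) ^ 2 * d = s * s → IsSquare ((b : ℚ_[p]) * d) := by
    intro s hs
    have e : (b : ℚ_[p]) * (D : ℚ_[p]) ^ 2 * d = (D : ℚ_[p]) * D * (b * d) := by ring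
    rw [e] at hs
    exact sq_of_mul (mul_ne_zero hDp hDp) ⟨_, rfl⟩ ⟨s, hs⟩
  constructor
  · rintro (h | ⟨s, hs⟩ | ⟨X, Y, hX, hY, hs⟩)
    · exact Or.inl h
    · exact Or.inr (hbD s hs)
    set t : ℚ_[p] := X / D with ht
    have hXt : X = t * D := by rw [ht]; field_simp
    have ht0 : t ≠ 0 := div_ne_zero hX hDp
    have hbn := norm_int hb
    have han : ‖(a : ℚ_[p])‖ ≤ 1 := Padic.norm_int_le_one _
    have hval : X ^ 2 + (a : ℚ_[p]) * D * X + (b : ℚ_[p]) * (D : ℚ_[p]) ^ 2 =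
        ((D : ℚ_[p]) * D) * (t ^ 2 + a * t + b) := by
      rw [hXt]; ring
    rcases lt_trichotomy ‖t‖ 1 with h1 | h1 | h1
    · -- the value is near `b D ^ 2`
      right
      have h3 : ‖(t ^ 2 + (a : ℚ_[p]) * t + b) - b‖ < ‖(b : ℚ_[p])‖ := by
        rw [add_sub_cancel_right, hbn]
        have h4 : ‖t ^ 2 + (a : ℚ_[p]) * t‖ ≤ max ‖t ^ 2‖ ‖(a : ℚ_[p]) * t‖ :=
          Padic.nonarchimedean _ _
        refine h4.trans_lt (max_lt ?_ ?_)
        · rw [norm_pow]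
          nlinarith [norm_nonneg t]
        · rw [norm_mul]
          nlinarith [norm_nonneg t]
      obtain ⟨-, s, hs0, he⟩ := near_eq h2 h3
      have e2 : Y ^ 2 = X * (b * (((D : ℚ_[p]) * s) * (D * s))) := by
        rw [hY, hval, he]; ring
      exact comb hX (mul_ne_zero hDp hs0) e2 hs
    · -- a unit: impossible
      exfalso
      have hint : ‖t ^ 2 + (a : ℚ_[p]) * t + b‖ < 1 := by
        by_contra hcon
        push Not at hcon
        have hle : ‖t ^ 2 + (a : ℚ_[p]) * t + b‖ ≤ 1 := by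
          refine (Padic.nonarchimedean _ _).trans (max_le ((Padic.nonarchimedean _ _).trans
            (max_le ?_ ?_)) hbn.le)
          · rw [norm_pow, h1, one_pow]
          · rw [norm_mul, h1, mul_one]
            exact han
        have h3 := le_antisymm hle hcon
        obtain ⟨hw0, hwv⟩ := val_one_of h3
        obtain ⟨-, htv⟩ := val_one_of h1
        have e2 : Y ^ 2 = D * (D * D) * (t * (t ^ 2 + (a : ℚ_[p]) * t + b)) := by
          rw [hY, hval, hXt]; ring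
        have hne : (D : ℚ_[p]) * (D * D) * (t * (t ^ 2 + (a : ℚ_[p]) * t + b)) ≠ 0 :=
          mul_ne_zero (mul_ne_zero hDp (mul_ne_zero hDp hDp)) (mul_ne_zero ht0 hw0)
        have h8 := Pool.Agent.Y695.even_of_sq' hne e2
        rw [Padic.valuation_mul (mul_ne_zero hDp (mul_ne_zero hDp hDp)) (mul_ne_zero ht0 hw0),
          Padic.valuation_mul hDp (mul_ne_zero hDp hDp), Padic.valuation_mul hDp hDp,
          Padic.valuation_mul ht0 hw0, hwv, htv, hDv] at h8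
        revert h8
        decide
      obtain ⟨n, hn, htn⟩ := exists_int h1
      have h5 : (p : ℤ) ∣ n ^ 2 + a * n + b := by
        rw [← Padic.norm_intCast_lt_one_iff]
        have e : ((n ^ 2 + a * n + b : ℤ) : ℚ_[p]) = (t ^ 2 + (a : ℚ_[p]) * t + b) +
            (n - t) * (n + t + a) := by push_cast; ring
        rw [e]
        refine (Padic.nonarchimedean _ _).trans_lt (max_lt hint ?_)
        rw [norm_mul]
        have h6 : ‖(n : ℚ_[p]) - t‖ < 1 := by rw [norm_sub_rev]; exact htn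
        have h7 : ‖(n : ℚ_[p]) + t + a‖ ≤ 1 := by
          refine (Padic.nonarchimedean _ _).trans (max_le ((Padic.nonarchimedean _ _).trans
            (max_le (norm_int hn).le h1.le)) han)
        nlinarith [norm_nonneg ((n : ℚ_[p]) - t)]
      have h6 := (ZMod.intCast_zmod_eq_zero_iff_dvd _ p).2 h5
      push_cast at h6
      exact no_root h2 hc (n : ZMod p) h6
    · -- the value is near `X ^ 2`
      left
      have h3 : ‖(t ^ 2 + (a : ℚ_[p]) * t + b) - t ^ 2‖ < ‖t ^ 2‖ := by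
        have e : t ^ 2 + (a : ℚ_[p]) * t + b - t ^ 2 = (a : ℚ_[p]) * t + b := by ring
        rw [e, norm_pow]
        refine (Padic.nonarchimedean _ _).trans_lt (max_lt ?_ ?_)
        · rw [norm_mul]
          nlinarith
        · rw [hbn]
          nlinarith
      obtain ⟨-, s, hs0, he⟩ := near_eq h2 h3
      have e2 : Y ^ 2 = X * (1 * (((D : ℚ_[p]) * t * s) * (D * t * s))) := by
        rw [hY, hval, he]; ring
      have h9 := comb hX (mul_ne_zero (mul_ne_zero hDp ht0) hs0) e2 hs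
      rwa [one_mul] at h9
  · rintro (h | ⟨s, hs⟩)
    · exact Or.inl h
    · exact Or.inr (Or.inl ⟨(D : ℚ_[p]) * s, by linear_combination (D : ℚ_[p]) ^ 2 * hs⟩)

/-- the inert primes of the twist -/
theorem inert_inv {p : ℕ} (h2 : p ≠ 2) {D : ℤ} (hpD : (p : ℤ) ∣ D) (hpD2 : ¬ (p : ℤ) ^ 2 ∣ D)
    (hb : ¬ (p : ℤ) ∣ b) (hc : ¬ IsSquare ((a ^ 2 - 4 * b : ℤ) : ZMod p)) :
    LInv (a * D) (b * D ^ 2) p := by
  intro hp M d hpM hd
  have hpZ := Nat.prime_iff_prime_int.1 hp.out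
  have h1 : (p : ℤ) ∣ D * M := dvd_mul_of_dvd_left hpD _
  have h3 : ¬ (p : ℤ) ^ 2 ∣ D * M := by
    intro h9
    apply hpD2
    have hco : IsCoprime ((p : ℤ) ^ 2) M := ((Prime.coprime_iff_not_dvd hpZ).2 hpM).pow_left
    exact hco.dvd_of_dvd_mul_right h9
  have h4 := loc_inert (a := a) (d := (d : ℚ_[p])) h2 h1 h3 hb hc
  have h5 := loc_inert (a := a) (d := (d : ℚ_[p])) h2 hpD hpD2 hb hc
  have e1 : ((a * D : ℤ) : ℚ_[p]) * M = (a : ℚ_[p]) * ((D * M : ℤ) : ℚ_[p]) := by push_cast; ring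
  have e2 : ((b * D ^ 2 : ℤ) : ℚ_[p]) * (M : ℚ_[p]) ^ 2 =
      (b : ℚ_[p]) * ((D * M : ℤ) : ℚ_[p]) ^ 2 := by push_cast; ring
  have e3 : ((a * D : ℤ) : ℚ_[p]) = (a : ℚ_[p]) * (D : ℚ_[p]) := by push_cast; ring
  have e4 : ((b * D ^ 2 : ℤ) : ℚ_[p]) = (b : ℚ_[p]) * (D : ℚ_[p]) ^ 2 := by push_cast; ring
  rw [e1, e2, h4, e3, e4, h5]

/-- unit twists of the curve -/
theorem linv_twist {p : ℕ} (h : LInv a b p) {D : ℤ} (hpD : ¬ (p : ℤ) ∣ D) :
    LInv (a * D) (b * D ^ 2) p := by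
  intro hp M d hpM hd
  have hpZ := Nat.prime_iff_prime_int.1 hp.out
  have h1 := h (D * M) d (fun h9 => (hpZ.dvd_mul.1 h9).elim hpD hpM) hd
  have h3 := h D d hpD hd
  have e1 : ((a * D : ℤ) : ℚ_[p]) * M = (a : ℚ_[p]) * ((D * M : ℤ) : ℚ_[p]) := by push_cast; ring
  have e2 : ((b * D ^ 2 : ℤ) : ℚ_[p]) * (M : ℚ_[p]) ^ 2 =
      (b : ℚ_[p]) * ((D * M : ℤ) : ℚ_[p]) ^ 2 := by push_cast; ring
  have e3 : ((a * D : ℤ) : ℚ_[p]) = (a : ℚ_[p]) * (D : ℚ_[p]) := by push_cast; ring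
  have e4 : ((b * D ^ 2 : ℤ) : ℚ_[p]) = (b : ℚ_[p]) * (D : ℚ_[p]) ^ 2 := by push_cast; ring
  rw [e1, e2, h1, e3, e4, h3]

end

end Pool.Agent.U80.GT
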