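import Pool.Agent.U80.NP.Dual
import Pool.Agent.U80.NP.Grp

/-!
# The local image at a split prime that divides the twist
-/

set_option autoImplicit false

namespace Pool.Agent.U80.GT

open Pool.Agent.Y695 (LocA)
open Pool.Agent.U80.NP

section

variable {p : ℕ} [hp : Fact p.Prime]

lemma norm_lt {n : ℤ} (h : (p : ℤ) ∣ n) : ‖(n : ℚ_[p])‖ < 1 := Padic.norm_intCast_lt_one_iff.2 h

/-- a root in `ℚ_p` near a root modulo `p` -/
lemma exists_root (h2 : p ≠ 2) {a b ρ : ℤ} (hρ : (p : ℤ) ∣ ρ ^ 2 + a * ρ + b)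
    (hc : ¬ (p : ℤ) ∣ a ^ 2 - 4 * b) :
    ∃ r : ℚ_[p], r ^ 2 + (a : ℚ_[p]) * r + b = 0 ∧ ‖r - ρ‖ < 1 := by
  have h20 : (2 : ℚ_[p]) ≠ 0 := two_ne_zero
  have h2n := norm_two h2
  have hcn := norm_int hc
  set u : ℤ := 2 * ρ + a with hu
  have hu2 : (p : ℤ) ∣ (a ^ 2 - 4 * b) - u ^ 2 := by
    have e : (a ^ 2 - 4 * b) - u ^ 2 = -(4 * (ρ ^ 2 + a * ρ + b)) := by rw [hu]; ring
    rw [e]
    exact (dvd_mul_of_dvd_right hρ 4).neg_right
  have hup : ¬ (p : ℤ) ∣ u := by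
    intro h
    apply hc
    have h3 : (p : ℤ) ∣ u ^ 2 := dvd_pow h two_ne_zero
    have h4 := dvd_add hu2 h3
    rwa [sub_add_cancel] at h4
  have hun := norm_int hup
  have h3 : ‖((a ^ 2 - 4 * b : ℤ) : ℚ_[p]) - (u : ℚ_[p]) ^ 2‖ < ‖(u : ℚ_[p]) ^ 2‖ := by
    rw [norm_pow, hun, one_pow]
    have e : ((a ^ 2 - 4 * b : ℤ) : ℚ_[p]) - (u : ℚ_[p]) ^ 2 =
        (((a ^ 2 - 4 * b) - u ^ 2 : ℤ) : ℚ_[p]) := by push_cast; ring
    rw [e]
    exact norm_lt hu2
  obtain ⟨-, s, hs0, hs⟩ := near_eq h2 h3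
  -- the square root of the discriminant
  set g : ℚ_[p] := (u : ℚ_[p]) * s with hg
  have hg2 : g ^ 2 = ((a ^ 2 - 4 * b : ℤ) : ℚ_[p]) := by rw [hs, hg]; ring
  have hgn : ‖g - u‖ < 1 ∨ ‖g + u‖ < 1 := by
    have e : (g - u) * (g + u) = (((a ^ 2 - 4 * b) - u ^ 2 : ℤ) : ℚ_[p]) := by
      push_cast
      push_cast at hg2
      linear_combination hg2
    have h4 : ‖g - u‖ * ‖g + u‖ < 1 := by
      rw [← norm_mul, e]
      exact norm_lt hu2
    by_contra hcon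
    push Not at hcon
    nlinarith [hcon.1, hcon.2]
  have key : ∀ w : ℚ_[p], w ^ 2 = ((a ^ 2 - 4 * b : ℤ) : ℚ_[p]) → ‖w - u‖ < 1 →
      ∃ r : ℚ_[p], r ^ 2 + (a : ℚ_[p]) * r + b = 0 ∧ ‖r - ρ‖ < 1 := by
    intro w hw hwu
    refine ⟨(w - a) / 2, ?_, ?_⟩
    · push_cast at hw
      field_simp
      linear_combination hw
    · have e : (w - a) / 2 - ρ = (w - u) / 2 := by
        rw [hu]
        push_cast
        field_simp
        ring
      rw [e, norm_div, h2n, div_one]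
      exact hwu
  rcases hgn with h | h
  · exact key g hg2 h
  · refine key (-g) (by rw [neg_sq]; exact hg2) ?_
    have e : -g - u = -(g + u) := by ring
    rw [e, norm_neg]
    exact h

/-- **the local image at a split prime that divides the twist exactly once** -/
lemma loc_split (h2 : p ≠ 2) {a b D ρ : ℤ} (hpD : (p : ℤ) ∣ D) (hpD2 : ¬ (p : ℤ) ^ 2 ∣ D)
    (hρ : (p : ℤ) ∣ ρ ^ 2 + a * ρ + b) (hb : ¬ (p : ℤ) ∣ b) (hc : ¬ (p : ℤ) ∣ a ^ 2 - 4 * b)
    (hbs : IsSquare (b : ZMod p)) {d : ℚ_[p]} (hd : d ≠ 0) :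
    LocA ℚ_[p] ((a : ℚ_[p]) * D) ((b : ℚ_[p]) * (D : ℚ_[p]) ^ 2) d ↔
      IsSquare d ∨ IsSquare ((ρ : ℚ_[p]) * D * d) := by
  have hpZ := Nat.prime_iff_prime_int.1 hp.out
  have hD0 : D ≠ 0 := by
    rintro rfl
    exact hpD2 (dvd_zero _)
  have hDp : (D : ℚ_[p]) ≠ 0 := by exact_mod_cast hD0
  have hbp : (b : ℚ_[p]) ≠ 0 := (val_one_of (norm_int hb)).1
  have hbq : IsSquare (b : ℚ_[p]) := (sq_int h2 hb).2 hbs
  have hρp : ¬ (p : ℤ) ∣ ρ := by
    intro h
    apply hb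
    have h3 : (p : ℤ) ∣ ρ ^ 2 + a * ρ := by
      have e : ρ ^ 2 + a * ρ = ρ * (ρ + a) := by ring
      rw [e]
      exact dvd_mul_of_dvd_left h _
    have h4 := dvd_sub hρ h3
    rwa [add_sub_cancel_left] at h4
  have hρn := norm_int hρp
  have hρ0 : (ρ : ℚ_[p]) ≠ 0 := (val_one_of hρn).1
  set σ : ℤ := -a - ρ with hσ
  have hρσ : (p : ℤ) ∣ ρ * σ - b := by
    have e : ρ * σ - b = -(ρ ^ 2 + a * ρ + b) := by rw [hσ]; ring
    rw [e]
    exact hρ.neg_right
  have hσp : ¬ (p : ℤ) ∣ σ := by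
    intro h
    apply hb
    have h4 := dvd_sub (dvd_mul_of_dvd_right h ρ) hρσ
    rwa [sub_sub_cancel] at h4
  have hσn := norm_int hσp
  have hσ0 : (σ : ℚ_[p]) ≠ 0 := (val_one_of hσn).1
  have hρσq : IsSquare ((ρ : ℚ_[p]) * σ) := by
    have h3 : ‖(ρ : ℚ_[p]) * σ - b‖ < ‖(b : ℚ_[p])‖ := by
      rw [norm_int hb]
      have e : (ρ : ℚ_[p]) * σ - b = ((ρ * σ - b : ℤ) : ℚ_[p]) := by push_cast; ring
      rw [e]
      exact norm_lt hρσ
    exact (near h2 h3).2 hbq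
  have hDv : (D : ℚ_[p]).valuation = 1 := by
    rw [Padic.valuation_intCast]
    have h3 : padicValInt p D = 1 := by
      have h4 : 1 ≤ padicValInt p D :=
        ((padicValInt_dvd_iff 1 D).1 (by simpa using hpD)).resolve_left hD0
      have h5 : ¬ 2 ≤ padicValInt p D := fun h => hpD2 ((padicValInt_dvd_iff 2 D).2 (Or.inr h))
      omega
    rw [h3]
    rfl
  constructor
  · rintro (h | h | ⟨X, Y, hX, hY, hs⟩)
    · exact Or.inl h
    · left
      have e : (b : ℚ_[p]) * (D : ℚ_[p]) ^ 2 * d = (D : ℚ_[p]) * D * (b * d) := by ring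
      rw [e] at h
      exact sq_of_mul hbp hbq (sq_of_mul (mul_ne_zero hDp hDp) ⟨_, rfl⟩ h)
    set t : ℚ_[p] := X / D with ht
    have hXt : X = t * D := by rw [ht]; field_simp
    have ht0 : t ≠ 0 := div_ne_zero hX hDp
    have hbn := norm_int hb
    have han : ‖(a : ℚ_[p])‖ ≤ 1 := Padic.norm_int_le_one _
    have hval : X ^ 2 + (a : ℚ_[p]) * D * X + (b : ℚ_[p]) * (D : ℚ_[p]) ^ 2 =
        ((D : ℚ_[p]) * D) * (t ^ 2 + a * t + b) := by
      rw [hXt]; ring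
    rcases lt_trichotomy ‖t‖ 1 with h1 | h1 | h1
    · -- the value is near `b D ^ 2`
      left
      have h3 : ‖(t ^ 2 + (a : ℚ_[p]) * t + b) - b‖ < ‖(b : ℚ_[p])‖ := by
        rw [add_sub_cancel_right, hbn]
        have h4 : ‖t ^ 2 + (a : ℚ_[p]) * t‖ ≤ max ‖t ^ 2‖ ‖(a : ℚ_[p]) * t‖ :=
          Padic.nonarchimedean _ _
        refine h4.trans_lt (max_lt ?_ ?_)
        · rw [norm_pow]
          nlinarith [norm_nonneg t]
        · rw [norm_mul]
          nlinarith [norm_nonneg t]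
      obtain ⟨-, s, hs0, he⟩ := near_eq h2 h3
      obtain ⟨β, hβ⟩ := hbq
      have hβ0 : β ≠ 0 := by
        rintro rfl
        exact hbp (by rw [hβ]; ring)
      have e2 : Y ^ 2 = X * (1 * (((D : ℚ_[p]) * β * s) * (D * β * s))) := by
        rw [hY, hval, he, hβ]; ring
      have h9 := comb hX (mul_ne_zero (mul_ne_zero hDp hβ0) hs0) e2 hs
      rwa [one_mul] at h9
    · -- a unit: near a root
      have hint : ‖t ^ 2 + (a : ℚ_[p]) * t + b‖ < 1 := by
        by_contra hcon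
        push Not at hcon
        have hle : ‖t ^ 2 + (a : ℚ_[p]) * t + b‖ ≤ 1 := by
          refine (Padic.nonarchimedean _ _).trans (max_le ((Padic.nonarchimedean _ _).trans
            (max_le ?_ ?_)) hbn.le)
          · rw [norm_pow, h1, one_pow]
          · rw [norm_mul, h1, mul_one]
            exact han
        have h3 := le_antisymm hle hcon
        obtain ⟨hw0, hwv⟩ := val_one_of h3
        obtain ⟨-, htv⟩ := val_one_of h1
        have e2 : Y ^ 2 = D * (D * D) * (t * (t ^ 2 + (a : ℚ_[p]) * t + b)) := by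
          rw [hY, hval, hXt]; ring
        have hne : (D : ℚ_[p]) * (D * D) * (t * (t ^ 2 + (a : ℚ_[p]) * t + b)) ≠ 0 :=
          mul_ne_zero (mul_ne_zero hDp (mul_ne_zero hDp hDp)) (mul_ne_zero ht0 hw0)
        have h8 := Pool.Agent.Y695.even_of_sq' hne e2
        rw [Padic.valuation_mul (mul_ne_zero hDp (mul_ne_zero hDp hDp)) (mul_ne_zero ht0 hw0),
          Padic.valuation_mul hDp (mul_ne_zero hDp hDp), Padic.valuation_mul hDp hDp,
          Padic.valuation_mul ht0 hw0, hwv, htv, hDv] at h8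
        revert h8
        decide
      have hfac : ‖(t - ρ) * (t - σ)‖ < 1 := by
        have e : (t - ρ) * (t - σ) = (t ^ 2 + (a : ℚ_[p]) * t + b) +
            ((ρ * σ - b : ℤ) : ℚ_[p]) := by
          rw [hσ]; push_cast; ring
        rw [e]
        exact (Padic.nonarchimedean _ _).trans_lt (max_lt hint (norm_lt hρσ))
      have hor : ‖t - ρ‖ < 1 ∨ ‖t - σ‖ < 1 := by
        rw [norm_mul] at hfac
        by_contra hcon
        push Not at hcon
        nlinarith [hcon.1, hcon.2]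
      have key : ∀ τ : ℚ_[p], ‖τ‖ = 1 → ‖t - τ‖ < 1 → IsSquare (τ * D * d) := by
        intro τ hτ hlt
        obtain ⟨-, s, hs0, he⟩ := near_eq h2 (show ‖t - τ‖ < ‖τ‖ by rw [hτ]; exact hlt)
        rw [hXt, he] at hs
        have e : τ * (s * s) * (D : ℚ_[p]) * d = (s * s) * (τ * D * d) := by ring
        rw [e] at hs
        exact sq_of_mul (mul_ne_zero hs0 hs0) ⟨s, rfl⟩ hs
      right
      rcases hor with h3 | h3
      · exact key _ hρn h3
      · have h4 := key _ hσn h3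
        obtain ⟨w, hw⟩ := hρσq
        obtain ⟨v, hv⟩ := h4
        refine sq_of_mul (x := (σ : ℚ_[p]) * σ) (mul_ne_zero hσ0 hσ0) ⟨_, rfl⟩ ⟨w * v, ?_⟩
        linear_combination (σ : ℚ_[p]) * D * d * hw + w * w * hv
    · -- the value is near `X ^ 2`
      left
      have h3 : ‖(t ^ 2 + (a : ℚ_[p]) * t + b) - t ^ 2‖ < ‖t ^ 2‖ := by
        have e : t ^ 2 + (a : ℚ_[p]) * t + b - t ^ 2 = (a : ℚ_[p]) * t + b := by ring
        rw [e, norm_pow]
        refine (Padic.nonarchimedean _ _).trans_lt (max_lt ?_ ?_)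
        · rw [norm_mul]
          nlinarith [norm_nonneg t]
        · rw [hbn]
          nlinarith
      obtain ⟨-, s, hs0, he⟩ := near_eq h2 h3
      have e2 : Y ^ 2 = X * (1 * (((D : ℚ_[p]) * t * s) * (D * t * s))) := by
        rw [hY, hval, he]; ring
      have h9 := comb hX (mul_ne_zero (mul_ne_zero hDp ht0) hs0) e2 hs
      rwa [one_mul] at h9
  · rintro (h | h)
    · exact Or.inl h
    · obtain ⟨r, hr, hrρ⟩ := exists_root h2 hρ hc
      obtain ⟨-, s, hs0, he⟩ := near_eq h2 (show ‖r - ρ‖ < ‖(ρ : ℚ_[p])‖ by rw [hρn]; exact hrρ)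
      have hr0 : r ≠ 0 := by
        rw [he]
        exact mul_ne_zero hρ0 (mul_ne_zero hs0 hs0)
      refine Or.inr (Or.inr ⟨r * D, 0, mul_ne_zero hr0 hDp, ?_, ?_⟩)
      · have e : (r * (D : ℚ_[p])) ^ 2 + (a : ℚ_[p]) * D * (r * D) + b * (D : ℚ_[p]) ^ 2 =
            (r ^ 2 + (a : ℚ_[p]) * r + b) * (D : ℚ_[p]) ^ 2 := by ring
        rw [e, hr]
        ring
      · obtain ⟨v, hv⟩ := h
        refine ⟨s * v, ?_⟩
        rw [he]
        linear_combination s * s * hv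

end

end Pool.Agent.U80.GT
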