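import Pool.Agent.U80.GT.Cnt
import Pool.Agent.U115.GD.Stm

/-!
# The kernel of the symmetric matrix, and the dual curve
-/

set_option autoImplicit false

namespace Pool.Agent.U80.GT

open Finset
open Pool.Agent.Y695 (LocA)
open Pool.Agent.U80.NP
open Pool.Agent.Y703.CQ (nr)
open Pool.Agent.U115.GD (Cfg Hc Sol Gd cu)

open Classical in
/-- the quadratic symbol of an element, additively -/
noncomputable def nz {p : ℕ} (z : ZMod p) : ZMod 2 := if IsSquare z then 0 else 1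

section

variable {p : ℕ} [hp : Fact p.Prime]

lemma nz_zero_iff {z : ZMod p} : nz z = 0 ↔ IsSquare z := by
  unfold nz
  split_ifs with h
  · simp [h]
  · simp [h]

lemma nz_congr {x y : ZMod p} (h : IsSquare x ↔ IsSquare y) : nz x = nz y := by
  unfold nz
  split_ifs with h1 h2 h2
  · rfl
  · exact absurd (h.1 h1) h2
  · exact absurd (h.2 h2) h1
  · rfl

lemma nr_eq (n : ℕ) : nr p n = nz (n : ZMod p) := by
  unfold nr nz
  congr

lemma nz_self : nz ((p : ℕ) : ZMod p) = 0 := by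
  rw [nz_zero_iff, ZMod.natCast_self]
  exact ⟨0, by ring⟩

lemma nz_mul {x y : ZMod p} (hx : x ≠ 0) (hy : y ≠ 0) : nz (x * y) = nz x + nz y := by
  by_cases h1 : IsSquare x
  · have h2 : nz (x * y) = nz y := nz_congr (zsq_left hx h1)
    rw [h2, nz_zero_iff.2 h1, zero_add]
  · by_cases h2 : IsSquare y
    · have h3 : nz (x * y) = nz x := nz_congr (by rw [mul_comm, zsq_left hy h2])
      rw [h3, nz_zero_iff.2 h2, add_zero]
    · have h3 : IsSquare (x * y) := zsq_mul hy h1 h2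
      rw [nz_zero_iff.2 h3]
      unfold nz
      rw [if_neg h1, if_neg h2]
      rfl

lemma nz_prod {U : Finset ℕ} (hU : ∀ q ∈ U, ((q : ℕ) : ZMod p) ≠ 0) :
    nz ((∏ q ∈ U, q : ℕ) : ZMod p) = ∑ q ∈ U, nz (q : ZMod p) := by
  classical
  induction U using Finset.induction_on with
  | empty =>
    rw [Finset.prod_empty, Finset.sum_empty, nz_zero_iff]
    exact ⟨1, by simp⟩
  | insert q U hq ih =>
    have h1 : ∀ r ∈ U, ((r : ℕ) : ZMod p) ≠ 0 := fun r hr => hU r (Finset.mem_insert_of_mem hr)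
    have h2 : ((∏ q ∈ U, q : ℕ) : ZMod p) ≠ 0 := by
      rw [Nat.cast_prod]
      exact Finset.prod_ne_zero_iff.2 h1
    rw [Finset.prod_insert hq, Finset.sum_insert hq, Nat.cast_mul,
      nz_mul (hU q (Finset.mem_insert_self _ _)) h2, ih h1]

lemma cast_ne {q : ℕ} (hq : q.Prime) (h : q ≠ p) : ((q : ℕ) : ZMod p) ≠ 0 := by
  intro h0
  rw [ZMod.natCast_eq_zero_iff] at h0
  exact h ((Nat.prime_dvd_prime_iff_eq hp.out hq).1 h0).symm

lemma prod_cast_ne {U : Finset ℕ} (hU : ∀ q ∈ U, q.Prime) (h : p ∉ U) :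
    ((∏ q ∈ U, q : ℕ) : ZMod p) ≠ 0 := by
  rw [Nat.cast_prod]
  refine Finset.prod_ne_zero_iff.2 fun q hq => cast_ne (hU q hq) ?_
  rintro rfl
  exact h hq

/-- the kernel condition as an equation over `𝔽₂` -/
lemma kc_iff {S J : Finset ℕ} (hS : ∀ q ∈ S, q.Prime) (hJ : J ⊆ S) {ρ : ZMod p} (hρ : ρ ≠ 0)
    {x : ℕ → ZMod 2} (y : ℕ → ZMod 2) (hy : ∀ q ∈ S, y q = if q ∈ J then 1 else 0)
    (hx : x p = if p ∈ J then 1 else 0) :
    KC S J p ρ ↔ ∑ q ∈ S, nr p q * (y q + x p) + nz ρ * x p = 0 := by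
  classical
  have hJp : ∀ q ∈ J, q.Prime := fun q hq => hS q (hJ hq)
  have hsum : ∀ c : ZMod 2, ∑ q ∈ S, nr p q * (y q + c) =
      ∑ q ∈ J, nz (q : ZMod p) + c * ∑ q ∈ S, nz (q : ZMod p) := by
    intro c
    have h1 : ∑ q ∈ J, nz ((q : ℕ) : ZMod p) =
        ∑ q ∈ S, if q ∈ J then nz ((q : ℕ) : ZMod p) else 0 := by
      rw [Finset.sum_ite_mem, Finset.inter_eq_right.2 hJ]
    rw [Finset.mul_sum, h1, ← Finset.sum_add_distrib]
    refine Finset.sum_congr rfl fun q hq => ?_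
    rw [hy q hq, nr_eq]
    split_ifs
    · ring
    · ring
  unfold KC
  by_cases hpJ : p ∈ J
  · rw [hsum, hx, if_pos hpJ, one_mul, mul_one]
    have h1 : ∀ U : Finset ℕ, p ∈ U → (∀ q ∈ U, q.Prime) →
        ∑ q ∈ U, nz (q : ZMod p) = nz ((∏ q ∈ U.erase p, q : ℕ) : ZMod p) := by
      intro U hU hUp
      rw [← Finset.add_sum_erase U _ hU, nz_self, zero_add, nz_prod]
      intro q hq
      exact cast_ne (hUp q (Finset.mem_of_mem_erase hq)) (Finset.ne_of_mem_erase hq)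
    rw [h1 J hpJ hJp, h1 S (hJ hpJ) hS]
    have h2 : ((∏ q ∈ J.erase p, q : ℕ) : ZMod p) ≠ 0 :=
      prod_cast_ne (fun q hq => hJp q (Finset.mem_of_mem_erase hq)) (Finset.notMem_erase _ _)
    have h3 : ((∏ q ∈ S.erase p, q : ℕ) : ZMod p) ≠ 0 :=
      prod_cast_ne (fun q hq => hS q (Finset.mem_of_mem_erase hq)) (Finset.notMem_erase _ _)
    constructor
    · rintro ⟨-, h⟩
      have h4 := nz_zero_iff.2 (h hpJ)
      rw [nz_mul (mul_ne_zero hρ h2) h3, nz_mul hρ h2] at h4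
      linear_combination h4
    · intro h
      refine ⟨fun h4 => absurd hpJ h4, fun _ => ?_⟩
      rw [← nz_zero_iff, nz_mul (mul_ne_zero hρ h2) h3, nz_mul hρ h2]
      linear_combination h
  · rw [hsum, hx, if_neg hpJ, zero_mul, mul_zero, add_zero, add_zero, ← nz_prod, nz_zero_iff]
    · exact ⟨fun h => h.1 hpJ, fun h => ⟨fun _ => h, fun h4 => absurd h4 hpJ⟩⟩
    · intro q hq
      refine cast_ne (hJp q hq) ?_
      rintro rfl
      exact hpJ hq

/-- the class of the root of the dual quadratic polynomial -/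
lemma root_cls {a b ρ ρ' i β : ZMod p} (h2 : (2 : ZMod p) ≠ 0) (hi : i * i = -1) (hβ : b = β * β)
    (hb : b ≠ 0) (hρ : ρ ^ 2 + a * ρ + b = 0) (hρ' : ρ' ^ 2 - 2 * a * ρ' + (a ^ 2 - 4 * b) = 0)
    (h : IsSquare ρ) : IsSquare ρ' := by
  obtain ⟨s, hs⟩ := h
  have hρ0 : ρ ≠ 0 := by
    rintro rfl
    exact hb (by linear_combination hρ)
  have hs0 : s ≠ 0 := by
    rintro rfl
    exact hρ0 (by rw [hs]; ring)
  have h1 : (ρ' - a - 2 * β) * (ρ' - a + 2 * β) = 0 := by
    linear_combination hρ' + 4 * hβ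
  have key : ∀ β : ZMod p, b = β * β → ρ' = a + 2 * β → IsSquare ρ' := by
    intro β hβ h3
    refine ⟨i * (s - β / s), ?_⟩
    have h4 : ρ' * (s * s) = (i * (s - β / s)) * (i * (s - β / s)) * (s * s) := by
      have e : (i * (s - β / s)) * (i * (s - β / s)) * (s * s) =
          (i * i) * ((s * s - β) * (s * s - β)) := by
        field_simp
      rw [e, hi, h3, ← hs]
      linear_combination hρ - hβ
    exact mul_right_cancel₀ (mul_ne_zero hs0 hs0) h4
  rcases mul_eq_zero.1 h1 with h3 | h3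
  · exact key β hβ (by linear_combination h3)
  · exact key (-β) (by rw [hβ]; ring) (by linear_combination h3)

end

end Pool.Agent.U80.GT
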