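import Pool.Agent.Y682.AMF
import Pool.Agent.Y682.KG
import Pool.Agent.U80.MQ.ShaF

/-!
# Finiteness of the 2-torsion of `Ш` of `y² = x³ + A x² + B x` over a number field
-/

set_option autoImplicit false

attribute [-instance] DivisionRing.toRatAlgebra

open WeierstrassCurve NumberField IsDedekindDomain

namespace Pool.Agent.U80.GT

open Pool.Agent.Y682

section

variable {K : Type} [Field K] [NumberField K]

/-- the classes with even valuations outside a finite set -/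
def UT (T : Finset (HeightOneSpectrum (𝓞 K))) : Set (Kˣ ⧸ Sq K) :=
  {q | ∃ b : Kˣ, (b : Kˣ ⧸ Sq K) = q ∧ ∀ v ∉ T, par v b = 0}

lemma one_ut (T : Finset (HeightOneSpectrum (𝓞 K))) : (1 : Kˣ ⧸ Sq K) ∈ UT T :=
  ⟨1, rfl, fun v _ => by
    unfold par
    rw [Units.val_one, map_one, WithZero.log_one]
    rfl⟩

lemma ut_fin (T : Finset (HeightOneSpectrum (𝓞 K))) : Finite (UT T) := by
  classical
  obtain ⟨hf0, -⟩ := card_H0q (K := K)
  choose b hb using fun q : UT T => q.2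
  have hmem : ∀ z z0 : UT T,
      ((fun v : T => par v.1 (b z)), (fun φ : K →+* ℝ => decide (0 < φ (b z : K)))) =
        ((fun v : T => par v.1 (b z0)), (fun φ : K →+* ℝ => decide (0 < φ (b z0 : K)))) →
      b z * (b z0)⁻¹ ∈ H0 K := by
    intro z z0 h0
    have h := congrArg Prod.fst h0
    have h' := congrArg Prod.snd h0
    refine ⟨fun φ => ?_, fun v => ?_⟩
    · rw [Units.val_mul, map_mul, Units.val_inv_eq_inv_val, map_inv₀]
      have h3 := congrFun h' φ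
      have h4 : (0 < φ (b z : K)) ↔ 0 < φ (b z0 : K) := decide_eq_decide.1 h3
      have e1 : φ (b z : K) ≠ 0 := (map_ne_zero φ).2 (b z).ne_zero
      have e2 : φ (b z0 : K) ≠ 0 := (map_ne_zero φ).2 (b z0).ne_zero
      by_cases h5 : 0 < φ (b z0 : K)
      · exact mul_pos (h4.2 h5) (inv_pos.2 h5)
      · have h6 : φ (b z : K) < 0 := lt_of_le_of_ne (not_lt.1 fun h => h5 (h4.1 h)) e1
        have h7 : φ (b z0 : K) < 0 := lt_of_le_of_ne (not_lt.1 h5) e2
        exact mul_pos_of_neg_of_neg h6 (inv_lt_zero.2 h7)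
    · by_cases hv : v ∈ T
      · rw [par_div]
        have := congrFun h ⟨v, hv⟩
        exact sub_eq_zero.2 this
      · rw [par_div, (hb z).2 v hv, (hb z0).2 v hv, sub_zero]
  have h := card_le_prod (Z := UT T) (A := (T → ZMod 2) × ((K →+* ℝ) → Bool)) (B := H0q K)
    ⟨1, one_ut T⟩
    (fun q => ((fun v : T => par v.1 (b q)), (fun φ : K →+* ℝ => decide (0 < φ (b q : K)))))
    (fun z0 z => if hm : b z * (b z0)⁻¹ ∈ H0 K then
      ⟨QuotientGroup.mk' (Sq K) (b z * (b z0)⁻¹), Subgroup.mem_map_of_mem _ hm⟩ else 1) ?_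
  · exact h.1
  · intro z0 z z' hz hz' h
    rw [dif_pos (hmem z z0 hz), dif_pos (hmem z' z0 hz')] at h
    have h2 : QuotientGroup.mk' (Sq K) (b z * (b z0)⁻¹) =
        QuotientGroup.mk' (Sq K) (b z' * (b z0)⁻¹) := congrArg Subtype.val h
    rw [QuotientGroup.mk'_apply, QuotientGroup.mk'_apply, QuotientGroup.eq] at h2
    have e : (b z * (b z0)⁻¹)⁻¹ * (b z' * (b z0)⁻¹) = (b z)⁻¹ * b z' := by
      rw [mul_inv, inv_inv, mul_mul_mul_comm, mul_inv_cancel, mul_one]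
    rw [e] at h2
    apply Subtype.ext
    rw [← (hb z).1, ← (hb z').1, QuotientGroup.eq]
    exact h2

lemma ut_ll1 {T : Finset (HeightOneSpectrum (𝓞 K))} {A B : 𝓞 K}
    (h2 : ∀ v ∉ T, (2 : 𝓞 K) ∉ v.asIdeal) (hB : ∀ v ∉ T, B ∉ v.asIdeal) (b : Kˣ)
    (h : LL1 (algebraMap (𝓞 K) K A) (algebraMap (𝓞 K) K B) (b : K)) :
    (b : Kˣ ⧸ Sq K) ∈ UT T := by
  refine ⟨b, rfl, fun v hv => ?_⟩
  rw [← ev_iff]
  have v2 : v.valuation K 2 = 1 := val_two' (h2 v hv)
  have v4 : v.valuation K 4 = 1 := by rw [w_four, v2, one_mul]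
  have v16 : v.valuation K 16 = 1 := by
    have : (16 : K) = 4 * 4 := by norm_num
    rw [this, map_mul, v4, one_mul]
  have vB : v.valuation K (algebraMap (𝓞 K) K B) = 1 :=
    (HeightOneSpectrum.valuation_eq_one_iff_notMem v).2 (hB v hv)
  refine even_b1 (s := 0) (u := algebraMap (𝓞 K) K A / 4) (C := algebraMap (𝓞 K) K B / 16)
    b.ne_zero v (h.1 v) ?_ ?_ ?_ ?_ ?_
  · field_simp
    ring
  · rw [map_zero]
    exact zero_le_one
  · rw [map_div₀, v4, div_one]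
    exact v.valuation_le_one A
  · field_simp
  · rw [map_div₀, v16, div_one, vB]

lemma ll2_ll1 {A B b : K} (h : LL2 A B b) : LL1 (-2 * A) (A ^ 2 - 4 * B) b := by
  have main : ∀ (L : Type) [Field L] [CharZero L] (φ : K →+* L),
      (∃ z m : L, z ≠ 0 ∧ φ b * z ^ 2 = m ∧ S2 (φ A) (φ B) m) →
      ∃ z m : L, z ≠ 0 ∧ φ b * z ^ 2 = m ∧ S1 (φ (-2 * A)) (φ (A ^ 2 - 4 * B)) m := by
    intro L _ _ φ ⟨z, m, hz, hzm, hm⟩
    refine ⟨z, m, hz, hzm, ?_⟩
    simp only [map_mul, map_sub, map_pow, map_ofNat, map_neg]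
    rcases hm with hm | hm | ⟨hm, y, hy⟩
    · exact Or.inl hm
    · exact Or.inr (Or.inl hm)
    · refine Or.inr (Or.inr ⟨hm, y, ?_⟩)
      rw [hy]
      ring
  refine ⟨fun v => ?_, fun v => ?_⟩
  · have := charZero_adic v
    exact main _ (algebraMap K (v.adicCompletion K)) (h.1 v)
  · have := charZero_inf v
    exact main _ (algebraMap K v.Completion) (h.2 v)

/-- **finiteness of the 2-torsion of `Ш`** -/
theorem sha_two_fin {A B : ℤ} (hB : B ≠ 0) (hD : A ^ 2 - 4 * B ≠ 0) :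
    Finite {x : Pool.Agent.TH841.NF.D.Sha (gc A B K) // 2 • x = 0} := by
  have h0 : (Ideal.span {((2 * B * (A ^ 2 - 4 * B) : ℤ) : 𝓞 K)} : Ideal (𝓞 K)) ≠ 0 := by
    rw [Ne, Ideal.zero_eq_bot, Ideal.span_singleton_eq_bot]
    exact_mod_cast mul_ne_zero (mul_ne_zero two_ne_zero hB) hD
  have hfin : {v : HeightOneSpectrum (𝓞 K) |
      ((2 * B * (A ^ 2 - 4 * B) : ℤ) : 𝓞 K) ∈ v.asIdeal}.Finite :=
    (Ideal.finite_factors h0).subset fun v hv => Ideal.dvd_span_singleton.2 hv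
  set T : Finset (HeightOneSpectrum (𝓞 K)) := hfin.toFinset with hT
  have hTm : ∀ v, v ∉ T → ((2 * B * (A ^ 2 - 4 * B) : ℤ) : 𝓞 K) ∉ v.asIdeal := fun v hv h => by
    apply hv
    rw [hT, Set.Finite.mem_toFinset]
    exact h
  have t2 : ∀ v ∉ T, (2 : 𝓞 K) ∉ v.asIdeal := fun v hv h => hTm v hv (by
    push_cast
    rw [mul_assoc]
    exact v.asIdeal.mul_mem_right _ h)
  have tB : ∀ v ∉ T, ((B : ℤ) : 𝓞 K) ∉ v.asIdeal := fun v hv h => hTm v hv (by
    push_cast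
    exact v.asIdeal.mul_mem_right _ (v.asIdeal.mul_mem_left _ h))
  have tD : ∀ v ∉ T, ((A ^ 2 - 4 * B : ℤ) : 𝓞 K) ∉ v.asIdeal := fun v hv h => hTm v hv (by
    push_cast at h ⊢
    exact v.asIdeal.mul_mem_left _ h)
  have hf := ut_fin T
  have hIT : IsT (gc A B K) ((A : ℤ) : K) ((B : ℤ) : K) :=
    { h1 := rfl
      h2 := rfl
      h3 := rfl
      h4 := rfl
      h6 := rfl
      hB := by exact_mod_cast hB
      hD := by exact_mod_cast hD }
  have eA : algebraMap (𝓞 K) K ((A : ℤ) : 𝓞 K) = ((A : ℤ) : K) := map_intCast _ _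
  have eB : algebraMap (𝓞 K) K ((B : ℤ) : 𝓞 K) = ((B : ℤ) : K) := map_intCast _ _
  obtain ⟨h1, -⟩ := Zc_card hIT (U := UT T) (V := UT T) (one_ut T)
    (fun b hb => ut_ll1 (A := ((A : ℤ) : 𝓞 K)) (B := ((B : ℤ) : 𝓞 K)) t2 tB b (by
      rw [eA, eB]
      exact hb))
    (fun b hb => ut_ll1 (A := ((-2 * A : ℤ) : 𝓞 K)) (B := ((A ^ 2 - 4 * B : ℤ) : 𝓞 K)) t2 tD b (by
      have h := ll2_ll1 hb
      rw [map_intCast, map_intCast]
      push_cast
      exact h))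
  exact (Zc_lower hIT).1

/-- the elements killed by a power of two -/
theorem sha_pow_fin {A B : ℤ} (hB : B ≠ 0) (hD : A ^ 2 - 4 * B ≠ 0) (n : ℕ) :
    Finite {x : Pool.Agent.TH841.NF.D.Sha (gc A B K) // (2 ^ n : ℕ) • x = 0} :=
  (Pool.Agent.U80.MQ.card_pow (sha_two_fin hB hD) n).1

end

end Pool.Agent.U80.GT
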