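import Pool.Agent.U80.GT.LInv
import Pool.Agent.U80.GT.Main

/-!
# The classes of the twists do not change in the tower of a twist
-/

set_option autoImplicit false

namespace Pool.Agent.U80.GT

open Finset
open Pool.Agent.Y695 (LocA)
open Pool.Agent.U80.NP
open Pool.Agent.U115.GD (Hc Sp In Cl)

/-- the primes whose twists do not change the classes of the curve -/
def Tq (a b : ℤ) (q : ℕ) : Prop :=
  q.Prime ∧ q % 8 = 1 ∧ ¬ IsSquare (b : ZMod q) ∧ ¬ IsSquare ((a ^ 2 - 4 * b : ℤ) : ZMod q) ∧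
    ∀ p : ℕ, p.Prime → p ≠ 2 → (p : ℤ) ∣ b * (a ^ 2 - 4 * b) → LInv a b p ∨ IsSquare (q : ZMod p)

section

variable {a b : ℤ} {U : Finset ℕ}

theorem place' (hb : b ≠ 0) (hU : ∀ q ∈ U, Tq a b q) {d : ℤ} (hd : d ≠ 0)
    (p : ℕ) [hp : Fact p.Prime] (hpd : ¬ (p : ℤ) ∣ b → ¬ (p : ℤ) ∣ d) :
    LocA ℚ_[p] ((a : ℚ_[p]) * (((∏ q ∈ U, q : ℕ) : ℤ) : ℚ_[p]))
      ((b : ℚ_[p]) * (((∏ q ∈ U, q : ℕ) : ℤ) : ℚ_[p]) ^ 2) (d : ℚ_[p]) ↔
    LocA ℚ_[p] (a : ℚ_[p]) (b : ℚ_[p]) (d : ℚ_[p]) := by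
  have hUp : ∀ q ∈ U, q.Prime := fun q hq => (hU q hq).1
  have hM0 := prod_ne hUp
  set M : ℤ := ((∏ q ∈ U, q : ℕ) : ℤ) with hMd
  have hMp : (M : ℚ_[p]) ≠ 0 := by exact_mod_cast hM0
  -- the square alternatives
  have alt : (IsSquare (d : ℚ_[p]) ∨ IsSquare ((b : ℚ_[p]) * d)) →
      LocA ℚ_[p] ((a : ℚ_[p]) * (M : ℚ_[p])) ((b : ℚ_[p]) * (M : ℚ_[p]) ^ 2) (d : ℚ_[p]) ∧
      LocA ℚ_[p] (a : ℚ_[p]) (b : ℚ_[p]) (d : ℚ_[p]) := by
    rintro (h | h)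
    · exact ⟨Or.inl h, Or.inl h⟩
    · refine ⟨Or.inr (Or.inl ?_), Or.inr (Or.inl h)⟩
      obtain ⟨s, hs⟩ := h
      exact ⟨(M : ℚ_[p]) * s, by linear_combination (M : ℚ_[p]) ^ 2 * hs⟩
  by_cases h2 : p = 2
  · subst h2
    apply scaleM hMp
    rw [hMd]
    exact sq_two (prod_mod8 fun q hq => (hU q hq).2.1)
  by_cases hpU : p ∈ U
  · obtain ⟨-, -, h3, h4, -⟩ := hU p hpU
    have h5 := alt (sq_or h2 h3 (hpd (not_dvd_of_nsq h3)))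
    exact ⟨fun _ => h5.2, fun _ => h5.1⟩
  have hpM : ¬ (p : ℤ) ∣ M := prod_not_dvd hUp hp.out hpU
  have hpM2 : ¬ (p : ℤ) ∣ M ^ 2 := fun h => hpM ((Nat.prime_iff_prime_int.1 hp.out).dvd_of_dvd_pow h)
  have hpZ := Nat.prime_iff_prime_int.1 hp.out
  by_cases hbad : (p : ℤ) ∣ b * (a ^ 2 - 4 * b)
  swap
  · -- good reduction
    have h3 : ¬ (p : ℤ) ∣ b := fun h => hbad (dvd_mul_of_dvd_left h _)
    have h4 : ¬ (p : ℤ) ∣ a ^ 2 - 4 * b := fun h => hbad (dvd_mul_of_dvd_right h _)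
    have h5 : ¬ (p : ℤ) ∣ b * M ^ 2 := fun h => (hpZ.dvd_mul.1 h).elim h3 hpM2
    have h6 : ¬ (p : ℤ) ∣ (a * M) ^ 2 - 4 * (b * M ^ 2) := by
      have e : (a * M) ^ 2 - 4 * (b * M ^ 2) = (a ^ 2 - 4 * b) * M ^ 2 := by ring
      rw [e]
      exact fun h => (hpZ.dvd_mul.1 h).elim h4 hpM2
    have h7 := good h2 h3 h4 (hpd h3)
    have h8 := good (a := a * M) h2 h5 h6 (hpd h3)
    push_cast at h8
    exact ⟨fun _ => h7, fun _ => h8⟩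
  by_cases hN : LInv a b p
  · exact hN M d hpM hd
  · -- the product is a square
    apply scaleM hMp
    rw [sq_int h2 hpM, hMd]
    have h3 := sq_prod (p := p) (U := U) fun q hq =>
      ((hU q hq).2.2.2.2 p hp.out h2 hbad).resolve_left hN
    exact_mod_cast h3

lemma dvd_one' (hU : ∀ q ∈ U, Tq a b q) {d : ℤ} (hd : Squarefree d) (p : ℕ) [hp : Fact p.Prime]
    (hb : ¬ (p : ℤ) ∣ b)
    (h : LocA ℚ_[p] ((a : ℚ_[p]) * (((∏ q ∈ U, q : ℕ) : ℤ) : ℚ_[p]))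
      ((b : ℚ_[p]) * (((∏ q ∈ U, q : ℕ) : ℤ) : ℚ_[p]) ^ 2) (d : ℚ_[p])) : ¬ (p : ℤ) ∣ d := by
  have hUp : ∀ q ∈ U, q.Prime := fun q hq => (hU q hq).1
  refine Pool.Agent.Y695.locA_dvd a b ((∏ q ∈ U, q : ℕ) : ℤ) d (prod_ne hUp) hd hb
    (fun h1 => ?_) h
  have hpU : p ∈ U := by
    by_contra hcon
    exact prod_not_dvd hUp hp.out hcon h1
  obtain ⟨-, h2, -, h3, -⟩ := hU p hpU
  exact no_root (by rintro rfl; omega) h3

/-- **invariance of the set of the classes** -/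
theorem inv' (hb : b ≠ 0) (hU : ∀ q ∈ U, Tq a b q) :
    Sel (a * ((∏ q ∈ U, q : ℕ) : ℤ)) (b * ((∏ q ∈ U, q : ℕ) : ℤ) ^ 2) = Sel a b := by
  have hUp : ∀ q ∈ U, q.Prime := fun q hq => (hU q hq).1
  have hpos : 0 < ∏ q ∈ U, q := Finset.prod_pos fun q hq => (hUp q hq).pos
  have hR : ∀ d : ℝ, LocA ℝ ((a : ℝ) * ((∏ q ∈ U, q : ℕ) : ℝ))
      ((b : ℝ) * ((∏ q ∈ U, q : ℕ) : ℝ) ^ 2) d ↔ LocA ℝ (a : ℝ) (b : ℝ) d := by
    intro d
    have h1 : (0 : ℝ) < ((∏ q ∈ U, q : ℕ) : ℝ) := by exact_mod_cast hpos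
    exact scaleM h1.ne' ⟨Real.sqrt _, (Real.mul_self_sqrt h1.le).symm⟩
  ext d
  unfold Sel
  simp only [Set.mem_setOf_eq]
  constructor
  · rintro ⟨h1, h2, h3⟩
    push_cast at h2
    refine ⟨h1, (hR d).1 (by push_cast; exact h2), fun p _ => ?_⟩
    have h4 := h3 p
    have h5 : LocA ℚ_[p] ((a : ℚ_[p]) * (((∏ q ∈ U, q : ℕ) : ℤ) : ℚ_[p]))
      ((b : ℚ_[p]) * (((∏ q ∈ U, q : ℕ) : ℤ) : ℚ_[p]) ^ 2) (d : ℚ_[p]) := by
      push_cast at h4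
      push_cast
      exact h4
    exact (place' hb hU h1.ne_zero p fun h6 => dvd_one' hU h1 p h6 h5).1 h5
  · rintro ⟨h1, h2, h3⟩
    refine ⟨h1, ?_, fun p _ => ?_⟩
    · have := (hR d).2 h2
      push_cast at this
      push_cast
      exact this
    · have h4 := h3 p
      have h5 : ¬ (p : ℤ) ∣ b → ¬ (p : ℤ) ∣ d := fun h6 =>
        dvd_one' (a := a) (b := b) (U := ∅) (fun q hq => by simp at hq) h1 p h6 (by
          simpa using h4)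
      have h7 := (place' hb hU h1.ne_zero p h5).2 h4
      push_cast at h7
      push_cast
      exact h7

/-- the classes of a curve given by an equation scaled by a square -/
theorem sel_scale {k : ℤ} (hk : k ≠ 0) : Sel (a * k ^ 2) (b * k ^ 4) = Sel a b := by
  ext d
  unfold Sel
  simp only [Set.mem_setOf_eq]
  refine and_congr_right fun _ => and_congr ?_ (forall_congr' fun p => forall_congr' fun hp => ?_)
  · have hk' : (k : ℝ) ≠ 0 := by exact_mod_cast hk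
    rw [← scale (a := (a : ℝ)) (b := (b : ℝ)) hk']
    push_cast
    rfl
  · have hk' : (k : ℚ_[p]) ≠ 0 := by exact_mod_cast hk
    rw [← scale (a := (a : ℚ_[p])) (b := (b : ℚ_[p])) hk']
    push_cast
    rfl

end

end Pool.Agent.U80.GT
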